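import Pool.Agent.HS37.C3.Stm
import Pool.Agent.HS37.CQ.Inty
import Pool.Agent.HS37.SP.Back
import Pool.Agent.HS37.SP.Prod

/-!
# Project C3, piece BK3: split primes at CM points (everything up to the linear sums)
-/

set_option autoImplicit false

open UpperHalfPlane
open Pool.Agent.HS37.SP Pool.Agent.HS37.CQ Pool.Agent.HS37.CQ.INTY

namespace Pool.Agent.HS37.C3

noncomputable section

namespace BK3

open PowerSeries

/-- `Φ` -/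
def phi3 (δ : ℕ) (h : ℂ) : ℂ := ∑ n ∈ Finset.range (δ + 1), (vv n : ℂ) * (h ^ n * (h + 27) ^ (2 * (δ - n)))

lemma pt_sum (hC : S_CLO3) {ι : Type} (S : Finset ι) (k : ℤ) (g g' : ι → ℍ → ℂ)
    (h : ∀ i ∈ S, Pt k (g i) (g' i)) (h0 : Pt k (fun _ => 0) (fun _ => 0)) :
    Pt k (fun τ => ∑ i ∈ S, g i τ) (fun τ => ∑ i ∈ S, g' i τ) := by
  classical
  induction S using Finset.induction_on with
  | empty => simpa using h0
  | insert i S hi ih =>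
    have h1 := ih (fun j hj => h j (Finset.mem_insert_of_mem hj))
    have h2 := hC.2.1 _ _ _ _ _ (h i (Finset.mem_insert_self i S)) h1
    have e1 : (fun τ => ∑ j ∈ insert i S, g j τ) = fun τ => g i τ + ∑ j ∈ S, g j τ := by
      funext τ
      rw [Finset.sum_insert hi]
    have e2 : (fun τ => ∑ j ∈ insert i S, g' j τ) = fun τ => g' i τ + ∑ j ∈ S, g' j τ := by
      funext τ
      rw [Finset.sum_insert hi]
    rw [e1, e2]
    exact h2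

lemma pt_phi (hC : S_CLO3) {h h' : ℍ → ℂ} (hh : Pt 0 h h') (δ : ℕ) :
    Pt 0 (fun τ => phi3 δ (h τ)) (fun τ => phi3 δ (h' τ)) := by
  unfold phi3
  refine pt_sum hC _ 0 _ _ (fun n _ => ?_) (hC.2.2.2.1 0)
  have h1 := hC.2.1 _ _ _ _ _ hh (hC.2.2.2.1 27)
  have h2 := hC.2.2.2.2.1 _ _ _ (2 * (δ - n)) h1
  have h3 := hC.2.2.2.2.1 _ _ _ n hh
  rw [mul_zero] at h2 h3
  have h4 := hC.1 _ _ _ _ _ _ h3 h2
  rw [add_zero] at h4
  exact hC.2.2.1 _ _ _ _ h4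

lemma qexp_phi3 {h : ℍ → ℂ} {e : ℕ} {c : PowerSeries ℂ} (hh : QExp h e c) (δ : ℕ) :
    QExp (fun τ => phi3 δ (h τ)) (2 * δ * e) (∑ n ∈ Finset.range (δ + 1), C (vv n : ℂ) *
      (X ^ (n * e) * (c ^ n * (c + X ^ e * C 27) ^ (2 * (δ - n))))) := by
  unfold phi3
  refine qexp_sum _ _ _ _ (fun n hn => ?_)
  rw [Finset.mem_range] at hn
  refine t_QMUL.2.2.2.1 _ _ _ _ ?_
  have h1 := qexp_pow (t_QMUL.2.1 _ _ _ _ _ hh (qexp_const 27 e)) (2 * (δ - n))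
  have h2 := t_QMUL.1 _ _ _ _ _ _ (qexp_pow hh n) h1
  have h3 := t_QMUL.2.2.2.2.1 _ _ (n * e) _ h2
  have e1 : n * e + 2 * (δ - n) * e + n * e = 2 * δ * e := by
    obtain ⟨m, hm⟩ : ∃ m, δ = n + m := ⟨δ - n, by omega⟩
    rw [hm, Nat.add_sub_cancel_left]
    ring
  rw [e1] at h3
  exact h3

lemma phi3_series {c t : PowerSeries ℂ} {e : ℕ} (h : (c + X ^ e * C 27) ^ 2 * t = c * X ^ e) (δ : ℕ) :
    ∑ n ∈ Finset.range (δ + 1), C (vv n : ℂ) *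
      (X ^ (n * e) * (c ^ n * (c + X ^ e * C 27) ^ (2 * (δ - n)))) =
    (c + X ^ e * C 27) ^ (2 * δ) * ∑ n ∈ Finset.range (δ + 1), C (vv n : ℂ) * t ^ n := by
  rw [Finset.mul_sum]
  refine Finset.sum_congr rfl fun n hn => ?_
  rw [Finset.mem_range] at hn
  obtain ⟨m, rfl⟩ : ∃ m, δ = n + m := ⟨δ - n, by omega⟩
  rw [Nat.add_sub_cancel_left]
  have h1 : X ^ (n * e) * c ^ n = ((c + X ^ e * C 27) ^ 2 * t) ^ n := by
    rw [h, mul_pow, ← pow_mul, mul_comm e n, mul_comm]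
  have h2 : X ^ (n * e) * (c ^ n * (c + X ^ e * C 27) ^ (2 * m)) =
      (X ^ (n * e) * c ^ n) * (c + X ^ e * C 27) ^ (2 * m) := by ring
  rw [h2, h1, mul_pow, ← pow_mul, Nat.mul_add, pow_add]
  ring

lemma phi3_point {c : ℤ} {h : ℂ} (hc : (h + 27) ^ 2 = c * h) (δ : ℕ) :
    phi3 δ h = h ^ δ * (MM δ c : ℂ) := by
  unfold phi3 MM
  push_cast
  rw [Finset.mul_sum]
  refine Finset.sum_congr rfl fun n hn => ?_
  rw [Finset.mem_range] at hn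
  obtain ⟨m, rfl⟩ : ∃ m, δ = n + m := ⟨δ - n, by omega⟩
  rw [Nat.add_sub_cancel_left, pow_mul, hc, mul_pow, pow_add]
  ring

lemma int_h3 {c : ℤ} {h : ℂ} (hc : (h + 27) ^ 2 = c * h) (h0 : h ≠ 0) :
    IsIntegral ℤ h ∧ IsIntegral ℤ (729 / h) := by
  have key : ∀ x : ℂ, x ^ 2 + (54 - c) * x + 729 = 0 → IsIntegral ℤ x := by
    intro x hx
    refine ⟨Polynomial.X ^ 2 + Polynomial.C (54 - c) * Polynomial.X + Polynomial.C 729, ?_, ?_⟩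
    · monicity!
    · simp only [Polynomial.eval₂_add, Polynomial.eval₂_mul, Polynomial.eval₂_pow,
        Polynomial.eval₂_X, Polynomial.eval₂_C]
      simp
      linear_combination hx
  refine ⟨key _ (by linear_combination hc), key _ ?_⟩
  field_simp
  linear_combination 729 * hc

lemma C27 (c : PowerSeries ℂ) : (27 : PowerSeries ℂ) * c = C 27 * c := by
  have : (27 : PowerSeries ℂ) = C 27 := by
    rw [show (27 : ℂ) = ((27 : ℕ) : ℂ) by norm_num, map_natCast]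
    norm_num
  rw [this]

/-- the series of the odd forms -/
structure OS (β γ₃ : ℍ → ℂ) (ε : ℂ) (cβ cγ c0 c1 : PowerSeries ℂ) : Prop where
  he : ε = 1 ∨ ε = -1
  pβ : Pt 3 β (fun τ => 27 * ε * γ₃ τ)
  pγ : Pt 3 γ₃ (fun τ => ε * β τ / 27)
  fβ : ∀ τ, β τ ^ 2 = gG τ
  fD : ∀ τ, β τ * γ₃ τ = gD τ
  fF : ∀ τ, γ₃ τ ^ 2 = gF τ
  qβ : QExp β 0 cβ
  qγ : QExp γ₃ 0 cγ
  iβ : IsInt cβ
  iγ : IsInt cγ
  q0 : QExp (fun τ => (β τ)⁻¹) 0 c0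
  i0 : IsInt c0
  m0 : cβ * c0 = 1
  q1 : QExp (fun τ => (γ₃ τ)⁻¹) 1 c1
  i1 : IsInt c1
  m1 : cγ * c1 = X
  sG : dG = cβ ^ 2
  sD : dD = cβ * cγ
  sF : dF = cγ ^ 2

lemma os_of (hO : S_ODD3) (hE : S_EXP3) : ∃ β γ₃ ε cβ cγ c0 c1, OS β γ₃ ε cβ cγ c0 c1 := by
  obtain ⟨β, γ₃, ε, cβ, cγ, he, pβ, pγ, fβ, fD, fF, qβ, qγ, iβ, iγ, -, -, -, sD,
    ⟨c0, q0, i0, m0⟩, ⟨c1, q1, i1, m1⟩⟩ := hO
  obtain ⟨-, -, -, qF, qG, -⟩ := hE
  refine ⟨β, γ₃, ε, cβ, cγ, c0, c1, he, pβ, pγ, fβ, fD, fF, qβ, qγ, iβ, iγ, q0, i0, m0, q1, i1, m1,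
    ?_, sD.symm, ?_⟩
  · refine t_QMUL.2.2.1 gG 0 _ _ qG ?_
    have h := qexp_pow qβ 2
    have e1 : (fun τ => β τ ^ 2) = gG := funext fβ
    rw [e1] at h
    exact h
  · refine t_QMUL.2.2.1 gF 0 _ _ qF ?_
    have h := qexp_pow qγ 2
    have e1 : (fun τ => γ₃ τ ^ 2) = gF := funext fF
    rw [e1] at h
    exact h

section
variable {β γ₃ : ℍ → ℂ} {ε : ℂ} {cβ cγ c0 c1 : PowerSeries ℂ}

lemma OS.beta_ne (o : OS β γ₃ ε cβ cγ c0 c1) (hR : S_REL3) (τ : ℍ) : β τ ≠ 0 := by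
  intro h
  have := o.fD τ
  rw [h, zero_mul] at this
  exact hR.2.2.2.2.2.2.2.2.2.2.2.2.1 τ this.symm

lemma OS.gamma_ne (o : OS β γ₃ ε cβ cγ c0 c1) (hR : S_REL3) (τ : ℍ) : γ₃ τ ≠ 0 := by
  intro h
  have := o.fD τ
  rw [h, mul_zero] at this
  exact hR.2.2.2.2.2.2.2.2.2.2.2.2.1 τ this.symm

lemma OS.eps_sq (o : OS β γ₃ ε cβ cγ c0 c1) : ε * ε = 1 := by
  rcases o.he with h | h <;> rw [h] <;> norm_num

lemma OS.eps_inv (o : OS β γ₃ ε cβ cγ c0 c1) : ε⁻¹ = ε := by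
  rcases o.he with h | h <;> rw [h] <;> norm_num

lemma OS.eps_int (o : OS β γ₃ ε cβ cγ c0 c1) : C ε ∈ intR := by
  rcases o.he with h | h
  · have := isInt_C 1
    rw [h]
    exact_mod_cast this
  · have := isInt_C (-1)
    rw [h]
    exact_mod_cast this

/-- `σ = cβ + 27 cγ` (`= a³`) -/
lemma OS.sigma (o : OS β γ₃ ε cβ cγ c0 c1) (hRam : S_RAM3) :
    cβ * (cβ + C 27 * cγ) = dP * ds ∧ cγ * (cβ + C 27 * cγ) = de * dP ∧
    (cβ + C 27 * cγ) ^ 2 = dP ^ 3 := by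
  obtain ⟨r1, r2, r3, r4, r5, -⟩ := hRam
  have hG := o.sG
  have hD := o.sD
  have hF := o.sF
  rw [C27] at r3
  have a1 : cβ * (cβ + C 27 * cγ) = dP * ds := by
    rw [r3, hG, hD]
    ring
  have a2 : cγ * (cβ + C 27 * cγ) = de * dP := by
    have : dD = de * dP - C 27 * dF := by rw [dD, C27]
    rw [hD, hF] at this
    linear_combination this
  refine ⟨a1, a2, ?_⟩
  have h1 : (cβ * cγ) * ((cβ + C 27 * cγ) ^ 2 - dP ^ 3) = 0 := by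
    have : (cβ * cγ) * (cβ + C 27 * cγ) ^ 2 = (cβ * (cβ + C 27 * cγ)) * (cγ * (cβ + C 27 * cγ)) := by
      ring
    rw [mul_sub, this, a1, a2, ← hD]
    linear_combination dP ^ 2 * r4
  have h2 : (X : PowerSeries ℂ) * ((cβ + C 27 * cγ) ^ 2 - dP ^ 3) = 0 := by
    have h3 : (c0 * c1) * ((cβ * cγ) * ((cβ + C 27 * cγ) ^ 2 - dP ^ 3)) = 0 := by rw [h1, mul_zero]
    have h4 : (c0 * c1) * ((cβ * cγ) * ((cβ + C 27 * cγ) ^ 2 - dP ^ 3)) =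
        (cβ * c0) * (cγ * c1) * ((cβ + C 27 * cγ) ^ 2 - dP ^ 3) := by ring
    rw [h4, o.m0, o.m1, one_mul] at h3
    exact h3
  rcases mul_eq_zero.1 h2 with h3 | h3
  · exact absurd h3 X_ne_zero
  · exact sub_eq_zero.1 h3

lemma dP_inv (hE : S_EXP3) : dP ^ 3 * (dP ^ 3)⁻¹ = 1 := by
  apply PowerSeries.mul_inv_cancel
  rw [map_pow]
  have h := hE.2.2.2.2.2.2.2.2.2.2.2.2.2.2.1
  rw [coeff_zero_eq_constantCoeff_apply] at h
  rw [h]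
  norm_num

lemma OS.key_inf (o : OS β γ₃ ε cβ cγ c0 c1) (hE : S_EXP3) (hRam : S_RAM3) :
    cβ * c1 + X ^ 1 * C 27 = c1 * (cβ + C 27 * cγ) ∧
    (cβ * c1 + X ^ 1 * C 27) ^ 2 * dt = (cβ * c1) * X ^ 1 := by
  obtain ⟨s1, s2, s3⟩ := o.sigma hRam
  have h3 : cβ * c1 + X ^ 1 * C 27 = c1 * (cβ + C 27 * cγ) := by
    rw [pow_one, ← o.m1]
    ring
  refine ⟨h3, ?_⟩
  have h4 := dP_inv hE
  rw [h3, dt, o.sD, mul_pow, s3, pow_one, ← o.m1]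
  linear_combination (c1 ^ 2 * cβ * cγ) * h4

lemma OS.key_zero (o : OS β γ₃ ε cβ cγ c0 c1) (hE : S_EXP3) (hRam : S_RAM3) :
    C 729 * (cγ * c0) + X ^ 0 * C 27 = C 27 * (c0 * (cβ + C 27 * cγ)) ∧
    (C 729 * (cγ * c0) + X ^ 0 * C 27) ^ 2 * dt = (C 729 * (cγ * c0)) * X ^ 0 := by
  obtain ⟨s1, s2, s3⟩ := o.sigma hRam
  have h729 : (C 729 : PowerSeries ℂ) = C 27 * C 27 := by
    rw [← map_mul]
    norm_num
  have h3 : C 729 * (cγ * c0) + X ^ 0 * C 27 = C 27 * (c0 * (cβ + C 27 * cγ)) := by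
    rw [pow_zero, h729]
    linear_combination (-(C 27 : PowerSeries ℂ)) * o.m0
  refine ⟨h3, ?_⟩
  have h4 := dP_inv hE
  have e1 : (C 27 * (c0 * (cβ + C 27 * cγ))) ^ 2 * (cβ * cγ * (dP ^ 3)⁻¹) =
      C 27 ^ 2 * c0 ^ 2 * (cβ + C 27 * cγ) ^ 2 * (cβ * cγ * (dP ^ 3)⁻¹) := by ring
  rw [h3, dt, o.sD, e1, s3, h729]
  linear_combination (C 27 * C 27 * c0 ^ 2 * cβ * cγ) * h4 + (C 27 * C 27 * c0 * cγ) * o.m0


lemma pt_cast {k l : ℤ} (h : k = l) {g g' : ℍ → ℂ} (hg : Pt k g g') : Pt l g g' := h ▸ hg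

lemma OS.pts (o : OS β γ₃ ε cβ cγ c0 c1) (hPre : S_PRE3) (hR : S_REL3) (hC : S_CLO3) (hB : S_BAS3)
    (p δ : ℕ) :
    Pt 1 (fun τ => phi3 δ (gh τ) * (gs τ * (γ₃ τ)⁻¹))
      (fun τ => phi3 δ (729 / gh τ) * (27 * ge τ * (ε * β τ / 27)⁻¹)) ∧
    Pt (-1) (fun τ => 27 * (gP τ * (β τ)⁻¹)) (fun τ => 27 * (gP τ * (27 * ε * γ₃ τ)⁻¹)) ∧
    Pt 3 (fun τ => -1 * (β τ * (gh τ + 27) ^ p))
      (fun τ => -1 * (27 * ε * γ₃ τ * (729 / gh τ + 27) ^ p)) ∧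
    Pt (-3) (fun τ => 27 * (β τ)⁻¹) (fun τ => 27 * (27 * ε * γ₃ τ)⁻¹) := by
  obtain ⟨-, ps, -, -, -, ph, -⟩ := hPre
  have pP := hB.2.1
  have hC' := hC
  obtain ⟨cmul, cadd, csm, cc, cpow, cinv, -⟩ := hC
  have hε : ε ≠ 0 := by
    intro h
    have := o.eps_sq
    rw [h, zero_mul] at this
    exact zero_ne_one this
  have ib := cinv _ _ _ o.pβ (o.beta_ne hR)
    (fun τ => mul_ne_zero (mul_ne_zero (by norm_num) hε) (o.gamma_ne hR τ))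
  have ig := cinv _ _ _ o.pγ (o.gamma_ne hR)
    (fun τ => div_ne_zero (mul_ne_zero hε (o.beta_ne hR τ)) (by norm_num))
  refine ⟨?_, ?_, ?_, ?_⟩
  · exact pt_cast (by norm_num) (cmul _ _ _ _ _ _ (pt_phi hC' ph δ) (cmul _ _ _ _ _ _ ps ig))
  · exact pt_cast (by norm_num) (csm _ _ _ 27 (cmul _ _ _ _ _ _ pP ib))
  · have h1 := cpow _ _ _ p (cadd _ _ _ _ _ ph (cc 27))
    exact pt_cast (by norm_num) (csm _ _ _ (-1) (cmul _ _ _ _ _ _ o.pβ h1))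
  · exact csm _ _ _ 27 ib

lemma OS.exps (o : OS β γ₃ ε cβ cγ c0 c1) (hR : S_REL3) (hE : S_EXP3) {p δ : ℕ}
    (hpδ : p = 2 * δ + 1) :
    QExp (fun τ => phi3 δ (gh τ) * (gs τ * (γ₃ τ)⁻¹)) p
      ((∑ n ∈ Finset.range (δ + 1), C (vv n : ℂ) *
        (X ^ (n * 1) * ((cβ * c1) ^ n * (cβ * c1 + X ^ 1 * C 27) ^ (2 * (δ - n))))) * (ds * c1)) ∧
    QExp (fun τ => phi3 δ (729 / gh τ) * (27 * ge τ * (ε * β τ / 27)⁻¹)) 0
      ((∑ n ∈ Finset.range (δ + 1), C (vv n : ℂ) *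
        (X ^ (n * 0) * ((C 729 * (cγ * c0)) ^ n *
          (C 729 * (cγ * c0) + X ^ 0 * C 27) ^ (2 * (δ - n))))) * (C (729 * ε) * (de * c0))) ∧
    QExp (fun τ => 27 * (gP τ * (β τ)⁻¹)) 0 (C 27 * (dP * c0)) ∧
    QExp (fun τ => 27 * (gP τ * (27 * ε * γ₃ τ)⁻¹)) 1 (C ε * (dP * c1)) ∧
    QExp (fun τ => -1 * (β τ * (gh τ + 27) ^ p)) p (C (-1) * (cβ * (cβ * c1 + X ^ 1 * C 27) ^ p)) ∧
    QExp (fun τ => -1 * (27 * ε * γ₃ τ * (729 / gh τ + 27) ^ p)) 0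
      (C (-1) * (C (27 * ε) * cγ * (C 729 * (cγ * c0) + X ^ 0 * C 27) ^ p)) ∧
    QExp (fun τ => 27 * (β τ)⁻¹) 0 (C 27 * c0) ∧
    QExp (fun τ => 27 * (27 * ε * γ₃ τ)⁻¹) 1 (C ε * c1) := by
  obtain ⟨qe, qs, qP, -⟩ := hE
  have hβ := o.beta_ne hR
  have hγ := o.gamma_ne hR
  have hε : ε ≠ 0 := by
    intro h
    have := o.eps_sq
    rw [h, zero_mul] at this
    exact zero_ne_one this
  have hei := o.eps_inv
  obtain ⟨qmul, qadd, -, qsm, -, -⟩ := t_QMUL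
  have egh : gh = fun τ => β τ * (γ₃ τ)⁻¹ := by
    funext τ
    have h1 := hβ τ
    have h2 := hγ τ
    rw [gh, ← o.fβ τ, ← o.fD τ]
    field_simp
  have qh : QExp gh 1 (cβ * c1) := by
    rw [egh]
    have h := qmul _ _ _ _ _ _ o.qβ o.q1
    rw [zero_add] at h
    exact h
  have qh' : QExp (fun τ => 729 / gh τ) 0 (C 729 * (cγ * c0)) := by
    have h := qsm _ _ _ 729 (qmul _ _ _ _ _ _ o.qγ o.q0)
    have e1 : (fun τ => 729 / gh τ) = fun τ => 729 * (γ₃ τ * (β τ)⁻¹) := by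
      funext τ
      have h1 := hβ τ
      have h2 := hγ τ
      rw [egh]
      field_simp
    rw [e1]
    exact h
  refine ⟨?_, ?_, ?_, ?_, ?_, ?_, ?_, ?_⟩
  · have h := qmul _ _ _ _ _ _ (qexp_phi3 qh δ) (qmul _ _ _ _ _ _ qs o.q1)
    have e1 : 2 * δ * 1 + (0 + 1) = p := by omega
    rw [e1] at h
    exact h
  · have h := qmul _ _ _ _ _ _ (qexp_phi3 qh' δ) (qsm _ _ _ (729 * ε) (qmul _ _ _ _ _ _ qe o.q0))
    have e1 : (fun τ => phi3 δ (729 / gh τ) * (27 * ge τ * (ε * β τ / 27)⁻¹)) =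
        fun τ => phi3 δ (729 / gh τ) * (729 * ε * (ge τ * (β τ)⁻¹)) := by
      funext τ
      have h1 := hβ τ
      have e2 : 27 * ge τ * (ε * β τ / 27)⁻¹ = 729 * ε⁻¹ * (ge τ * (β τ)⁻¹) := by
        field_simp
        ring
      rw [e2, hei]
    rw [e1]
    exact h
  · exact qsm _ _ _ 27 (qmul _ _ _ _ _ _ qP o.q0)
  · have h := qsm _ _ _ ε (qmul _ _ _ _ _ _ qP o.q1)
    have e1 : (fun τ => 27 * (gP τ * (27 * ε * γ₃ τ)⁻¹)) = fun τ => ε * (gP τ * (γ₃ τ)⁻¹) := by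
      funext τ
      have h1 := hγ τ
      have e2 : 27 * (gP τ * (27 * ε * γ₃ τ)⁻¹) = ε⁻¹ * (gP τ * (γ₃ τ)⁻¹) := by
        field_simp
      rw [e2, hei]
    rw [e1]
    exact h
  · have h := qsm _ _ _ (-1) (qmul _ _ _ _ _ _ o.qβ (qexp_pow (qadd _ _ _ _ _ qh (qexp_const 27 1)) p))
    have e1 : 0 + p * 1 = p := by omega
    rw [e1] at h
    exact h
  · exact qsm _ _ _ (-1) (qmul _ _ _ _ _ _ (qsm _ _ _ (27 * ε) o.qγ)
      (qexp_pow (qadd _ _ _ _ _ qh' (qexp_const 27 0)) p))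
  · exact qsm _ _ _ 27 o.q0
  · have h := qsm _ _ _ ε o.q1
    have e1 : (fun τ => 27 * (27 * ε * γ₃ τ)⁻¹) = fun τ => ε * (γ₃ τ)⁻¹ := by
      funext τ
      have h1 := hγ τ
      have e2 : 27 * (27 * ε * γ₃ τ)⁻¹ = ε⁻¹ * (γ₃ τ)⁻¹ := by
        field_simp
      rw [e2, hei]
    rw [e1]
    exact h

lemma OS.low_inf (o : OS β γ₃ ε cβ cγ c0 c1) (hE : S_EXP3) (hRam : S_RAM3) (hH : S_HYP3) {p δ : ℕ}
    (hp : p.Prime) (hpδ : p = 2 * δ + 1) :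
    ∀ n < p, ∃ z : ℤ, coeff n (((∑ n ∈ Finset.range (δ + 1), C (vv n : ℂ) *
        (X ^ (n * 1) * ((cβ * c1) ^ n * (cβ * c1 + X ^ 1 * C 27) ^ (2 * (δ - n))))) * (ds * c1)) *
        vps p (C 27 * (dP * c0)) +
      (C (-1) * (cβ * (cβ * c1 + X ^ 1 * C 27) ^ p)) * vps p (C 27 * c0)) = (p : ℂ) ^ 2 * z := by
  obtain ⟨k1, k2⟩ := o.key_inf hE hRam
  obtain ⟨s1, s2, s3⟩ := o.sigma hRam
  obtain ⟨r₁, r₂, ir1, ir2, hr⟩ := hH p δ hp hpδ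
  obtain ⟨-, -, -, -, -, -, ie, is, iP, -⟩ := hE
  have hp0 : p ≠ 0 := hp.ne_zero
  rw [phi3_series k2 δ, vps_mul hp0, vps_mul hp0, vps_mul hp0, vps_C hp0]
  have h1' : (C (-1) : PowerSeries ℂ) = -1 := by rw [map_neg, map_one]
  have e : ((cβ * c1 + X ^ 1 * C 27) ^ (2 * δ) *
      ∑ n ∈ Finset.range (δ + 1), C (vv n : ℂ) * dt ^ n) *
      (ds * c1) * (C 27 * (vps p dP * vps p c0)) +
      (C (-1) * (cβ * (cβ * c1 + X ^ 1 * C 27) ^ p)) * (C 27 * vps p c0) =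
      (C 27 * vps p c0 * (cβ * c1 + X ^ 1 * C 27) ^ (2 * δ) * (ds * c1)) *
      (C ((p : ℂ) ^ 2) * r₁ + X ^ p * r₂) := by
    rw [← hr, hpδ, pow_succ, h1']
    linear_combination (-(cβ * (C 27 * vps (2 * δ + 1) c0)) * (cβ * c1 + X ^ 1 * C 27) ^ (2 * δ)) * k1 -
      (C 27 * vps (2 * δ + 1) c0 * c1 * (cβ * c1 + X ^ 1 * C 27) ^ (2 * δ)) * s1
  rw [e]
  have jX : (X : PowerSeries ℂ) ∈ intR := ⟨X, by simp⟩
  have j27 : (C (27 : ℂ)) ∈ intR := by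
    have := isInt_C 27
    exact_mod_cast this
  have iU : (C 27 * vps p c0 * (cβ * c1 + X ^ 1 * C 27) ^ (2 * δ) * (ds * c1)) ∈ intR :=
    mul_mem (mul_mem (mul_mem j27 (isInt_iff.1 (vps_int o.i0)))
      (pow_mem (add_mem (mul_mem (isInt_iff.1 o.iβ) (isInt_iff.1 o.i1))
        (mul_mem (pow_mem jX 1) j27)) _)) (mul_mem (isInt_iff.1 is) (isInt_iff.1 o.i1))
  intro n hn
  obtain ⟨z, hz⟩ := isInt_iff.2 (mul_mem iU (isInt_iff.1 ir1)) n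
  refine ⟨z, ?_⟩
  rw [← hz]
  generalize (C 27 * vps p c0 * (cβ * c1 + X ^ 1 * C 27) ^ (2 * δ) * (ds * c1)) = U
  have e2 : U * (C ((p : ℂ) ^ 2) * r₁ + X ^ p * r₂) = C ((p : ℂ) ^ 2) * (U * r₁) + X ^ p * (U * r₂) := by
    ring
  rw [e2, map_add, coeff_C_mul, coeff_X_pow_mul', if_neg (by omega), add_zero]

lemma OS.low_zero (o : OS β γ₃ ε cβ cγ c0 c1) (hE : S_EXP3) (hRam : S_RAM3) (hH : S_HYP3) {p δ : ℕ}
    (hp : p.Prime) (hpδ : p = 2 * δ + 1) :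
    ∀ n ≤ p, ∃ z : ℤ, coeff n (((∑ n ∈ Finset.range (δ + 1), C (vv n : ℂ) *
        (X ^ (n * 0) * ((C 729 * (cγ * c0)) ^ n *
          (C 729 * (cγ * c0) + X ^ 0 * C 27) ^ (2 * (δ - n))))) * (C (729 * ε) * (de * c0))) *
        vps p (C ε * (dP * c1)) +
      (C (-1) * (C (27 * ε) * cγ * (C 729 * (cγ * c0) + X ^ 0 * C 27) ^ p)) * vps p (C ε * c1)) =
        (p : ℂ) ^ 2 * z := by
  obtain ⟨k1, k2⟩ := o.key_zero hE hRam
  obtain ⟨s1, s2, s3⟩ := o.sigma hRam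
  obtain ⟨r₁, r₂, ir1, ir2, hr⟩ := hH p δ hp hpδ
  obtain ⟨-, -, -, -, -, -, ie, is, iP, -, e0, -⟩ := hE
  have hp0 : p ≠ 0 := hp.ne_zero
  have hX : (X : PowerSeries ℂ) ∣ de := by
    rw [X_dvd_iff]
    simpa using e0
  obtain ⟨d, hd⟩ := hX
  have jd : d ∈ intR := by
    rw [← isInt_iff]
    intro n
    obtain ⟨z, hz⟩ := ie (n + 1)
    refine ⟨z, ?_⟩
    rw [← hz, hd, coeff_succ_X_mul]
  have h729 : (C 729 : PowerSeries ℂ) = C 27 * C 27 := by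
    rw [← map_mul]
    norm_num
  have h729e : (C (729 * ε) : PowerSeries ℂ) = C 27 * C 27 * C ε := by
    rw [← h729, ← map_mul]
  have h27e : (C (27 * ε) : PowerSeries ℂ) = C 27 * C ε := by
    rw [← map_mul]
  have hee : (C ε * C ε : PowerSeries ℂ) = 1 := by
    rw [← map_mul, o.eps_sq, map_one]
  have h1' : (C (-1) : PowerSeries ℂ) = -1 := by rw [map_neg, map_one]
  rw [phi3_series k2 δ, vps_mul hp0, vps_mul hp0, vps_mul hp0, vps_C hp0]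
  have e : ((C 729 * (cγ * c0) + X ^ 0 * C 27) ^ (2 * δ) *
      ∑ n ∈ Finset.range (δ + 1), C (vv n : ℂ) * dt ^ n) *
      (C (729 * ε) * (de * c0)) * (C ε * (vps p dP * vps p c1)) +
      (C (-1) * (C (27 * ε) * cγ * (C 729 * (cγ * c0) + X ^ 0 * C 27) ^ p)) * (C ε * vps p c1) =
      (C 27 * C 27 * vps p c1 * (C 729 * (cγ * c0) + X ^ 0 * C 27) ^ (2 * δ) * (d * c0)) * X *
      (C ((p : ℂ) ^ 2) * r₁ + X ^ p * r₂) := by
    have e3 : (C 27 * C 27 * vps p c1 * (C 729 * (cγ * c0) + X ^ 0 * C 27) ^ (2 * δ) *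
        (d * c0)) * X = C 27 * C 27 * vps p c1 *
        (C 729 * (cγ * c0) + X ^ 0 * C 27) ^ (2 * δ) * (de * c0) := by
      linear_combination (-(C 27 * C 27 * vps p c1 *
        (C 729 * (cγ * c0) + X ^ 0 * C 27) ^ (2 * δ) * c0)) * hd
    rw [e3, ← hr]
    subst hpδ
    rw [pow_succ, h1', h729e, h27e]
    generalize (C 729 * (cγ * c0) + X ^ 0 * C 27) ^ (2 * δ) = W at *
    generalize (∑ n ∈ Finset.range (δ + 1), C (vv n : ℂ) * dt ^ n) = S at *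
    linear_combination (-(C 27 * C ε * cγ * C ε * vps (2 * δ + 1) c1 * W)) * k1 +
      (W * S * (C 27 * C 27 * (de * c0)) * (vps (2 * δ + 1) dP * vps (2 * δ + 1) c1) -
        C 27 * C 27 * cγ * (c0 * (cβ + C 27 * cγ)) * vps (2 * δ + 1) c1 * W) * hee -
      (C 27 * C 27 * c0 * vps (2 * δ + 1) c1 * W) * s2
  rw [e]
  have jX : (X : PowerSeries ℂ) ∈ intR := ⟨X, by simp⟩
  have j27 : (C (27 : ℂ)) ∈ intR := by
    have := isInt_C 27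
    exact_mod_cast this
  have iU : (C 27 * C 27 * vps p c1 * (C 729 * (cγ * c0) + X ^ 0 * C 27) ^ (2 * δ) *
      (d * c0)) ∈ intR := by
    refine mul_mem (mul_mem (mul_mem (mul_mem j27 j27) (isInt_iff.1 (vps_int o.i1)))
      (pow_mem (add_mem ?_ (mul_mem (pow_mem jX 0) j27)) _)) (mul_mem jd (isInt_iff.1 o.i0))
    rw [h729]
    exact mul_mem (mul_mem j27 j27) (mul_mem (isInt_iff.1 o.iγ) (isInt_iff.1 o.i0))
  intro n hn
  generalize (C 27 * C 27 * vps p c1 * (C 729 * (cγ * c0) + X ^ 0 * C 27) ^ (2 * δ) *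
      (d * c0)) = U at iU ⊢
  obtain ⟨z, hz⟩ := isInt_iff.2 (mul_mem (mul_mem iU jX) (isInt_iff.1 ir1)) n
  refine ⟨z, ?_⟩
  rw [← hz]
  have e2 : U * X * (C ((p : ℂ) ^ 2) * r₁ + X ^ p * r₂) =
      C ((p : ℂ) ^ 2) * (U * X * r₁) + X ^ (p + 1) * (U * r₂) := by
    ring
  rw [e2, map_add, coeff_C_mul, coeff_X_pow_mul', if_neg (by omega), add_zero]


/-- the linear sums -/
lemma OS.lin (o : OS β γ₃ ε cβ cγ c0 c1) (hL : S_LIN3) (hH : S_HYP3) (hR : S_REL3) (hPre : S_PRE3)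
    (hE : S_EXP3) (hRam : S_RAM3) (hC : S_CLO3) (hB : S_BAS3) {p δ : ℕ} (hp : p.Prime) (hp3 : p ≠ 3)
    (hpδ : p = 2 * δ + 1) (m : ℕ) : ∃ Q₁ Q₂ : Polynomial ℤ, ∀ τ : ℍ,
      ∑ t ∈ reps p, (phi3 δ (gh τ) * (gs τ * (γ₃ τ)⁻¹) *
        val3 (-1) (fun τ => 27 * (gP τ * (β τ)⁻¹)) (mat t) τ +
        -1 * (β τ * (gh τ + 27) ^ p) * val3 (-3) (fun τ => 27 * (β τ)⁻¹) (mat t) τ) * xx p t τ ^ m =
        (p : ℂ) ^ 2 * (Polynomial.aeval (gh τ) Q₁ + Polynomial.aeval (729 / gh τ) Q₂) := by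
  obtain ⟨pA0, pB0, pA1, pB1⟩ := o.pts hPre hR hC hB p δ
  obtain ⟨qA0, qA0', qB0, qB0', qA1, qA1', qB1, qB1'⟩ := o.exps hR hE hpδ
  have l1 := o.low_inf hE hRam hH hp hpδ
  have l2 := o.low_zero hE hRam hH hp hpδ
  obtain ⟨-, -, -, -, -, -, ie, is, iP, -⟩ := hE
  rw [isInt_iff] at ie is iP
  have iβ := isInt_iff.1 o.iβ
  have iγ := isInt_iff.1 o.iγ
  have i0 := isInt_iff.1 o.i0
  have i1 := isInt_iff.1 o.i1
  have iε := o.eps_int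
  have jz : ∀ z : ℤ, C (z : ℂ) ∈ intR := isInt_C
  have j27 : (C (27 : ℂ)) ∈ intR := by
    have := isInt_C 27
    exact_mod_cast this
  have j729 : (C (729 : ℂ)) ∈ intR := by
    have := isInt_C 729
    exact_mod_cast this
  have jm1 : (C (-1 : ℂ)) ∈ intR := by
    have := isInt_C (-1)
    exact_mod_cast this
  have j27e : C (27 * ε) ∈ intR := by
    rw [map_mul]
    exact mul_mem j27 iε
  have j729e : C (729 * ε) ∈ intR := by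
    rw [map_mul]
    exact mul_mem j729 iε
  have jX : (X : PowerSeries ℂ) ∈ intR := ⟨X, by simp⟩
  have jn : ∀ n : ℕ, C (n : ℂ) ∈ intR := by
    intro n
    have := isInt_C n
    exact_mod_cast this
  have jphi : ∀ (c : PowerSeries ℂ) (e : ℕ), c ∈ intR →
      (∑ n ∈ Finset.range (δ + 1), C (vv n : ℂ) *
        (X ^ (n * e) * (c ^ n * (c + X ^ e * C 27) ^ (2 * (δ - n))))) ∈ intR := by
    intro c e hc
    refine sum_mem fun n _ => ?_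
    exact mul_mem (jn _) (mul_mem (pow_mem jX _) (mul_mem (pow_mem hc _)
      (pow_mem (add_mem hc (mul_mem (pow_mem jX _) j27)) _)))
  obtain ⟨Q₁, Q₂, key⟩ := hL p hp hp3 ![-1, -3]
    ![(fun τ => phi3 δ (gh τ) * (gs τ * (γ₃ τ)⁻¹)), (fun τ => -1 * (β τ * (gh τ + 27) ^ p))]
    ![_, _] ![(fun τ => 27 * (gP τ * (β τ)⁻¹)), (fun τ => 27 * (β τ)⁻¹)] ![_, _]
    ![_, _] ![_, _] ![_, _] ![_, _] p
    (by rw [Fin.forall_fin_two]; constructor <;> simp)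
    (by
      rw [Fin.forall_fin_two]
      exact ⟨⟨-1, by norm_num⟩, ⟨-2, by norm_num⟩⟩)
    (by
      rw [Fin.forall_fin_two]
      exact ⟨pt_cast (by norm_num) pA0, pt_cast (by norm_num) pA1⟩)
    (by
      rw [Fin.forall_fin_two]
      exact ⟨pB0, pB1⟩)
    (by
      rw [Fin.forall_fin_two]
      exact ⟨qA0, qA1⟩)
    (by
      rw [Fin.forall_fin_two]
      exact ⟨qA0', qA1'⟩)
    (by
      rw [Fin.forall_fin_two]
      exact ⟨qB0, qB1⟩)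
    (by
      rw [Fin.forall_fin_two]
      exact ⟨qB0', qB1'⟩)
    (by
      rw [Fin.forall_fin_two]
      refine ⟨isInt_iff.2 ?_, isInt_iff.2 ?_⟩
      · exact mul_mem (jphi _ _ (mul_mem iβ i1)) (mul_mem is i1)
      · exact mul_mem jm1 (mul_mem iβ (pow_mem (add_mem (mul_mem iβ i1)
          (mul_mem (pow_mem jX _) j27)) _)))
    (by
      rw [Fin.forall_fin_two]
      refine ⟨isInt_iff.2 ?_, isInt_iff.2 ?_⟩
      · exact mul_mem (jphi _ _ (mul_mem j729 (mul_mem iγ i0))) (mul_mem j729e (mul_mem ie i0))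
      · exact mul_mem jm1 (mul_mem (mul_mem j27e iγ) (pow_mem (add_mem
          (mul_mem j729 (mul_mem iγ i0)) (mul_mem (pow_mem jX _) j27)) _)))
    (by
      rw [Fin.forall_fin_two]
      exact ⟨isInt_iff.2 (mul_mem j27 (mul_mem iP i0)), isInt_iff.2 (mul_mem j27 i0)⟩)
    (by
      rw [Fin.forall_fin_two]
      exact ⟨isInt_iff.2 (mul_mem iε (mul_mem iP i1)), isInt_iff.2 (mul_mem iε i1)⟩)
    (by
      rw [Fin.sum_univ_two]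
      exact l1)
    (by
      rw [Fin.sum_univ_two]
      exact l2) m
  refine ⟨Q₁, Q₂, fun τ => ?_⟩
  rw [← key τ]
  refine Finset.sum_congr rfl fun t _ => ?_
  rw [Fin.sum_univ_two]
  rfl

end

/-- `chr` to an even power -/
lemma chr_even {d : ℤ} (hd : ¬ (3 : ℤ) ∣ d) (j : ℤ) : chr d ^ (2 * j) = 1 := by
  have h : chr d = 1 ∨ chr d = -1 := by
    unfold chr
    have h1 : d % 3 ≠ 0 := fun h => hd (Int.dvd_of_emod_eq_zero h)
    rw [if_neg h1]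
    split_ifs
    · exact Or.inl rfl
    · exact Or.inr rfl
  rw [zpow_mul]
  rcases h with h | h <;> rw [h] <;> norm_num

lemma val3_even {N : ℕ} (hN : 0 < N) (h3 : ¬ 3 ∣ N) {t : ℕ × ℕ × ℕ} (ht : t ∈ reps N) (j : ℤ)
    (g : ℍ → ℂ) (τ : ℍ) : val3 (2 * j) g (mat t) τ = val (2 * j) g (mat t) τ := by
  have hd : ¬ (3 : ℤ) ∣ (mat t) 1 1 := by
    intro h
    have h1 : t.1 * t.2.2 = N := by
      unfold reps at ht
      rw [Finset.mem_filter] at ht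
      exact ht.2.1
    have h2 : (mat t) 1 1 = (t.2.2 : ℤ) := by simp [mat]
    rw [h2] at h
    have h4 : 3 ∣ t.2.2 := by exact_mod_cast h
    exact h3 (h1 ▸ Dvd.dvd.mul_left h4 _)
  unfold val3 val
  rw [mul_zpow, show -(2 * j) = 2 * (-j) by ring, chr_even hd, one_mul]

end BK3

end

end Pool.Agent.HS37.C3
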