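import Pool.Agent.HS37.C3.Stm
import Pool.Agent.HS37.SP.Val

/-!
# Project C3, piece CLO3: closure properties of pairs with character
-/

set_option autoImplicit false

open UpperHalfPlane MatrixGroups Complex
open Pool.Agent.HS37.SP Pool.Agent.HS37.CQ

namespace Pool.Agent.HS37.C3

/-- the factor of weight one is not zero -/
theorem wf_ne (τ : ℍ) : wf τ ≠ 0 := by
  unfold wf
  refine mul_ne_zero (mul_ne_zero (neg_ne_zero.mpr Complex.I_ne_zero) ?_) τ.ne_zero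
  exact_mod_cast (Real.sqrt_pos.mpr (by norm_num : (0 : ℝ) < 3)).ne'

/-- the character is not zero on numbers prime to `3` -/
theorem chr_ne {d : ℤ} (h : ¬ (3 : ℤ) ∣ d) : chr d ≠ 0 := by
  unfold chr
  have h0 : d % 3 ≠ 0 := fun h1 => h (Int.dvd_of_emod_eq_zero h1)
  rw [if_neg h0]
  split_ifs
  · exact one_ne_zero
  · exact neg_ne_zero.mpr one_ne_zero

/-- the lower right entry is prime to `3` -/
theorem not_dvd_of_sl {γ : SL(2, ℤ)} (h : (3 : ℤ) ∣ γ 1 0) : ¬ (3 : ℤ) ∣ γ 1 1 := by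
  intro h1
  have hd : γ 0 0 * γ 1 1 - γ 0 1 * γ 1 0 = 1 := by
    have := γ.det_coe
    rwa [Matrix.det_fin_two] at this
  have h2 : (3 : ℤ) ∣ 1 := by
    rw [← hd]
    exact dvd_sub (h1.mul_left _) (h.mul_left _)
  norm_num at h2

/-- the factor of automorphy with character is not zero -/
theorem fac_ne {γ : SL(2, ℤ)} (h : (3 : ℤ) ∣ γ 1 0) (τ : ℍ) :
    chr (γ 1 1) * ((γ 1 0 : ℂ) * τ + (γ 1 1 : ℂ)) ≠ 0 :=
  mul_ne_zero (chr_ne (not_dvd_of_sl h)) (sl_den_ne γ τ)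

theorem clo3_mul {k l : ℤ} {g g' f f' : ℍ → ℂ} (hg : Pt k g g') (hf : Pt l f f') :
    Pt (k + l) (fun τ => g τ * f τ) (fun τ => g' τ * f' τ) := by
  refine ⟨?_, ?_, ?_, ?_, ?_, ?_⟩
  · intro γ τ h
    rw [hg.sl γ τ h, hf.sl γ τ h, zpow_add₀ (fac_ne h τ)]
    ring
  · intro γ τ h
    rw [hg.sl' γ τ h, hf.sl' γ τ h, zpow_add₀ (fac_ne h τ)]
    ring
  · intro τ
    rw [hg.fr, hf.fr, zpow_add₀ (wf_ne τ)]
    ring
  · intro τ
    rw [hg.fr', hf.fr', zpow_add₀ (wf_ne τ)]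
    ring
  · exact hg.holo.mul hf.holo
  · exact hg.holo'.mul hf.holo'

theorem clo3_const (z : ℂ) : Pt 0 (fun _ => z) (fun _ => z) := by
  refine ⟨?_, ?_, ?_, ?_, ?_, ?_⟩
  · intro γ τ _; simp
  · intro γ τ _; simp
  · intro τ; simp
  · intro τ; simp
  · exact differentiableOn_const z
  · exact differentiableOn_const z

theorem clo3_smul {k : ℤ} {g g' : ℍ → ℂ} (z : ℂ) (hg : Pt k g g') :
    Pt k (fun τ => z * g τ) (fun τ => z * g' τ) := by
  have h := clo3_mul (clo3_const z) hg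
  rwa [zero_add] at h

theorem clo3_pow {k : ℤ} {g g' : ℍ → ℂ} (hg : Pt k g g') (n : ℕ) :
    Pt (n * k) (fun τ => g τ ^ n) (fun τ => g' τ ^ n) := by
  induction n with
  | zero =>
    have h := clo3_const 1
    simpa using h
  | succ n ih =>
    have h := clo3_mul ih hg
    have e1 : (fun τ => g τ ^ (n + 1)) = fun τ => g τ ^ n * g τ := by
      funext τ; rw [pow_succ]
    have e2 : (fun τ => g' τ ^ (n + 1)) = fun τ => g' τ ^ n * g' τ := by
      funext τ; rw [pow_succ]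
    have e3 : ((n + 1 : ℕ) : ℤ) * k = (n : ℤ) * k + k := by push_cast; ring
    rw [e1, e2, e3]
    exact h

theorem t_CLO3 : S_CLO3 := by
  refine ⟨fun k l g g' f f' hg hf => clo3_mul hg hf, ?_, fun k g g' z hg => clo3_smul z hg,
    clo3_const, fun k g g' n hg => clo3_pow hg n, ?_, ?_⟩
  · intro k g g' f f' hg hf
    refine ⟨?_, ?_, ?_, ?_, ?_, ?_⟩
    · intro γ τ h
      rw [hg.sl γ τ h, hf.sl γ τ h, ← mul_add]
    · intro γ τ h
      rw [hg.sl' γ τ h, hf.sl' γ τ h, ← mul_add]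
    · intro τ
      rw [hg.fr, hf.fr, mul_add]
    · intro τ
      rw [hg.fr', hf.fr', mul_add]
    · exact hg.holo.add hf.holo
    · exact hg.holo'.add hf.holo'
  · intro k g g' hg h0 h0'
    refine ⟨?_, ?_, ?_, ?_, ?_, ?_⟩
    · intro γ τ h
      rw [hg.sl γ τ h, mul_inv, zpow_neg]
    · intro γ τ h
      rw [hg.sl' γ τ h, mul_inv, zpow_neg]
    · intro τ
      rw [hg.fr, mul_inv, zpow_neg]
    · intro τ
      rw [hg.fr', mul_inv, zpow_neg]
    · exact hg.holo.inv fun z _ => h0 _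
    · exact hg.holo'.inv fun z _ => h0' _
  · intro k g g' hg
    exact ⟨hg.sl', hg.sl, hg.fr', hg.fr, hg.holo', hg.holo⟩

end Pool.Agent.HS37.C3
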