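import Pool.Agent.HS37.C3.Stm

set_option autoImplicit false

open Pool.Agent.HS37.SP Pool.Agent.HS37.CQ

namespace Pool.Agent.HS37.C3

noncomputable section

/-- an algebraic integer which is rational is an integer -/
theorem ext3_int (a b : ℤ) (w : ℂ) (hb : b ≠ 0) (hw : IsIntegral ℤ w) (h : (a : ℂ) = b * w) : b ∣ a := by
  have hbC : (b : ℂ) ≠ 0 := by exact_mod_cast hb
  have hbQ : (b : ℚ) ≠ 0 := by exact_mod_cast hb
  have h1 : w = algebraMap ℚ ℂ ((a : ℚ) / b) := by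
    rw [map_div₀]
    simp only [map_intCast]
    rw [h]
    field_simp
  rw [h1, isIntegral_algebraMap_iff (algebraMap ℚ ℂ).injective] at hw
  obtain ⟨y, hy⟩ := IsIntegrallyClosed.isIntegral_iff.1 hw
  refine ⟨y, ?_⟩
  have h2 : (y : ℚ) = (a : ℚ) / b := by simpa using hy
  have h3 : (a : ℚ) = b * y := by
    rw [h2]
    field_simp
  exact_mod_cast h3

theorem t_EXT3 : S_EXT3 := by
  intro p m N T K c' l w hp hw hl hT hK h1 h2 h3
  set l' := (starRingEnd ℂ) l with hl'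
  have hl'i : IsIntegral ℤ l' := map_isIntegral_int (starRingEnd ℂ) hl
  have hTi : IsIntegral ℤ (T : ℂ) := isIntegral_algebraMap (x := T)
  have hKi : IsIntegral ℤ (K : ℂ) := isIntegral_algebraMap (x := K)
  have hci : IsIntegral ℤ (c' : ℂ) := isIntegral_algebraMap (x := c')
  have hNi : IsIntegral ℤ (N : ℂ) := isIntegral_algebraMap (x := N)
  have hpow : ∀ n : ℕ, ∃ r : ℂ, IsIntegral ℤ r ∧ (T : ℂ) ^ n = l ^ (2 * n) + l' ^ 2 * r := by
    intro n
    induction n with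
    | zero => exact ⟨0, isIntegral_zero, by simp⟩
    | succ n ih =>
      obtain ⟨r, hr, hr'⟩ := ih
      refine ⟨l ^ (2 * n) + r * T, (hl.pow _).add (hr.mul hTi), ?_⟩
      rw [pow_succ, hr', ← h1]
      ring
  obtain ⟨r, hr, hr'⟩ := hpow m
  -- the integer z
  have hz : l ^ m * ((K * (N - c' * T) : ℤ) : ℂ) = l' ^ 2 * (w - K * c' * l ^ m) := by
    push_cast
    linear_combination h3 + K * c' * l ^ m * h1
  have hw' : ∃ w' : ℂ, IsIntegral ℤ w' ∧ (T : ℂ) ^ m * ((K * (N - c' * T) : ℤ) : ℂ) = l' ^ 2 * w' := by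
    refine ⟨l ^ m * (w - K * c' * l ^ m) + r * (K * (N - c' * T)), ?_, ?_⟩
    · exact ((hl.pow _).mul (hw.sub ((hKi.mul hci).mul (hl.pow _)))).add
        (hr.mul (hKi.mul (hNi.sub (hci.mul hTi))))
    · rw [hr']
      push_cast at hz ⊢
      linear_combination l ^ m * hz
  obtain ⟨w', hw'i, hw'e⟩ := hw'
  have he1 : l ^ 2 * ((T : ℂ) ^ m * ((K * (N - c' * T) : ℤ) : ℂ)) = (p : ℂ) ^ 2 * w' := by
    rw [hw'e, ← h2]
    ring
  have he2 : l' ^ 2 * ((T : ℂ) ^ m * ((K * (N - c' * T) : ℤ) : ℂ)) = (p : ℂ) ^ 2 * (starRingEnd ℂ) w' := by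
    have := congrArg (starRingEnd ℂ) he1
    simpa only [map_mul, map_pow, map_intCast, map_natCast] using this
  have he3 : ((T ^ (m + 1) * (K * (N - c' * T)) : ℤ) : ℂ) = (((p : ℤ) ^ 2 : ℤ) : ℂ) * (w' + (starRingEnd ℂ) w') := by
    push_cast at he1 he2 ⊢
    rw [pow_succ, ← h1]
    rw [← h1] at he1 he2
    linear_combination he1 + he2
  have hp2 : ((p : ℤ) ^ 2) ≠ 0 := pow_ne_zero _ (by exact_mod_cast hp.ne_zero)
  have hdvd := ext3_int _ _ _ hp2 (hw'i.add (map_isIntegral_int (starRingEnd ℂ) hw'i)) he3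
  have hpp : Prime (p : ℤ) := Nat.prime_iff_prime_int.1 hp
  have hc1 : IsCoprime ((p : ℤ) ^ 2) (T ^ (m + 1)) :=
    IsCoprime.pow ((Prime.coprime_iff_not_dvd hpp).2 hT)
  have hc2 : IsCoprime ((p : ℤ) ^ 2) K :=
    IsCoprime.pow_left ((Prime.coprime_iff_not_dvd hpp).2 hK)
  exact hc2.dvd_of_dvd_mul_left (hc1.dvd_of_dvd_mul_left hdvd)

end

end Pool.Agent.HS37.C3
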