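import Pool.Agent.HS37.C3.Stm

/-!
# Project C3, piece EVE3: the value of `y` at `(1 + √-11) / 6`
-/

set_option autoImplicit false

open UpperHalfPlane ModularForm ModularFormClass MatrixGroups EisensteinSeries Complex
open Pool.Agent.HS37.SP Pool.Agent.HS37.CQ

namespace Pool.Agent.HS37.C3

namespace EVE3

/-- `(1, -1; 1, 0)` -/
def gA : SL(2, ℤ) := ⟨!![1, -1; 1, 0], by simp [Matrix.det_fin_two_of]⟩

theorem smul_eq (γ : SL(2, ℤ)) (τ : ℍ) (z : ℂ)
    (h : ((γ 0 0 : ℂ) * τ + (γ 0 1 : ℂ)) / ((γ 1 0 : ℂ) * τ + (γ 1 1 : ℂ)) = z) :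
    γ • τ = ofComplex z := by
  have h1 : ((γ • τ : ℍ) : ℂ) = z := by
    rw [← h, UpperHalfPlane.specialLinearGroup_apply]
    simp
  rw [← h1, ofComplex_apply]

/-- the algebra -/
theorem alg {e P s F G D Et Ez Dt Dz u v : ℂ} (h1 : P ^ 2 = s + 27 * e)
    (h2 : Et = P ^ 2 + 216 * e) (h3 : Ez = P ^ 2 - 24 * e) (h4 : e ^ 2 = P * F)
    (h5 : D ^ 2 = F * G) (h6 : e * s = P * D) (h7 : Dt = D * G) (h8 : Dz = D * F)
    (hD : D ≠ 0) (hF : F ≠ 0) (hu : Ez = u) (hv : Dz = v) (hu0 : u ≠ 0)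
    (hj : Et ^ 3 * Dz = Ez ^ 3 * Dt) (n1 : u ^ 3 ≠ 54000 * v) (n2 : u ^ 3 ≠ 8000 * v) :
    P ^ 3 = 64 * D := by
  have he : e ≠ 0 := by
    rintro rfl
    have hP : P = 0 := by
      have : P * F = 0 := by rw [← h4]; ring
      exact (mul_eq_zero.1 this).resolve_right hF
    apply hu0
    rw [← hu, h3, hP]
    ring
  have hP : P ≠ 0 := by
    rintro rfl
    apply he
    have : e ^ 2 = 0 := by rw [h4]; ring
    exact pow_eq_zero_iff (two_ne_zero) |>.1 this
  obtain ⟨h, hh⟩ : ∃ h : ℂ, h = D / F := ⟨_, rfl⟩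
  have hDF : D = h * F := by
    rw [hh, div_mul_cancel₀ D hF]
  have hh0 : h ≠ 0 := by
    rintro rfl
    apply hD
    rw [hDF, zero_mul]
  have hs : s = h * e := by
    have : e * s = e * (h * e) := by
      rw [h6, hDF]
      linear_combination (-h) * h4
    exact mul_left_cancel₀ he this
  have hG : G = h ^ 2 * F := by
    have : F * G = F * (h ^ 2 * F) := by
      rw [← h5, hDF]
      ring
    exact mul_left_cancel₀ hF this
  have hP2 : P ^ 2 = (h + 27) * e := by
    rw [h1, hs]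
    ring
  have hEt : Et = (h + 243) * e := by
    rw [h2, hP2]
    ring
  have hEz : Ez = (h + 3) * e := by
    rw [h3, hP2]
    ring
  have hDt : Dt = h ^ 3 * F ^ 2 := by
    rw [h7, hG, hDF]
    ring
  have hDz : Dz = h * F ^ 2 := by
    rw [h8, hDF]
    ring
  have key : (h + 243) ^ 3 = h ^ 2 * (h + 3) ^ 3 := by
    have h9 : (e ^ 3 * h * F ^ 2) * (h + 243) ^ 3 = (e ^ 3 * h * F ^ 2) * (h ^ 2 * (h + 3) ^ 3) := by
      have := hj
      rw [hEt, hEz, hDt, hDz] at this
      linear_combination this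
    exact mul_left_cancel₀ (mul_ne_zero (mul_ne_zero (pow_ne_zero 3 he) hh0) (pow_ne_zero 2 hF)) h9
  have fac : (h - 27) * (h ^ 2 + 46 * h + 729) * (h ^ 2 - 10 * h + 729) = 0 := by
    linear_combination -key
  have he3 : e ^ 3 = (h + 27) * F ^ 2 := by
    have h9 : e * e ^ 3 = e * ((h + 27) * F ^ 2) := by
      have h10 : e * e ^ 3 = P ^ 2 * F ^ 2 := by
        have : e * e ^ 3 = (e ^ 2) ^ 2 := by ring
        rw [this, h4]
        ring
      rw [h10, hP2]
      ring
    exact mul_left_cancel₀ he h9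
  have jz : u ^ 3 * h = (h + 27) * (h + 3) ^ 3 * v := by
    rw [← hu, ← hv, hEz, hDz, mul_pow, he3]
    ring
  rcases mul_eq_zero.1 fac with h9 | h9
  · rcases mul_eq_zero.1 h9 with h10 | h10
    · exfalso
      apply n1
      have h11 : h = 27 := by linear_combination h10
      rw [h11] at jz
      have h12 : (27 : ℂ) * u ^ 3 = 27 * (54000 * v) := by linear_combination jz
      exact mul_left_cancel₀ (by norm_num) h12
    · exfalso
      apply n2
      have h12 : h * u ^ 3 = h * (8000 * v) := by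
        have h13 : (h + 27) * (h + 3) ^ 3 = 8000 * h := by
          linear_combination (h ^ 2 - 10 * h + 1) * h10
        rw [h13] at jz
        linear_combination jz
      exact mul_left_cancel₀ hh0 h12
  · have h10 : (h + 27) ^ 2 = 64 * h := by linear_combination h9
    have h11 : P * P ^ 3 = P * (64 * D) := by
      have h12 : P * P ^ 3 = (h + 27) ^ 2 * (P * F) := by
        have : P * P ^ 3 = (P ^ 2) ^ 2 := by ring
        rw [this, hP2, ← h4]
        ring
      rw [h12, h10, hDF]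
      ring
    exact mul_left_cancel₀ hP h11

end EVE3

open EVE3 in
/-- EVE3 -/
theorem t_EVE3 (hR : S_REL3) (hN : S_NEG3) (hE : S_EIS) : S_EVE3 := by
  obtain ⟨r1, r2, r3, -, -, r4, r5, r6, -, -, r7, r8, r9, r10, -⟩ := hR
  obtain ⟨u, v, hu, hv, hE4, hDel⟩ := hN
  have h11 : (0 : ℝ) < Real.sqrt 11 := Real.sqrt_pos.2 (by norm_num)
  have hsq : (((Real.sqrt 11 : ℝ) : ℂ)) ^ 2 = 11 := by
    rw [← Complex.ofReal_pow, Real.sq_sqrt (by norm_num)]
    norm_num
  have hI : Complex.I ^ 2 = -1 := Complex.I_sq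
  unfold S_EVE3
  obtain ⟨w, hw⟩ : ∃ w : ℂ, w = (1 + Complex.I * ((Real.sqrt 11 : ℝ) : ℂ)) / 6 := ⟨_, rfl⟩
  have him : 0 < w.im := by
    rw [hw]
    have : ((1 + Complex.I * ((Real.sqrt 11 : ℝ) : ℂ)) / 6).im = Real.sqrt 11 / 6 := by
      simp
    rw [this]
    positivity
  have hw0 : w ≠ 0 := by
    intro h0
    rw [h0] at him
    simp at him
  have hw2 : w * w = (w - 1) / 3 := by
    rw [hw]
    linear_combination (-1 / 36 : ℂ) * hsq + ((((Real.sqrt 11 : ℝ) : ℂ)) ^ 2 / 36) * hI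
  rw [← hw]
  have hz : (1 + Complex.I * ((Real.sqrt 11 : ℝ) : ℂ)) / 2 = 3 * w := by
    rw [hw]
    ring
  have hcoe : ((ofComplex w : ℍ) : ℂ) = w := by
    rw [ofComplex_apply_of_im_pos him]
  have htr : trp (ofComplex w) = ofComplex (3 * w) := by
    unfold trp
    rw [hcoe]
  have hg : gA • (ofComplex w : ℍ) = ofComplex (3 * w) := by
    apply smul_eq
    rw [hcoe]
    simp only [gA]
    simp
    rw [div_eq_iff hw0]
    linear_combination (-3 : ℂ) * hw2
  rw [hz] at hE4 hDel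
  have s4 := hE.1.1.slash gA (ofComplex w)
  have s12 := hE.2.2.1.1.slash gA (ofComplex w)
  rw [hg, hcoe] at s4 s12
  have e4 : E₄ (ofComplex (3 * w)) = w ^ 4 * E₄ (ofComplex w) := by
    have := s4
    simp [gA] at this
    exact_mod_cast this
  have e12 : discriminant (ofComplex (3 * w)) = w ^ 12 * discriminant (ofComplex w) := by
    have := s12
    simp [gA] at this
    exact_mod_cast this
  have hvr : v < 0 := hv
  refine alg (r1 _) (r2 _) (r3 _) (r4 _) (r5 _) (r6 _) (r7 _) (r8 _) (r9 _) (r10 _)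
    (u := (u : ℂ)) (v := (v : ℂ)) (by rw [htr, hE4]) (by rw [htr, hDel])
    (Complex.ofReal_ne_zero.2 hu.ne') ?_ ?_ ?_
  · rw [htr, e4, e12]
    ring
  · intro h
    have h1 : u ^ 3 = 54000 * v := by exact_mod_cast h
    have h2 : 0 < u ^ 3 := pow_pos hu 3
    linarith
  · intro h
    have h1 : u ^ 3 = 8000 * v := by exact_mod_cast h
    have h2 : 0 < u ^ 3 := pow_pos hu 3
    linarith

end Pool.Agent.HS37.C3
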