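import Pool.Agent.HS37.C3.Stm
import Pool.Agent.HS37.SP.Weak

/-!
# Project C3: piece HK3 (helper39), port of `CQ/Hk2`
-/

set_option autoImplicit false

open Matrix MatrixGroups UpperHalfPlane
open Pool.Agent.HS37.SP Pool.Agent.HS37.CQ

namespace Pool.Agent.HS37.C3

namespace HK39

lemma chr_congr {a b : ℤ} (h : a % 3 = b % 3) : chr a = chr b := by
  unfold chr
  rw [h]

lemma chr_pm {a : ℤ} (h : ¬ (3 : ℤ) ∣ a) : chr a = 1 ∨ chr a = -1 := by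
  unfold chr
  have h0 : a % 3 ≠ 0 := fun h' => h (Int.dvd_of_emod_eq_zero h')
  rw [if_neg h0]
  by_cases h1 : a % 3 = 1
  · left
    rw [if_pos h1]
  · right
    rw [if_neg h1]

lemma chr_mul (a b : ℤ) : chr (a * b) = chr a * chr b := by
  have hr : (a * b) % 3 = ((a % 3) * (b % 3)) % 3 := Int.mul_emod a b 3
  have ha : a % 3 = 0 ∨ a % 3 = 1 ∨ a % 3 = 2 := by omega
  have hb : b % 3 = 0 ∨ b % 3 = 1 ∨ b % 3 = 2 := by omega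
  unfold chr
  rcases ha with h | h | h <;> rcases hb with h' | h' | h' <;> rw [hr, h, h'] <;> norm_num

lemma chr_ne {a : ℤ} (h : ¬ (3 : ℤ) ∣ a) : chr a ≠ 0 := by
  rcases chr_pm h with h | h <;> rw [h] <;> norm_num

lemma chr_zpow_sq {a : ℤ} (h : ¬ (3 : ℤ) ∣ a) (k : ℤ) : chr a ^ k * chr a ^ k = 1 := by
  rw [← mul_zpow]
  rcases chr_pm h with h | h <;> rw [h] <;> norm_num

lemma chr_zpow_neg {a : ℤ} (h : ¬ (3 : ℤ) ∣ a) (k : ℤ) : chr a ^ (-k) = chr a ^ k := by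
  rw [_root_.zpow_neg, inv_eq_iff_eq_inv]
  exact eq_inv_of_mul_eq_one_left (chr_zpow_sq h k)

lemma not_dvd_det {A : SL(2, ℤ)} (h : (3 : ℤ) ∣ A 1 0) : ¬ (3 : ℤ) ∣ A 1 1 := by
  intro h'
  have hd := A.det_coe
  rw [Matrix.det_fin_two] at hd
  have : (3 : ℤ) ∣ 1 := by
    rw [← hd]
    exact dvd_sub (h'.mul_left _) (h.mul_left _)
  omega

lemma val3_sl (k : ℤ) (g : ℍ → ℂ) (A : Matrix (Fin 2) (Fin 2) ℤ) (γ : SL(2, ℤ)) (τ : ℍ)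
    (hA : (3 : ℤ) ∣ A 1 0) (hγ3 : (3 : ℤ) ∣ γ 1 0) :
    val3 k g A (γ • τ) = (chr (γ 1 1) * ((γ 1 0 : ℂ) * τ + (γ 1 1 : ℂ))) ^ k *
      val3 k g (A * (γ : Matrix (Fin 2) (Fin 2) ℤ)) τ := by
  have hγ := sl_den_ne γ τ
  have e1 : (((A * (γ : Matrix (Fin 2) (Fin 2) ℤ)) 1 0 : ℤ) : ℂ) * τ +
      (((A * (γ : Matrix (Fin 2) (Fin 2) ℤ)) 1 1 : ℤ) : ℂ) =
      ((γ 1 0 : ℂ) * τ + (γ 1 1 : ℂ)) * ((A 1 0 : ℂ) * ((γ • τ : ℍ) : ℂ) + (A 1 1 : ℂ)) := by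
    rw [Matrix.mul_apply, Matrix.mul_apply, Fin.sum_univ_two, Fin.sum_univ_two, sl_coe]
    push_cast
    field_simp
    ring
  have e2 : (((A * (γ : Matrix (Fin 2) (Fin 2) ℤ)) 0 0 : ℤ) : ℂ) * τ +
      (((A * (γ : Matrix (Fin 2) (Fin 2) ℤ)) 0 1 : ℤ) : ℂ) =
      ((γ 1 0 : ℂ) * τ + (γ 1 1 : ℂ)) * ((A 0 0 : ℂ) * ((γ • τ : ℍ) : ℂ) + (A 0 1 : ℂ)) := by
    rw [Matrix.mul_apply, Matrix.mul_apply, Fin.sum_univ_two, Fin.sum_univ_two, sl_coe]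
    push_cast
    field_simp
    ring
  have e3 : chr ((A * (γ : Matrix (Fin 2) (Fin 2) ℤ)) 1 1) = chr (A 1 1) * chr (γ 1 1) := by
    rw [← chr_mul]
    apply chr_congr
    rw [Matrix.mul_apply, Fin.sum_univ_two]
    obtain ⟨u, hu⟩ := hA
    rw [hu]
    have : 3 * u * γ 0 1 + A 1 1 * γ 1 1 = A 1 1 * γ 1 1 + 3 * (u * γ 0 1) := by ring
    show (3 * u * γ 0 1 + A 1 1 * γ 1 1) % 3 = _
    rw [this]
    exact Int.add_mul_emod_self_left _ _ _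
  have hc : chr (γ 1 1) ≠ 0 := chr_ne (not_dvd_det hγ3)
  have e4 : (chr (γ 1 1) ^ k) * (chr (γ 1 1)) ^ (-k) = 1 := by
    rw [← zpow_add₀ hc, add_neg_cancel, zpow_zero]
  have e5 : ((γ 1 0 : ℂ) * τ + (γ 1 1 : ℂ)) ^ k * ((γ 1 0 : ℂ) * τ + (γ 1 1 : ℂ)) ^ (-k) = 1 := by
    rw [← zpow_add₀ hγ, add_neg_cancel, zpow_zero]
  have e6 : (chr (γ 1 1) ^ k * (chr (γ 1 1)) ^ (-k)) *
      (((γ 1 0 : ℂ) * τ + (γ 1 1 : ℂ)) ^ k * ((γ 1 0 : ℂ) * τ + (γ 1 1 : ℂ)) ^ (-k)) = 1 := by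
    rw [e4, e5, one_mul]
  unfold val3
  rw [e1, e2, e3, mul_div_mul_left _ _ hγ]
  simp only [mul_zpow]
  linear_combination (-(chr (A 1 1) ^ (-k) * ((A 1 0 : ℂ) * ((γ • τ : ℍ) : ℂ) + (A 1 1 : ℂ)) ^ (-k) *
    g (ofComplex (((A 0 0 : ℂ) * ((γ • τ : ℍ) : ℂ) + (A 0 1 : ℂ)) /
      ((A 1 0 : ℂ) * ((γ • τ : ℍ) : ℂ) + (A 1 1 : ℂ)))))) * e6

lemma ad_eq {N : ℕ} (hN : 0 < N) {t : ℕ × ℕ × ℕ} (ht : t ∈ reps N) : t.1 * t.2.2 = N :=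
  ((mem_reps hN).1 ht).1

lemma not3_fst {N : ℕ} (hN : 0 < N) (ho : ¬ 3 ∣ N) {t : ℕ × ℕ × ℕ} (ht : t ∈ reps N) :
    ¬ (3 : ℤ) ∣ (t.1 : ℤ) := by
  intro h
  apply ho
  rw [← ad_eq hN ht]
  have : 3 ∣ t.1 := by exact_mod_cast h
  exact this.mul_right _

lemma not3_snd {N : ℕ} (hN : 0 < N) (ho : ¬ 3 ∣ N) {t : ℕ × ℕ × ℕ} (ht : t ∈ reps N) :
    ¬ (3 : ℤ) ∣ (t.2.2 : ℤ) := by
  intro h
  apply ho
  rw [← ad_eq hN ht]
  have : 3 ∣ t.2.2 := by exact_mod_cast h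
  exact this.mul_left _

lemma not3_N {N : ℕ} (ho : ¬ 3 ∣ N) : ¬ (3 : ℤ) ∣ (N : ℤ) := by
  intro h
  apply ho
  exact_mod_cast h

lemma three_of {N : ℕ} (hN : 0 < N) (ho : ¬ 3 ∣ N) {t t' : ℕ × ℕ × ℕ} (ht' : t' ∈ reps N)
    {γ γ' : SL(2, ℤ)} (hγ : (3 : ℤ) ∣ γ 1 0)
    (h : mat t * (γ : Matrix (Fin 2) (Fin 2) ℤ) = (γ' : Matrix (Fin 2) (Fin 2) ℤ) * mat t') :
    (3 : ℤ) ∣ γ' 1 0 := by
  have h1 := congrFun (congrFun h 1) 0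
  rw [Matrix.mul_apply, Matrix.mul_apply, Fin.sum_univ_two, Fin.sum_univ_two] at h1
  simp [mat] at h1
  have h2 := not3_fst hN ho ht'
  have h3 : (3 : ℤ) ∣ γ' 1 0 * (t'.1 : ℤ) := by
    rw [← h1]
    exact hγ.mul_left _
  exact (Int.prime_three.dvd_or_dvd h3).resolve_right h2

lemma hsum_sl (hV : S_VR3) {k : ℤ} {g g' : ℍ → ℂ} {N : ℕ} (hN : 0 < N) (ho : ¬ 3 ∣ N)
    (hg : Pt k g g') (γ : SL(2, ℤ)) (τ : ℍ) (hγ : (3 : ℤ) ∣ γ 1 0) :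
    hsum3 k N g (γ • τ) =
      (chr (γ 1 1) * ((γ 1 0 : ℂ) * τ + (γ 1 1 : ℂ))) ^ k * hsum3 k N g τ := by
  obtain ⟨ι, h1, h2, h3⟩ := exists_perm hN γ
  unfold hsum3
  rw [Finset.mul_sum]
  have hinj : Set.InjOn ι (reps N : Set (ℕ × ℕ × ℕ)) := fun t ht t' ht' he =>
    h2 t (by exact_mod_cast ht) t' (by exact_mod_cast ht') he
  refine Finset.sum_nbij ι h1 hinj ?_ fun t ht => ?_
  · exact Finset.surjOn_of_injOn_of_card_le ι (fun t ht => by exact_mod_cast h1 t ht) hinj le_rfl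
  · obtain ⟨γ', h4⟩ := h3 t ht
    have h5 := three_of hN ho (h1 t ht) hγ h4
    have hdet : (mat (ι t)).det = N := det_mat_of_mem hN (h1 t ht)
    have hp : 0 < (mat (ι t)).det := by
      rw [hdet]
      exact_mod_cast hN
    have hn : ¬ (3 : ℤ) ∣ (mat (ι t)).det := by
      rw [hdet]
      exact not3_N ho
    have h10 : (3 : ℤ) ∣ (mat (ι t)) 1 0 := by simp [mat]
    have h10' : (3 : ℤ) ∣ (mat t) 1 0 := by simp [mat]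
    rw [val3_sl k g (mat t) γ τ h10' hγ, h4, hV.1 k g g' hg _ _ _ hp hn h10 h5]

/-- The matrix for the Fricke involution. -/
def Mf (t : ℕ × ℕ × ℕ) : Matrix (Fin 2) (Fin 2) ℤ :=
  !![(t.2.2 : ℤ), 0; -3 * (t.2.1 : ℤ), (t.1 : ℤ)]

lemma det_Mf {N : ℕ} (hN : 0 < N) {t : ℕ × ℕ × ℕ} (ht : t ∈ reps N) : (Mf t).det = N := by
  have h := ((mem_reps hN).1 ht).1
  rw [Mf, Matrix.det_fin_two_of, ← h]
  push_cast
  ring

lemma fri_coe (τ : ℍ) : ((fri3 τ : ℍ) : ℂ) = -1 / (3 * (τ : ℂ)) := by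
  unfold fri3
  have h : 0 < (-1 / (3 * (τ : ℂ))).im := by
    have h1 : -1 / (3 * (τ : ℂ)) = ((1 / 3 : ℝ) : ℂ) * (-(τ : ℂ)⁻¹) := by
      have := τ.ne_zero
      push_cast
      field_simp
    rw [h1, Complex.im_ofReal_mul, Complex.neg_im, Complex.inv_im]
    have h2 : 0 < Complex.normSq (τ : ℂ) := Complex.normSq_pos.2 τ.ne_zero
    have h3 := τ.im_pos
    have : 0 < (τ : ℂ).im / Complex.normSq (τ : ℂ) := by positivity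
    rw [neg_div]
    linarith
  rw [ofComplex_apply_of_im_pos h]

lemma val3_mat (k : ℤ) (g : ℍ → ℂ) (t : ℕ × ℕ × ℕ) (τ : ℍ) :
    val3 k g (mat t) τ = (chr (t.2.2 : ℤ) * (t.2.2 : ℂ)) ^ (-k) *
      g (ofComplex (((t.1 : ℂ) * τ + t.2.1) / t.2.2)) := by
  unfold val3
  simp [mat]

lemma val_fri {k : ℤ} {g g' : ℍ → ℂ} (hg : Pt k g g') {N : ℕ} (hN : 0 < N) (ho : ¬ 3 ∣ N)
    {t : ℕ × ℕ × ℕ} (ht : t ∈ reps N) (τ : ℍ) :
    val3 k g (mat t) (fri3 τ) = wf τ ^ k * (chr (N : ℤ) ^ k * val3 k g' (Mf t) τ) := by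
  obtain ⟨ha, hd⟩ := reps_pos hN ht
  have hdet : 0 < (Mf t).det := by
    rw [det_Mf hN ht]
    exact_mod_cast hN
  have hv := vden_ne hdet τ
  obtain ⟨z, hz⟩ : ∃ z : ℍ, (z : ℂ) =
      (((Mf t) 0 0 : ℂ) * τ + ((Mf t) 0 1 : ℂ)) / (((Mf t) 1 0 : ℂ) * τ + ((Mf t) 1 1 : ℂ)) :=
    ⟨⟨_, vim_pos hdet τ⟩, rfl⟩
  have e1 : (((Mf t) 1 0 : ℤ) : ℂ) * τ + (((Mf t) 1 1 : ℤ) : ℂ) = t.1 - 3 * t.2.1 * τ := by
    simp [Mf]
    ring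
  have e2 : (((Mf t) 0 0 : ℤ) : ℂ) * τ + (((Mf t) 0 1 : ℤ) : ℂ) = t.2.2 * τ := by
    simp [Mf]
  have e3 : (Mf t) 1 1 = (t.1 : ℤ) := by simp [Mf]
  rw [val3_mat]
  unfold val3
  rw [← hz, ofComplex_apply]
  rw [e1, e2] at hz
  rw [e1] at hv ⊢
  rw [e3]
  have hτ : (τ : ℂ) ≠ 0 := τ.ne_zero
  have hd' : (t.2.2 : ℂ) ≠ 0 := by exact_mod_cast hd.ne'
  have h1 : ((t.1 : ℂ) * ((fri3 τ : ℍ) : ℂ) + t.2.1) / t.2.2 = ((fri3 z : ℍ) : ℂ) := by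
    rw [fri_coe, fri_coe, hz]
    field_simp
    ring
  rw [h1, ofComplex_apply, hg.fr]
  have h2 : wf z = wf τ * (t.2.2 : ℂ) * (t.1 - 3 * t.2.1 * τ : ℂ)⁻¹ := by
    unfold wf
    rw [hz]
    field_simp
  have hN' : chr (N : ℤ) = chr (t.1 : ℤ) * chr (t.2.2 : ℤ) := by
    rw [← chr_mul, ← ad_eq hN ht]
    push_cast
    rfl
  have h3 : (t.2.2 : ℂ) ^ (-k) * (t.2.2 : ℂ) ^ k = 1 := by
    rw [← zpow_add₀ hd', neg_add_cancel, zpow_zero]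
  have h4 : ((t.1 - 3 * t.2.1 * τ : ℂ)⁻¹) ^ k = (t.1 - 3 * t.2.1 * τ : ℂ) ^ (-k) := by
    rw [_root_.inv_zpow, _root_.zpow_neg]
  have h5 : chr (t.1 : ℤ) ^ k * chr (t.1 : ℤ) ^ k = 1 := chr_zpow_sq (not3_fst hN ho ht) k
  rw [h2, hN']
  simp only [mul_zpow]
  rw [h4, chr_zpow_neg (not3_fst hN ho ht), chr_zpow_neg (not3_snd hN ho ht)]
  linear_combination
    (chr (t.2.2 : ℤ) ^ k * wf τ ^ k * (t.1 - 3 * t.2.1 * τ : ℂ) ^ (-k) * g' z) * h3 -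
    (chr (t.2.2 : ℤ) ^ k * wf τ ^ k * (t.1 - 3 * t.2.1 * τ : ℂ) ^ (-k) * g' z) * h5

lemma Mf_inj {N : ℕ} (hN : 0 < N) {t s : ℕ × ℕ × ℕ} (ht : t ∈ reps N) (hs : s ∈ reps N)
    {γ : SL(2, ℤ)} (hγ : (3 : ℤ) ∣ γ 1 0)
    (h : Mf t = (γ : Matrix (Fin 2) (Fin 2) ℤ) * Mf s) : t = s := by
  obtain ⟨ta, td⟩ := reps_pos hN ht
  obtain ⟨sa, sd⟩ := reps_pos hN hs
  have hb := ((mem_reps hN).1 ht).2
  have hb' := ((mem_reps hN).1 hs).2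
  have h00 := congrFun (congrFun h 0) 0
  have h01 := congrFun (congrFun h 0) 1
  have h10 := congrFun (congrFun h 1) 0
  have h11 := congrFun (congrFun h 1) 1
  rw [Matrix.mul_apply, Fin.sum_univ_two] at h00 h01 h10 h11
  simp [Mf] at h00 h01 h10 h11
  have hq : γ 0 1 = 0 := by
    rcases h01 with h | h
    · exact h
    · omega
  have hdet := γ.det_coe
  rw [Matrix.det_fin_two, hq, zero_mul, sub_zero] at hdet
  have hs1 : γ 1 1 = 1 := by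
    rcases Int.eq_one_or_neg_one_of_mul_eq_one' hdet with ⟨_, h⟩ | ⟨_, h⟩
    · exact h
    · rw [h] at h11
      exfalso
      have : (0 : ℤ) < t.1 := by exact_mod_cast ta
      have : (0 : ℤ) < s.1 := by exact_mod_cast sa
      omega
  have hp1 : γ 0 0 = 1 := by
    rw [hs1, mul_one] at hdet
    exact hdet
  rw [hq, hp1] at h00
  rw [hs1] at h10 h11
  have e1 : t.1 = s.1 := by
    have : (t.1 : ℤ) = s.1 := by linarith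
    exact_mod_cast this
  have e3 : t.2.2 = s.2.2 := by
    have : (t.2.2 : ℤ) = s.2.2 := by linarith
    exact_mod_cast this
  obtain ⟨r, hr⟩ := hγ
  rw [hr] at h10
  have h12 : (s.2.1 : ℤ) - t.2.1 = r * s.2.2 := by linarith
  have hr0 : r = 0 := by
    have b1 : (t.2.1 : ℤ) < s.2.2 := by rw [← e3]; exact_mod_cast hb
    have b2 : (s.2.1 : ℤ) < s.2.2 := by exact_mod_cast hb'
    have b3 : (0 : ℤ) ≤ t.2.1 := by positivity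
    have b4 : (0 : ℤ) ≤ s.2.1 := by positivity
    by_contra hr0
    rcases lt_or_gt_of_ne hr0 with h | h
    · nlinarith
    · nlinarith
  rw [hr0, zero_mul] at h12
  have e2 : t.2.1 = s.2.1 := by
    have : (t.2.1 : ℤ) = s.2.1 := by linarith
    exact_mod_cast this
  exact Prod.ext e1 (Prod.ext e2 e3)

lemma hsum_fri (hV : S_VR3) {k : ℤ} {g g' : ℍ → ℂ} {N : ℕ} (hN : 0 < N) (ho : ¬ 3 ∣ N)
    (hg : Pt k g g') (hg' : Pt k g' g) (τ : ℍ) :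
    hsum3 k N g (fri3 τ) = wf τ ^ k * (chr (N : ℤ) ^ k * hsum3 k N g' τ) := by
  have hex : ∀ t : ℕ × ℕ × ℕ, ∃ t' : ℕ × ℕ × ℕ, t ∈ reps N → t' ∈ reps N ∧
      ∃ γ : SL(2, ℤ), (3 : ℤ) ∣ γ 1 0 ∧ Mf t = (γ : Matrix (Fin 2) (Fin 2) ℤ) * mat t' := by
    intro t
    by_cases ht : t ∈ reps N
    · obtain ⟨t', h1, γ, h2, h3⟩ := hV.2.1 N hN ho (Mf t) (det_Mf hN ht) (by
        simp [Mf])
      exact ⟨t', fun _ => ⟨h1, γ, h2, h3⟩⟩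
    · exact ⟨t, fun h => absurd h ht⟩
  choose ι hι using hex
  unfold hsum3
  rw [Finset.mul_sum, Finset.mul_sum]
  have hinj : Set.InjOn ι (reps N : Set (ℕ × ℕ × ℕ)) := by
    intro t ht s hs he
    have ht' : t ∈ reps N := by exact_mod_cast ht
    have hs' : s ∈ reps N := by exact_mod_cast hs
    obtain ⟨-, γ₁, g1, h1⟩ := hι t ht'
    obtain ⟨-, γ₂, g2, h2⟩ := hι s hs'
    rw [he] at h1
    have e : ((γ₂⁻¹ : SL(2, ℤ)) : Matrix (Fin 2) (Fin 2) ℤ) * (γ₂ : Matrix (Fin 2) (Fin 2) ℤ) = 1 :=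
      (Matrix.SpecialLinearGroup.coe_mul γ₂⁻¹ γ₂).symm.trans (by
        rw [inv_mul_cancel]
        exact Matrix.SpecialLinearGroup.coe_one)
    have h3 : mat (ι s) = ((γ₂⁻¹ : SL(2, ℤ)) : Matrix (Fin 2) (Fin 2) ℤ) * Mf s := by
      rw [h2, ← Matrix.mul_assoc, e, Matrix.one_mul]
    have h5 : ((γ₁ * γ₂⁻¹ : SL(2, ℤ)) : Matrix (Fin 2) (Fin 2) ℤ) =
        (γ₁ : Matrix (Fin 2) (Fin 2) ℤ) * ((γ₂⁻¹ : SL(2, ℤ)) : Matrix (Fin 2) (Fin 2) ℤ) :=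
      Matrix.SpecialLinearGroup.coe_mul γ₁ γ₂⁻¹
    have h1' : Mf t = ((γ₁ * γ₂⁻¹ : SL(2, ℤ)) : Matrix (Fin 2) (Fin 2) ℤ) * Mf s := by
      rw [h5, Matrix.mul_assoc, ← h3]
      exact h1
    refine Mf_inj hN ht' hs' ?_ h1'
    have h4 : (γ₁ * γ₂⁻¹ : SL(2, ℤ)) 1 0 = γ₁ 1 0 * γ₂ 1 1 - γ₁ 1 1 * γ₂ 1 0 := by
      have h6 : ((γ₂⁻¹ : SL(2, ℤ)) : Matrix (Fin 2) (Fin 2) ℤ) =
          Matrix.adjugate (γ₂ : Matrix (Fin 2) (Fin 2) ℤ) := Matrix.SpecialLinearGroup.coe_inv γ₂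
      have h7 := congrFun (congrFun h5 1) 0
      rw [h6, Matrix.adjugate_fin_two, Matrix.mul_apply, Fin.sum_univ_two] at h7
      refine h7.trans ?_
      simp
      ring
    rw [h4]
    exact dvd_sub (g1.mul_right _) (g2.mul_left _)
  refine Finset.sum_nbij ι (fun t ht => (hι t ht).1) hinj ?_ fun t ht => ?_
  · exact Finset.surjOn_of_injOn_of_card_le ι (fun t ht => by
      exact_mod_cast (hι t (by exact_mod_cast ht)).1) hinj le_rfl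
  · obtain ⟨h1, γ, h2, h3⟩ := hι t ht
    have hdet : (mat (ι t)).det = N := det_mat_of_mem hN h1
    have hp : 0 < (mat (ι t)).det := by
      rw [hdet]
      exact_mod_cast hN
    have hn : ¬ (3 : ℤ) ∣ (mat (ι t)).det := by
      rw [hdet]
      exact not3_N ho
    have h10 : (3 : ℤ) ∣ (mat (ι t)) 1 0 := by simp [mat]
    rw [val_fri hg hN ho ht, h3, hV.1 k g' g hg' _ _ _ hp hn h10 h2]

lemma hsum_holo {k : ℤ} {g : ℍ → ℂ} (hg : DifferentiableOn ℂ (g ∘ ofComplex) {z | 0 < z.im})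
    {N : ℕ} (hN : 0 < N) :
    DifferentiableOn ℂ ((hsum3 k N g) ∘ ofComplex) {z | 0 < z.im} := by
  have key : ∀ t ∈ reps N,
      DifferentiableOn ℂ ((fun τ => val3 k g (mat t) τ) ∘ ofComplex) {z | 0 < z.im} := by
    intro t ht
    have h1 : DifferentiableOn ℂ (fun z : ℂ => (chr (t.2.2 : ℤ) * (t.2.2 : ℂ)) ^ (-k) *
        (g ∘ ofComplex) (((t.1 : ℂ) * z + t.2.1) / t.2.2)) {z | 0 < z.im} := by
      refine DifferentiableOn.const_mul ?_ _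
      have h2 : DifferentiableOn ℂ (fun z : ℂ => ((t.1 : ℂ) * z + t.2.1) / t.2.2) {z | 0 < z.im} :=
        (((differentiable_id.const_mul _).add_const _).div_const _).differentiableOn
      exact DifferentiableOn.comp (g := g ∘ ofComplex) (t := {z | 0 < z.im}) hg h2
        fun z hz => mat_im_pos hN ht hz
    refine h1.congr fun z hz => ?_
    show val3 k g (mat t) (ofComplex z) = _
    rw [val3_mat, ofComplex_apply_of_im_pos hz]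
    rfl
  have h1 : DifferentiableOn ℂ (fun z : ℂ => ∑ t ∈ reps N,
      ((fun τ => val3 k g (mat t) τ) ∘ ofComplex) z) {z | 0 < z.im} :=
    DifferentiableOn.fun_sum fun t ht => key t ht
  exact h1

lemma swap {k : ℤ} {g g' : ℍ → ℂ} (h : Pt k g g') : Pt k g' g :=
  ⟨h.sl', h.sl, h.fr', h.fr, h.holo', h.holo⟩

end HK39

open HK39 in
theorem t_HK3 (hV : S_VR3) : S_HK3 := by
  intro k g g' N hN ho hg
  have hg' := swap hg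
  refine ⟨hsum_sl hV hN ho hg, fun γ τ hγ => ?_, hsum_fri hV hN ho hg hg', fun τ => ?_,
    hsum_holo hg.holo hN, ?_⟩
  · show chr (N : ℤ) ^ k * hsum3 k N g' (γ • τ) = _
    rw [hsum_sl hV hN ho hg' γ τ hγ]
    ring
  · show chr (N : ℤ) ^ k * hsum3 k N g' (fri3 τ) = _
    rw [hsum_fri hV hN ho hg' hg τ]
    linear_combination (wf τ ^ k * hsum3 k N g τ) * chr_zpow_sq (not3_N ho) k
  · exact (hsum_holo hg.holo' hN).const_mul _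

end Pool.Agent.HS37.C3
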