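import Pool.Agent.HS37.C3.Stm
import Pool.Agent.HS37.CQ.Hyp

set_option autoImplicit false

open Pool.Agent.HS37.SP Pool.Agent.HS37.CQ

namespace Pool.Agent.HS37.C3

open HYP in
theorem t_HYP3 (hP : S_PAR3) (hU : S_UDV3) (hE : S_EXP3) (hR : S_PRE3) : S_HYP3 := by
  intro p δ hp hpd
  obtain ⟨-, -, -, -, -, -, -, -, h6, -, -, -, -, -, h10, -⟩ := hE
  obtain ⟨-, -, -, -, -, -, -, -, h4, -⟩ := hR
  rw [isInt_iff] at h6 h4
  have hct : dt ∈ intR := by
    unfold dt
    refine mul_mem h4 (inv_mem (pow_mem h6 3) ?_)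
    rw [PowerSeries.coeff_zero_eq_constantCoeff_apply] at h10
    rw [map_pow, h10, one_pow]
  obtain ⟨hU1, -⟩ := hU
  have hp2 : p ≠ 2 := by omega
  -- divisibility of the tail
  have htail : ∀ n : ℕ, ∃ v : ℕ, δ < n → n < p → vv n = p ^ 2 * v := by
    intro n
    by_cases h1 : δ < n ∧ n < p
    · obtain ⟨v, hv⟩ := hU1 p n hp hp2 h1.2 (by omega)
      exact ⟨v, fun _ _ => hv⟩
    · exact ⟨0, fun h2 h3 => absurd ⟨h2, h3⟩ h1⟩
  choose v hv using htail
  set F := ∑ n ∈ Finset.range p, PowerSeries.C (vv n : ℂ) * dt ^ n with hF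
  set S := ∑ n ∈ Finset.range (δ + 1), PowerSeries.C (vv n : ℂ) * dt ^ n with hS
  set r := ∑ n ∈ Finset.Ico (δ + 1) p, PowerSeries.C (v n : ℂ) * dt ^ n with hr
  have hFS : F = S + PowerSeries.C ((p : ℂ) ^ 2) * r := by
    rw [hF, hS, hr, ← Finset.sum_range_add_sum_Ico _ (by omega : δ + 1 ≤ p), Finset.mul_sum]
    congr 1
    refine Finset.sum_congr rfl fun n hn => ?_
    rw [Finset.mem_Ico] at hn
    rw [hv n (by omega) hn.2, ← mul_assoc, ← map_mul]
    push_cast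
    rfl
  have hrm : r ∈ intR := sum_mem fun n _ => mul_mem (nat_mem _) (pow_mem hct n)
  have hFm : F ∈ intR := sum_mem fun n _ => mul_mem (nat_mem _) (pow_mem hct n)
  obtain ⟨w, hw, hw2⟩ := div_X (sub_mem h6 hFm) (hP p)
  have hvd : PowerSeries.X ^ p ∣ vps p dP - 1 := by
    rw [PowerSeries.X_pow_dvd_iff]
    intro m hm
    rw [map_sub, vps, PowerSeries.coeff_mk, PowerSeries.coeff_one]
    by_cases h0 : m = 0
    · subst h0
      simp only [dvd_zero, if_true, Nat.zero_div]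
      rw [h10, sub_self]
    · rw [if_neg h0, if_neg, sub_zero]
      intro hd
      exact h0 (Nat.eq_zero_of_dvd_of_lt hd hm)
  obtain ⟨k, hk, hk2⟩ := div_X (sub_mem (vps_int h6) (one_mem _)) hvd
  have hV : vps p dP = 1 + PowerSeries.X ^ p * k := by rw [← hk2]; ring
  have hXm : (PowerSeries.X : PowerSeries ℂ) ∈ intR := ⟨PowerSeries.X, by simp⟩
  refine ⟨-r * (1 + PowerSeries.X ^ p * k), -w * (1 + PowerSeries.X ^ p * k) + dP * k, ?_, ?_, ?_⟩
  · rw [isInt_iff]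
    exact mul_mem (neg_mem hrm) (add_mem (one_mem _) (mul_mem (pow_mem hXm p) hk))
  · rw [isInt_iff]
    exact add_mem (mul_mem (neg_mem hw) (add_mem (one_mem _) (mul_mem (pow_mem hXm p) hk)))
      (mul_mem h6 hk)
  · have hSe : S = dP - PowerSeries.X ^ p * w - PowerSeries.C ((p : ℂ) ^ 2) * r := by
      rw [← hw2, hFS]
      ring
    rw [hV, hSe]
    ring

end Pool.Agent.HS37.C3
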