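import Pool.Agent.HS37.C3.Stm

/-!
# Project C3, piece INE3 (helper72): Frobenius in a quadratic ring
-/

set_option autoImplicit false

namespace Pool.Agent.HS37.C3

namespace INE

/-- integers in a ring in which `p = 0` -/
theorem cast_eq {Q : Type} [CommRing Q] {p : ℕ} (h : (p : Q) = 0) {m n : ℤ}
    (hmn : (p : ℤ) ∣ m - n) : (m : Q) = (n : Q) := by
  obtain ⟨k, hk⟩ := hmn
  have h1 : (m : Q) - n = 0 := by
    rw [← Int.cast_sub, hk, Int.cast_mul, Int.cast_natCast, h, zero_mul]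
  exact sub_eq_zero.1 h1

/-- Fermat -/
theorem fermat {p : ℕ} (hp : p.Prime) (m : ℤ) : (p : ℤ) ∣ m ^ p - m := by
  haveI : Fact p.Prime := ⟨hp⟩
  rw [← ZMod.intCast_zmod_eq_zero_iff_dvd]
  push_cast
  rw [ZMod.pow_card, sub_self]

theorem fermat' {p : ℕ} (hp : p.Prime) {m : ℤ} (hm : ¬ (p : ℤ) ∣ m) : (p : ℤ) ∣ m ^ (p - 1) - 1 := by
  haveI : Fact p.Prime := ⟨hp⟩
  have h0 : (m : ZMod p) ≠ 0 := fun h => hm ((ZMod.intCast_zmod_eq_zero_iff_dvd m p).1 h)
  rw [← ZMod.intCast_zmod_eq_zero_iff_dvd]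
  push_cast
  rw [ZMod.pow_card_sub_one_eq_one h0, sub_self]

theorem euler {p : ℕ} (hp : p.Prime) {D : ℤ} (hD : ¬ ∃ z : ℤ, (p : ℤ) ∣ D - z ^ 2) :
    (p : ℤ) ∣ D ^ (p / 2) - (-1) := by
  haveI : Fact p.Prime := ⟨hp⟩
  have h0 : (D : ZMod p) ≠ 0 := fun h => hD ⟨0, by
    have := (ZMod.intCast_zmod_eq_zero_iff_dvd D p).1 h
    simpa using this⟩
  rw [← ZMod.intCast_zmod_eq_zero_iff_dvd]
  push_cast
  rcases ZMod.pow_div_two_eq_neg_one_or_one p h0 with h | h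
  · exfalso
    have h1 := (ZMod.euler_criterion p h0).2 h
    obtain ⟨y, hy⟩ := h1
    obtain ⟨z, rfl⟩ := ZMod.intCast_surjective y
    apply hD
    refine ⟨z, ?_⟩
    rw [← ZMod.intCast_zmod_eq_zero_iff_dvd]
    push_cast
    rw [hy]
    ring
  · rw [h]
    ring

/-- the computation in a ring with `p = 0` -/
theorem core {Q : Type} [CommRing Q] {p : ℕ} (hp : p.Prime) (hp2 : p ≠ 2) (hQ : (p : Q) = 0)
    (a ℓ Z : ℤ) (l : Q) (hl : l ^ 2 - a * l + ℓ = 0)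
    (hD : ¬ ∃ z : ℤ, (p : ℤ) ∣ a ^ 2 - 4 * ℓ - z ^ 2) (hℓ : ¬ (p : ℤ) ∣ ℓ)
    (h : (l ^ (6 * (p - 1)) - (ℓ : Q) ^ (6 * (p - 1))) * (Z : Q) = 0) :
    (((a ^ 2 - 4 * ℓ) * (a * (a ^ 2 - ℓ) * (a ^ 2 - 3 * ℓ)) * Z : ℤ) : Q) = 0 := by
  have hodd : p % 2 = 1 := by
    rcases hp.eq_two_or_odd with h | h
    · exact absurd h hp2
    · exact h
  set s : Q := 2 * l - a with hs
  have hs2 : s ^ 2 = ((a ^ 2 - 4 * ℓ : ℤ) : Q) := by
    rw [hs]
    push_cast
    linear_combination 4 * hl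
  have hsp : s ^ p = - s := by
    have e : s ^ p = (s ^ 2) ^ (p / 2) * s := by
      rw [← pow_mul, ← pow_succ]
      congr 1
      omega
    have h1 := cast_eq hQ (euler hp hD)
    push_cast at h1
    rw [e, hs2]
    push_cast
    rw [h1]
    ring
  have hap : (a : Q) ^ p = a := by
    have h1 := cast_eq hQ (fermat hp a)
    push_cast at h1
    exact h1
  have h2p : (2 : Q) ^ p = 2 := by
    have h1 := cast_eq hQ (fermat hp 2)
    push_cast at h1
    exact h1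
  obtain ⟨r, hr⟩ := exists_add_pow_prime_eq hp (a : Q) s
  have h3 : 2 * l ^ p = 2 * (a - l) := by
    have h4 : ((a : Q) + s) ^ p = 2 ^ p * l ^ p := by
      rw [← mul_pow]
      congr 1
      rw [hs]
      ring
    rw [h4, hQ, zero_mul, zero_mul, zero_mul, add_zero, h2p, hap, hsp] at hr
    rw [hr, hs]
    ring
  have hlp : l ^ p = a - l := by
    -- `2` is invertible
    obtain ⟨k, hk⟩ : ∃ k : ℕ, 2 * k = p + 1 := ⟨(p + 1) / 2, by omega⟩
    have h5 : (2 : Q) * k = 1 := by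
      have := congrArg (fun n : ℕ => (n : Q)) hk
      push_cast at this
      rw [this, hQ, zero_add]
    calc l ^ p = (2 * k) * l ^ p := by rw [h5, one_mul]
      _ = k * (2 * l ^ p) := by ring
      _ = k * (2 * (a - l)) := by rw [h3]
      _ = (2 * k) * (a - l) := by ring
      _ = a - l := by rw [h5, one_mul]
  have hℓp : (ℓ : Q) ^ (p - 1) = 1 := by
    have h1 := cast_eq hQ (fermat' hp hℓ)
    push_cast at h1
    exact h1
  have h6 : ((a - l) ^ 6 - l ^ 6) * (Z : Q) = 0 := by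
    have e1 : l ^ (6 * (p - 1)) * l ^ 6 = (a - l) ^ 6 := by
      rw [← hlp, ← pow_mul, ← pow_add]
      congr 1
      have := hp.pos
      omega
    have e2 : (ℓ : Q) ^ (6 * (p - 1)) = 1 := by
      rw [mul_comm, pow_mul, hℓp, one_pow]
    rw [← e1]
    rw [e2] at h
    linear_combination l ^ 6 * h
  -- factorisation
  have hll : l * (a - l) = ℓ := by linear_combination -hl
  push_cast
  have e3 : (a - l) ^ 6 - l ^ 6 =
      -(2 * l - a) * (a * ((a : Q) ^ 2 - ℓ) * (a ^ 2 - 3 * ℓ)) := by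
    rw [← hll]
    ring
  rw [e3] at h6
  have hs2' : (2 * l - (a : Q)) ^ 2 = a ^ 2 - 4 * ℓ := by linear_combination 4 * hl
  rw [← hs2']
  linear_combination (-(2 * l - (a : Q))) * h6

end INE

theorem t_INE3 : S_INE3 := by
  intro p a ℓ Z l w hp hp2 hl hw hD hℓ hn h
  let R := integralClosure ℤ ℂ
  have hlint : IsIntegral ℤ l := by
    refine ⟨Polynomial.X ^ 2 - Polynomial.C a * Polynomial.X + Polynomial.C ℓ, ?_, ?_⟩
    · monicity!
    · rw [Polynomial.eval₂_add, Polynomial.eval₂_sub, Polynomial.eval₂_mul,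
        Polynomial.eval₂_pow, Polynomial.eval₂_X, Polynomial.eval₂_C, Polynomial.eval₂_C]
      simpa using hl
  let l' : R := ⟨l, hlint⟩
  let w' : R := ⟨w, hw⟩
  let Q := R ⧸ Ideal.span {(p : R)}
  let π : R →+* Q := Ideal.Quotient.mk _
  have hQ : (p : Q) = 0 := by
    have h1 : π (p : R) = 0 := Ideal.Quotient.eq_zero_iff_mem.2 (Ideal.mem_span_singleton_self _)
    rwa [map_natCast] at h1
  have e1 : l' ^ 2 - a * l' + ℓ = 0 := by
    apply Subtype.ext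
    show l ^ 2 - ((a : R) : ℂ) * l + ((ℓ : R) : ℂ) = 0
    have ha : ((a : R) : ℂ) = a := by simp
    have hb : ((ℓ : R) : ℂ) = ℓ := by simp
    rw [ha, hb]
    exact hl
  have e2 : (l' ^ (6 * (p - 1)) - (ℓ : R) ^ (6 * (p - 1))) * (Z : R) = p * w' := by
    apply Subtype.ext
    show (l ^ (6 * (p - 1)) - ((ℓ : R) : ℂ) ^ (6 * (p - 1))) * ((Z : R) : ℂ) = ((p : R) : ℂ) * w
    have ha : ((Z : R) : ℂ) = Z := by simp
    have hb : ((ℓ : R) : ℂ) = ℓ := by simp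
    have hc : ((p : R) : ℂ) = p := by simp
    rw [ha, hb, hc]
    exact h
  have e1' := congrArg π e1
  have e2' := congrArg π e2
  simp only [map_add, map_sub, map_mul, map_pow, map_intCast, map_zero, map_natCast] at e1' e2'
  rw [hQ, zero_mul] at e2'
  have key := INE.core hp hp2 hQ a ℓ Z (π l') e1' hD hℓ e2'
  have h3 : π (((a ^ 2 - 4 * ℓ) * (a * (a ^ 2 - ℓ) * (a ^ 2 - 3 * ℓ)) * Z : ℤ) : R) = 0 := by
    rw [map_intCast]
    exact key
  rw [Ideal.Quotient.eq_zero_iff_mem, Ideal.mem_span_singleton] at h3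
  obtain ⟨v, hv⟩ := h3
  have hcast : ∀ m : ℤ, ((m : R) : ℂ) = (m : ℂ) := fun m => by simp
  have hv' : ((((a ^ 2 - 4 * ℓ) * (a * (a ^ 2 - ℓ) * (a ^ 2 - 3 * ℓ)) * Z : ℤ) : R) : ℂ) =
      (((p : R) * v : R) : ℂ) := by rw [hv]
  have hv2 : (((p : R) * v : R) : ℂ) = (p : ℂ) * (v : ℂ) := by simp
  rw [hcast, hv2] at hv'
  set N : ℤ := (a ^ 2 - 4 * ℓ) * (a * (a ^ 2 - ℓ) * (a ^ 2 - 3 * ℓ)) * Z with hN
  have hp0 : (p : ℂ) ≠ 0 := by exact_mod_cast hp.ne_zero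
  have hvq : (v : ℂ) = algebraMap ℚ ℂ ((N : ℚ) / p) := by
    rw [map_div₀, map_intCast, map_natCast, hv']
    field_simp
  have hvi : IsIntegral ℤ ((N : ℚ) / p) := by
    have h4 : IsIntegral ℤ (algebraMap ℚ ℂ ((N : ℚ) / p)) := by
      rw [← hvq]
      exact v.2
    exact (isIntegral_algebraMap_iff (algebraMap ℚ ℂ).injective).1 h4
  obtain ⟨z, hz⟩ := IsIntegrallyClosed.isIntegral_iff.1 hvi
  have hNz : N = p * z := by
    have hp0' : (p : ℚ) ≠ 0 := by exact_mod_cast hp.ne_zero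
    have h5 : (N : ℚ) = p * z := by
      have : (algebraMap ℤ ℚ) z = (z : ℚ) := by simp
      rw [this] at hz
      rw [hz]
      field_simp
    exact_mod_cast h5
  have hdvd : (p : ℤ) ∣ N := ⟨z, hNz⟩
  have hpp : Prime (p : ℤ) := Nat.prime_iff_prime_int.1 hp
  rcases hpp.dvd_or_dvd hdvd with h5 | h5
  · rcases hpp.dvd_or_dvd h5 with h6 | h6
    · exact absurd ⟨0, by simpa using h6⟩ hD
    · exact absurd h6 hn
  · exact h5

end Pool.Agent.HS37.C3
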