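import Pool.Agent.HS37.C3.Stm
import Pool.Agent.HS37.SP.Mom

/-!
# Project C3, piece LIN3 (helper4): linear sums
-/

set_option autoImplicit false

open UpperHalfPlane ModularForm ModularFormClass MatrixGroups EisensteinSeries Complex
open Pool.Agent.HS37.SP Pool.Agent.HS37.CQ

namespace Pool.Agent.HS37.C3

namespace LIN3P

lemma pt_cast {k l : ℤ} {g g' : ℍ → ℂ} (h : Pt k g g') (e : k = l) : Pt l g g' := e ▸ h

lemma qx_cast {g : ℍ → ℂ} {e e' : ℕ} {c c' : PowerSeries ℂ} (h : QExp g e c) (he : e = e')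
    (hc : c = c') : QExp g e' c' := by
  subst he
  subst hc
  exact h

lemma qx_pow {g : ℍ → ℂ} {e : ℕ} {c : PowerSeries ℂ} (hg : QExp g e c) (n : ℕ) :
    QExp (fun τ => g τ ^ n) (n * e) (c ^ n) := by
  induction n with
  | zero => simpa using qexp_one
  | succ n ih =>
    have h := t_QMUL.1 _ _ _ _ _ _ ih hg
    have h2 : QExp (fun τ => g τ ^ (n + 1)) (n * e + e) (c ^ n * c) := by
      simpa only [pow_succ] using h
    exact qx_cast h2 (by ring) (pow_succ c n).symm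

lemma vps_eq {p : ℕ} (hp : p ≠ 0) (c : PowerSeries ℂ) : vps p c = PowerSeries.expand p hp c := by
  ext n
  rw [PowerSeries.coeff_expand, vps, PowerSeries.coeff_mk]

lemma vps_int {m : ℕ} {c : PowerSeries ℂ} (hc : IsInt c) : IsInt (vps m c) := by
  intro n
  rw [vps, PowerSeries.coeff_mk]
  split_ifs
  · exact hc _
  · exact ⟨0, by simp⟩

lemma chr_sq {d : ℤ} (h : ¬ (3 : ℤ) ∣ d) : chr d = 1 ∨ chr d = -1 := by
  unfold chr
  rw [if_neg (by omega)]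
  split_ifs
  · exact Or.inl rfl
  · exact Or.inr rfl

lemma chr12 {d : ℤ} (h : ¬ (3 : ℤ) ∣ d) : chr d ^ 12 = 1 := by
  rcases chr_sq h with h1 | h1 <;> rw [h1] <;> norm_num

lemma chr_ne {d : ℤ} (h : ¬ (3 : ℤ) ∣ d) : chr d ≠ 0 := by
  rcases chr_sq h with h1 | h1 <;> rw [h1] <;> norm_num

lemma chr_odd {d : ℤ} (h : ¬ (3 : ℤ) ∣ d) {k : ℤ} (hk : Odd k) (m : ℕ) :
    chr d ^ (k + 12 * m) = chr d := by
  obtain ⟨j, rfl⟩ := hk
  have e : (2 * j + 1 + 12 * (m : ℤ)) = 2 * (j + 6 * m) + 1 := by ring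
  rw [e, zpow_add_one₀ (chr_ne h), _root_.zpow_mul]
  have : chr d ^ (2 : ℤ) = 1 := by
    rcases chr_sq h with h1 | h1 <;> rw [h1] <;> norm_num
  rw [this, one_zpow, one_mul]

/-- the product rule for the values with character -/
lemma val3_mul (k : ℤ) (B : ℍ → ℂ) (m : ℕ) {A : Matrix (Fin 2) (Fin 2) ℤ} (hA : 0 < A.det)
    (h3 : ¬ (3 : ℤ) ∣ A 1 1) (τ : ℍ) :
    val3 (k + 12 * m) (fun z => B z * discriminant z ^ m) A τ =
      val3 k B A τ * val 12 discriminant A τ ^ m := by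
  unfold val3 val
  have hj := vden_ne hA τ
  have hc := chr_ne h3
  have hcj := mul_ne_zero hc hj
  have e1 : -(k + 12 * (m : ℤ)) = -k + -((12 * m : ℕ) : ℤ) := by push_cast; ring
  have e3 : (-12 : ℤ) = -((12 : ℕ) : ℤ) := by norm_num
  rw [e1, zpow_add₀ hcj, _root_.zpow_neg _ (((12 * m : ℕ) : ℤ)), zpow_natCast, e3,
    _root_.zpow_neg _ ((12 : ℕ) : ℤ), zpow_natCast, mul_pow (chr (A 1 1)), pow_mul (chr (A 1 1)),
    chr12 h3, one_pow, one_mul, mul_pow, inv_pow, ← pow_mul]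
  ring

lemma hsum3_smul (k : ℤ) (p : ℕ) (c : ℂ) (g : ℍ → ℂ) (τ : ℍ) :
    hsum3 k p (fun z => c * g z) τ = c * hsum3 k p g τ := by
  unfold hsum3 val3
  rw [Finset.mul_sum]
  refine Finset.sum_congr rfl fun t _ => ?_
  ring

/-- the linear sums as Hecke sums -/
lemma lin_eq {p : ℕ} (hp : p.Prime) (hp3 : p ≠ 3) (k : Fin 2 → ℤ) (A B : Fin 2 → ℍ → ℂ) (m : ℕ)
    (τ : ℍ) :
    ∑ t ∈ reps p, (∑ i, A i τ * val3 (k i) (B i) (mat t) τ) * xx p t τ ^ m =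
      ∑ i, (p : ℂ) ^ (12 * m) * ((A i τ * ((discriminant τ)⁻¹) ^ m) *
        hsum3 (k i + 12 * m) p (fun z => B i z * discriminant z ^ m) τ) := by
  have h1 : ∀ t ∈ reps p, (∑ i, A i τ * val3 (k i) (B i) (mat t) τ) * xx p t τ ^ m =
      ∑ i, (p : ℂ) ^ (12 * m) * ((A i τ * ((discriminant τ)⁻¹) ^ m) *
        val3 (k i + 12 * m) (fun z => B i z * discriminant z ^ m) (mat t) τ) := by
    intro t ht
    have hd : 0 < (mat t).det := by
      rw [det_mat_of_mem hp.pos ht]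
      exact_mod_cast hp.pos
    have h3 : ¬ (3 : ℤ) ∣ (mat t) 1 1 := by
      intro h
      have h5 : (mat t) 1 1 = (t.2.2 : ℤ) := by simp [mat]
      rw [h5] at h
      have h6 : (3 : ℕ) ∣ t.2.2 := by exact_mod_cast h
      unfold reps at ht
      have h7 := (Finset.mem_filter.1 ht).2.1
      have h8 : 3 ∣ p := h7 ▸ Dvd.dvd.mul_left h6 _
      exact hp3 ((Nat.prime_dvd_prime_iff_eq Nat.prime_three hp).1 h8).symm
    rw [Finset.sum_mul]
    refine Finset.sum_congr rfl fun i _ => ?_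
    rw [val3_mul _ _ _ hd h3, xx, div_eq_mul_inv, mul_pow, mul_pow, ← pow_mul]
    ring
  rw [Finset.sum_congr rfl h1, Finset.sum_comm]
  refine Finset.sum_congr rfl fun i _ => ?_
  rw [hsum3, Finset.mul_sum, Finset.mul_sum]

/-- integrality of the low coefficients -/
lemma low {p : ℕ} (m N₀ n : ℕ) {S₀ T : PowerSeries ℂ} (hS : IsInt S₀) (hT : IsInt T)
    (h0 : ∀ n < N₀, ∃ z : ℤ, PowerSeries.coeff n S₀ = (p : ℂ) ^ 2 * z) (hT1 : m = 0 → T = 1)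
    (hn : m = 0 → n < N₀) :
    ∃ z : ℤ, PowerSeries.coeff n (PowerSeries.C ((p : ℂ) ^ (12 * m)) * (T * S₀)) =
      (p : ℂ) ^ 2 * z := by
  rcases Nat.eq_zero_or_pos m with rfl | hm
  · rw [hT1 rfl, mul_zero, pow_zero, map_one, one_mul, one_mul]
    exact h0 n (hn rfl)
  · obtain ⟨z, hz⟩ := isInt_iff.2 (mul_mem (isInt_iff.1 hT) (isInt_iff.1 hS)) n
    refine ⟨(p : ℤ) ^ (12 * m - 2) * z, ?_⟩
    rw [PowerSeries.coeff_C_mul, hz]
    push_cast
    rw [← mul_assoc, ← pow_add]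
    congr 2
    omega

/-- one cusp -/
lemma cusp (hT : S_TRC3) {p : ℕ} (hp : p.Prime) (hp3 : p ≠ 3) (k : Fin 2 → ℤ)
    (hk : ∀ i, k i ≤ -1) (m : ℕ) (hPt : ∀ i, ∃ A A' B B' : ℍ → ℂ,
      Pt (-(k i + 12 * m)) A A' ∧ Pt (k i + 12 * m) B B')
    (A B D E : Fin 2 → ℍ → ℂ) (a b : Fin 2 → PowerSeries ℂ) (x y u v : ℕ)
    (hqA : ∀ i, QExp (A i) x (a i)) (hqB : ∀ i, QExp (B i) y (b i)) (ha : ∀ i, IsInt (a i))
    (hb : ∀ i, IsInt (b i)) (d e : PowerSeries ℂ) (f g : ℍ → ℂ) (hqf : QExp f u d)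
    (hqg : QExp g v e) (hd : IsInt d) (he : IsInt e)
    (hD : ∀ i τ, D i τ = A i τ * f τ ^ m) (hE : ∀ i τ, E i τ = B i τ * g τ ^ m)
    (N₀ R : ℕ) (hR : R = (x + m * u) + p * (y + m * v))
    (h0 : ∀ n < N₀, ∃ z : ℤ, PowerSeries.coeff n (∑ i, a i * vps p (b i)) = (p : ℂ) ^ 2 * z) :
    ∃ c : PowerSeries ℂ, QExp (fun τ => ((p : ℂ) ^ 2)⁻¹ * ∑ i, (p : ℂ) ^ (12 * m) *
        (D i τ * hsum3 (k i + 12 * m) p (E i) τ)) R c ∧
      ∀ n, (m = 0 → n < N₀) → ∃ z : ℤ, PowerSeries.coeff n c = z := by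
  have hp0 : (p : ℂ) ≠ 0 := by exact_mod_cast hp.ne_zero
  have hDe : ∀ i, D i = fun τ => A i τ * f τ ^ m := fun i => funext (hD i)
  have hEe : ∀ i, E i = fun τ => B i τ * g τ ^ m := fun i => funext (hE i)
  have hqD : ∀ i, QExp (D i) (x + m * u) (a i * d ^ m) := by
    intro i
    rw [hDe]
    exact t_QMUL.1 _ _ _ _ _ _ (hqA i) (qx_pow hqf m)
  have hqE : ∀ i, QExp (E i) (y + m * v) (b i * e ^ m) := by
    intro i
    rw [hEe]
    exact t_QMUL.1 _ _ _ _ _ _ (hqB i) (qx_pow hqg m)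
  have h1 : ∀ i, ∃ r : PowerSeries ℂ, IsInt r ∧
      QExp (fun τ => (p : ℂ) ^ (12 * m) * (D i τ * hsum3 (k i + 12 * m) p (E i) τ)) R
      (PowerSeries.C ((p : ℂ) ^ (12 * m)) * ((d ^ m * vps p (e ^ m)) * (a i * vps p (b i))) +
        PowerSeries.C ((p : ℂ) ^ 2) * r) := by
    intro i
    obtain ⟨A1, A1', B1, B1', hA1, hB1⟩ := hPt i
    obtain ⟨r, hr, hq⟩ := (hT p hp hp3 _ _ _ _ _ hA1 hB1).2 _ _ _ _ _ _ (hqD i) (hqE i)
      (isInt_iff.2 (mul_mem (isInt_iff.1 (ha i)) (pow_mem (isInt_iff.1 hd) m)))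
      (isInt_iff.2 (mul_mem (isInt_iff.1 (hb i)) (pow_mem (isInt_iff.1 he) m)))
    obtain ⟨N, hN⟩ : ∃ N : ℕ, ((12 * m : ℕ) : ℤ) + (1 - (k i + 12 * m)) = ((2 : ℕ) : ℤ) + (N : ℕ) := by
      have := hk i
      exact ⟨(-1 - k i).toNat, by push_cast; omega⟩
    refine ⟨PowerSeries.C (((p : ℤ) ^ N : ℤ) : ℂ) * r, isInt_iff.2 (mul_mem (isInt_C _)
      (isInt_iff.1 hr)), ?_⟩
    refine qx_cast (t_QMUL.2.2.2.1 _ _ _ ((p : ℂ) ^ (12 * m)) hq) hR.symm ?_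
    rw [vps_eq hp.ne_zero, vps_eq hp.ne_zero, vps_eq hp.ne_zero, map_mul, mul_add]
    congr 1
    · ring
    · rw [← mul_assoc, ← mul_assoc, ← map_mul, ← map_mul]
      congr 2
      rw [← zpow_natCast (p : ℂ) (12 * m), ← zpow_add₀ hp0, hN, zpow_add₀ hp0, zpow_natCast,
        zpow_natCast]
      push_cast
      rfl
  choose r hr hq using h1
  have hsum : QExp (fun τ => ∑ i, (p : ℂ) ^ (12 * m) * (D i τ * hsum3 (k i + 12 * m) p (E i) τ)) R
      (∑ i, (PowerSeries.C ((p : ℂ) ^ (12 * m)) * ((d ^ m * vps p (e ^ m)) * (a i * vps p (b i))) +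
        PowerSeries.C ((p : ℂ) ^ 2) * r i)) := by
    simp only [Fin.sum_univ_two]
    exact t_QMUL.2.1 _ _ _ _ _ (hq 0) (hq 1)
  refine ⟨_, t_QMUL.2.2.2.1 _ _ _ (((p : ℂ) ^ 2)⁻¹) hsum, ?_⟩
  intro n hn
  have hS : IsInt (∑ i, a i * vps p (b i)) := isInt_iff.2 (Subring.sum_mem _ fun i _ =>
    mul_mem (isInt_iff.1 (ha i)) (isInt_iff.1 (vps_int (hb i))))
  have hTT : IsInt (d ^ m * vps p (e ^ m)) := isInt_iff.2 (mul_mem (pow_mem (isInt_iff.1 hd) m)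
    (isInt_iff.1 (vps_int (isInt_iff.2 (pow_mem (isInt_iff.1 he) m)))))
  obtain ⟨z, hz⟩ := low (p := p) m N₀ n hS hTT h0 (by
    rintro rfl
    rw [pow_zero, pow_zero, vps_eq hp.ne_zero, map_one, one_mul]) hn
  obtain ⟨z', hz'⟩ := isInt_iff.2 (add_mem (isInt_iff.1 (hr 0)) (isInt_iff.1 (hr 1))) n
  refine ⟨z + z', ?_⟩
  rw [Finset.sum_add_distrib, ← Finset.mul_sum, ← Finset.mul_sum, ← Finset.mul_sum,
    PowerSeries.coeff_C_mul, map_add, hz, PowerSeries.coeff_C_mul, Fin.sum_univ_two, hz']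
  push_cast
  field_simp

end LIN3P

open LIN3P in
theorem t_LIN3 (hT : S_TRC3) (hP : S_PR23) (hC : S_CLO3) (hB : S_BAS3) : S_LIN3 := by
  intro p hp hp3 k A A' B B' a a' b b' M hk hodd hA hBB hqA hqA' hqB hqB' hia hia' hib hib' h1 h2 m
  obtain ⟨-, -, ⟨w12, q12, i12, -, -⟩, -, ⟨e, -, qe, ie, -⟩⟩ := t_EIS
  have hp0 : (p : ℂ) ≠ 0 := by exact_mod_cast hp.ne_zero
  have hp3' : ¬ (3 : ℤ) ∣ (p : ℤ) := by
    intro h
    have h6 : (3 : ℕ) ∣ p := by exact_mod_cast h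
    exact hp3 ((Nat.prime_dvd_prime_iff_eq Nat.prime_three hp).1 h6).symm
  have hDel : Pt 12 discriminant (fun τ => 729 * discriminant (trp τ)) := by
    have h := hB.1 6 discriminant (by
      have : (2 * 6 : ℤ) = 12 := by norm_num
      rw [this]
      exact w12)
    refine pt_cast ?_ (by norm_num : (2 * 6 : ℤ) = 12)
    have h7 : ((-3 : ℂ) ^ (6 : ℤ)) = 729 := by norm_num
    rw [h7] at h
    exact h
  have hDi : Pt (-12) (fun τ => (discriminant τ)⁻¹) (fun τ => (729 * discriminant (trp τ))⁻¹) :=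
    hC.2.2.2.2.2.1 _ _ _ hDel (fun τ => discriminant_ne_zero τ)
      (fun τ => mul_ne_zero (by norm_num) (discriminant_ne_zero _))
  have q3 : QExp (fun τ => discriminant (trp τ)) 0 (vps 3 del) := by
    simpa using hB.2.2 _ _ _ q12
  have q3i : QExp (fun τ => (discriminant (trp τ))⁻¹) 3 (vps 3 e) := by
    simpa using hB.2.2 _ _ _ qe
  have hA2 : ∀ i, Pt (-(k i + 12 * m)) (fun τ => A i τ * ((discriminant τ)⁻¹) ^ m)
      (fun τ => A' i τ * ((729 * discriminant (trp τ))⁻¹) ^ m) := by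
    intro i
    exact pt_cast (hC.1 _ _ _ _ _ _ (hA i) (hC.2.2.2.2.1 _ _ _ m hDi)) (by ring)
  have hB2 : ∀ i, Pt (k i + 12 * m) (fun τ => B i τ * discriminant τ ^ m)
      (fun τ => B' i τ * (729 * discriminant (trp τ)) ^ m) := by
    intro i
    exact pt_cast (hC.1 _ _ _ _ _ _ (hBB i) (hC.2.2.2.2.1 _ _ _ m hDel)) (by ring)
  have hPt : ∀ i, ∃ A A' B B' : ℍ → ℂ, Pt (-(k i + 12 * m)) A A' ∧ Pt (k i + 12 * m) B B' :=
    fun i => ⟨_, _, _, _, hA2 i, hB2 i⟩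
  -- the pair of weight zero
  have hterm : ∀ i, Pt 0 (fun τ => (p : ℂ) ^ (12 * m) * ((A i τ * ((discriminant τ)⁻¹) ^ m) *
        hsum3 (k i + 12 * m) p (fun z => B i z * discriminant z ^ m) τ))
      (fun τ => (p : ℂ) ^ (12 * m) * (chr p * ((A' i τ * ((discriminant (trp τ))⁻¹) ^ m) *
        hsum3 (k i + 12 * m) p (fun z => B' i z * discriminant (trp z) ^ m) τ))) := by
    intro i
    have h := hC.2.2.1 _ _ _ ((p : ℂ) ^ (12 * m)) (hT p hp hp3 _ _ _ _ _ (hA2 i) (hB2 i)).1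
    convert h using 1
    funext τ
    have e1 : (fun z => B' i z * (729 * discriminant (trp z)) ^ m) =
        fun z => (729 : ℂ) ^ m * (B' i z * discriminant (trp z) ^ m) := by
      funext z
      rw [mul_pow]
      ring
    rw [e1, hsum3_smul, chr_odd hp3' (hodd i), mul_inv, mul_pow]
    have e2 : ((729 : ℂ)⁻¹) ^ m * 729 ^ m = 1 := by
      rw [← mul_pow]
      norm_num
    calc _ = (p : ℂ) ^ (12 * m) * (chr p * ((A' i τ * ((discriminant (trp τ))⁻¹) ^ m) *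
        hsum3 (k i + 12 * m) p (fun z => B' i z * discriminant (trp z) ^ m) τ)) * 1 := by ring
      _ = _ := by
        rw [← e2]
        ring
  have hF := hC.2.2.1 _ _ _ (((p : ℂ) ^ 2)⁻¹) (hC.2.1 _ _ _ _ _ (hterm 0) (hterm 1))
  -- expansions
  obtain ⟨c, hc, hcn⟩ := cusp hT hp hp3 k hk m hPt A B
    (fun i τ => A i τ * ((discriminant τ)⁻¹) ^ m) (fun i τ => B i τ * discriminant τ ^ m) a b M 0 1 0
    hqA hqB hia hib e del _ _ qe q12 ie i12 (fun _ _ => rfl) (fun _ _ => rfl) M _ rfl h1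
  obtain ⟨c', hc', hcn'⟩ := cusp hT hp hp3 k hk m hPt A' B'
    (fun i τ => A' i τ * ((discriminant (trp τ))⁻¹) ^ m)
    (fun i τ => B' i τ * discriminant (trp τ) ^ m) a' b' 0 1 3 0
    hqA' hqB' hia' hib' (vps 3 e) (vps 3 del) _ _ q3i q3 (vps_int ie) (vps_int i12)
    (fun _ _ => rfl) (fun _ _ => rfl) (p + 1) _ rfl (fun n hn => h2 n (by omega))
  have hc2 := t_QMUL.2.2.2.1 _ _ _ (chr p) hc'
  obtain ⟨Q₁, Q₂, hQ⟩ := hP _ _ _ _ _ _ hF (qx_cast (g := _) (by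
      convert hc using 2
      rw [Fin.sum_univ_two]) rfl rfl) (qx_cast (by
      convert hc2 using 2
      rw [Fin.sum_univ_two]
      ring) rfl rfl) (fun n hn => hcn n (by
        rintro rfl
        simpa using hn)) (fun n hn => by
      obtain ⟨z, hz⟩ := hcn' n (by
        rintro rfl
        simp at hn
        omega)
      rcases chr_sq hp3' with h3 | h3
      · exact ⟨z, by rw [PowerSeries.coeff_C_mul, hz, h3, one_mul]⟩
      · exact ⟨-z, by rw [PowerSeries.coeff_C_mul, hz, h3]; push_cast; ring⟩)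
  refine ⟨Q₁, Q₂, fun τ => ?_⟩
  rw [← hQ τ, lin_eq hp hp3, Fin.sum_univ_two]
  field_simp

end Pool.Agent.HS37.C3
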