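import Pool.Agent.HS37.C3.Stm

/-!
# Project C3, piece NEG3 (helper36): the signs of `E₄` and `Δ` at `(1 + √-11) / 2`
-/

set_option autoImplicit false

open UpperHalfPlane ModularForm ModularFormClass MatrixGroups EisensteinSeries Complex
open Pool.Agent.HS37.SP Pool.Agent.HS37.CQ

namespace Pool.Agent.HS37.C3

namespace NEG3

/-- `e^(-π √11)` -/
noncomputable def Q : ℝ := Real.exp (-(Real.pi * Real.sqrt 11))

lemma Q_pos : 0 < Q := Real.exp_pos _

lemma Q_lt : 4800 * Q < 1 := by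
  have h1 : (3 : ℝ) < Real.sqrt 11 := by
    rw [Real.lt_sqrt (by norm_num)]
    norm_num
  have h2 : (9 : ℝ) ≤ Real.pi * Real.sqrt 11 := by
    have := mul_le_mul Real.pi_gt_three.le h1.le (by norm_num) Real.pi_pos.le
    linarith
  have h3 : Q ≤ Real.exp (-9) := by
    unfold Q
    exact Real.exp_le_exp.mpr (by linarith)
  have h4 : (4801 : ℝ) ≤ Real.exp 9 := by
    have h5 : Real.exp 9 = Real.exp 1 ^ 9 := by
      rw [← Real.exp_nat_mul]
      norm_num
    rw [h5]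
    calc (4801 : ℝ) ≤ (2.7 : ℝ) ^ 9 := by norm_num
      _ ≤ Real.exp 1 ^ 9 := pow_le_pow_left₀ (by norm_num) (by
        have := Real.exp_one_gt_d9
        linarith) 9
  have h6 : Real.exp (-9) ≤ 1 / 4801 := by
    rw [Real.exp_neg, ← one_div]
    exact one_div_le_one_div_of_le (by norm_num) h4
  have h7 : Q ≤ 1 / 4801 := h3.trans h6
  linarith

/-- the point -/
noncomputable def z0 : ℂ := (1 + Complex.I * ((Real.sqrt 11 : ℝ) : ℂ)) / 2

lemma z0_im : 0 < z0.im := by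
  unfold z0
  have : (0 : ℝ) < Real.sqrt 11 := Real.sqrt_pos.mpr (by norm_num)
  simp

lemma qq_z0 : cexp (2 * Real.pi * Complex.I * z0) = ((-Q : ℝ) : ℂ) := by
  have h1 : 2 * Real.pi * Complex.I * z0 =
      Real.pi * Complex.I + ((-(Real.pi * Real.sqrt 11) : ℝ) : ℂ) := by
    unfold z0
    push_cast
    have hI := Complex.I_mul_I
    linear_combination (Real.pi : ℂ) * ((Real.sqrt 11 : ℝ) : ℂ) * hI
  rw [h1, Complex.exp_add, Complex.exp_pi_mul_I, ← Complex.ofReal_exp]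
  unfold Q
  push_cast
  ring

lemma bern4 : (bernoulli 4 : ℂ) = -1 / 30 := by
  have h : bernoulli 4 = -1 / 30 := by
    rw [bernoulli_eq_bernoulli'_of_ne_one (by norm_num), bernoulli'_four]
  rw [h]
  norm_num

lemma eis4_coeff (n : ℕ) (hn : n ≠ 0) :
    PowerSeries.coeff n (eis 4) = ((240 * (ArithmeticFunction.sigma 3 n : ℝ) : ℝ) : ℂ) := by
  unfold eis
  rw [PowerSeries.coeff_mk, if_neg hn]
  have h := bern4
  push_cast
  rw [h]
  norm_num

/-- the real coefficients -/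
noncomputable def r (n : ℕ) : ℝ :=
  (if n = 0 then 1 else 240 * (ArithmeticFunction.sigma 3 n : ℝ)) * (-Q) ^ n

lemma r_eq (n : ℕ) : PowerSeries.coeff n (eis 4) * ((-Q : ℝ) : ℂ) ^ n = ((r n : ℝ) : ℂ) := by
  unfold r
  by_cases hn : n = 0
  · subst hn
    unfold eis
    rw [PowerSeries.coeff_mk]
    simp
  · rw [eis4_coeff n hn, if_neg hn]
    push_cast
    ring

lemma pow4_le (n : ℕ) : ((n : ℝ)) ^ 4 ≤ 16 ^ n := by
  have h1 : (n : ℝ) ≤ 2 ^ n := by exact_mod_cast (Nat.lt_two_pow_self (n := n)).le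
  calc ((n : ℝ)) ^ 4 ≤ (2 ^ n) ^ 4 := pow_le_pow_left₀ (by positivity) h1 4
    _ = 16 ^ n := by
      rw [← pow_mul, mul_comm, pow_mul]
      norm_num

lemma r_bound (n : ℕ) : |r (n + 1)| ≤ 240 * (16 * Q) * (16 * Q) ^ n := by
  unfold r
  rw [if_neg (Nat.succ_ne_zero n), abs_mul, abs_pow, abs_neg, abs_of_pos Q_pos]
  have h1 : |240 * (ArithmeticFunction.sigma 3 (n + 1) : ℝ)| ≤ 240 * 16 ^ (n + 1) := by
    rw [abs_of_nonneg (by positivity)]
    have h2 : (ArithmeticFunction.sigma 3 (n + 1) : ℝ) ≤ ((n + 1 : ℕ) : ℝ) ^ 4 := by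
      exact_mod_cast ArithmeticFunction.sigma_le_pow_succ 3 (n + 1)
    have h3 := pow4_le (n + 1)
    linarith
  calc |240 * (ArithmeticFunction.sigma 3 (n + 1) : ℝ)| * Q ^ (n + 1)
      ≤ 240 * 16 ^ (n + 1) * Q ^ (n + 1) :=
        mul_le_mul_of_nonneg_right h1 (pow_nonneg Q_pos.le _)
    _ = 240 * (16 * Q) * (16 * Q) ^ n := by
      rw [mul_pow, pow_succ, pow_succ]
      ring

lemma e4 (hE : QExp (fun τ => E₄ τ) 0 (eis 4)) :
    ∃ u : ℝ, 0 < u ∧ E₄ (ofComplex z0) = u := by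
  have h1 := hE (ofComplex z0)
  have hz : ((ofComplex z0 : ℍ) : ℂ) = z0 := by
    rw [ofComplex_apply_of_im_pos z0_im]
  have hq : qq (ofComplex z0 : ℍ) = ((-Q : ℝ) : ℂ) := by
    unfold qq
    rw [hz]
    exact qq_z0
  rw [hq, pow_zero, one_mul] at h1
  simp only [r_eq] at h1
  obtain ⟨w, hw⟩ : ∃ w, w = E₄ (ofComplex z0) := ⟨_, rfl⟩
  rw [← hw] at h1 ⊢
  obtain ⟨h2, h3⟩ := (Complex.hasSum_iff _ _).mp h1
  simp only [Complex.ofReal_re, Complex.ofReal_im] at h2 h3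
  have h4 : w.im = 0 := h3.unique hasSum_zero
  refine ⟨w.re, ?_, Complex.ext rfl (by rw [h4]; simp)⟩
  have h5 := (hasSum_nat_add_iff' 1).mpr h2
  have hQ := Q_lt
  have hQ0 := Q_pos
  have h6 : HasSum (fun n : ℕ => 240 * (16 * Q) * (16 * Q) ^ n) (240 * (16 * Q) * (1 - 16 * Q)⁻¹) :=
    (hasSum_geometric_of_lt_one (by positivity) (by linarith)).mul_left _
  have h7 := HasSum.norm_le_of_bounded h5 h6 (fun n => r_bound n)
  have h8 : 240 * (16 * Q) * (1 - 16 * Q)⁻¹ < 1 := by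
    rw [← div_eq_mul_inv, div_lt_one (by linarith)]
    linarith
  have h9 : r 0 = 1 := by
    unfold r
    simp
  rw [Finset.sum_range_one, h9, Real.norm_eq_abs] at h7
  have h10 := abs_lt.mp (h7.trans_lt h8)
  linarith [h10.1]

lemma prod_real (f : ℕ → ℂ) (hf : ∀ n, ∃ x : ℝ, 0 ≤ x ∧ f n = x) :
    ∃ x : ℝ, 0 ≤ x ∧ ∏' n, f n = x := by
  have hcl : IsClosed (Complex.ofReal '' Set.Ici 0) :=
    Complex.isometry_ofReal.isClosedEmbedding.isClosedMap _ isClosed_Ici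
  have hmem : ∏' n, f n ∈ Complex.ofReal '' Set.Ici 0 := by
    by_cases hm : Multipliable f
    · refine hcl.mem_of_tendsto hm.hasProd (Filter.Eventually.of_forall fun s => ?_)
      choose x hx0 hx using hf
      refine ⟨∏ n ∈ s, x n, Finset.prod_nonneg fun n _ => hx0 n, ?_⟩
      rw [Complex.ofReal_prod]
      exact Finset.prod_congr rfl fun n _ => (hx n).symm
    · rw [tprod_eq_one_of_not_multipliable hm]
      exact ⟨1, by simp, by simp⟩
  obtain ⟨x, hx, hx'⟩ := hmem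
  exact ⟨x, hx, hx'.symm⟩

lemma disc : ∃ v : ℝ, v < 0 ∧ discriminant (ofComplex z0) = v := by
  have hz : ((ofComplex z0 : ℍ) : ℂ) = z0 := by
    rw [ofComplex_apply_of_im_pos z0_im]
  have hq : Function.Periodic.qParam 1 ((ofComplex z0 : ℍ) : ℂ) = ((-Q : ℝ) : ℂ) := by
    unfold Function.Periodic.qParam
    rw [hz, Complex.ofReal_one, div_one]
    exact qq_z0
  obtain ⟨x, hx, hx'⟩ := prod_real (fun n => (1 - eta_q n (ofComplex z0 : ℍ)) ^ 24) (fun n => by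
    refine ⟨(1 - (-Q) ^ (n + 1)) ^ 24, by positivity, ?_⟩
    unfold eta_q
    rw [hq]
    push_cast
    ring)
  have h1 := discriminant_eq_q_prod (ofComplex z0)
  rw [hx', hq] at h1
  have h2 := discriminant_ne_zero (ofComplex z0)
  refine ⟨-Q * x, ?_, by rw [h1]; push_cast; ring⟩
  have h3 : x ≠ 0 := by
    rintro rfl
    apply h2
    rw [h1]
    simp
  have h4 : 0 < x := lt_of_le_of_ne hx (Ne.symm h3)
  have h5 := mul_pos Q_pos h4
  linarith

end NEG3

theorem t_NEG3 (hE : S_EIS) : S_NEG3 := by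
  obtain ⟨u, hu, hu'⟩ := NEG3.e4 hE.1.2.1
  obtain ⟨v, hv, hv'⟩ := NEG3.disc
  exact ⟨u, v, hu, hv, hu', hv'⟩

end Pool.Agent.HS37.C3
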