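import Pool.Agent.HS37.C3.Stm
import Pool.Agent.HS37.SP.Val

/-!
# Project C3, piece ODD3, part 2: generators of `Γ₀(3)` (helper70)
-/

set_option autoImplicit false

open Matrix MatrixGroups UpperHalfPlane
open Pool.Agent.HS37.SP Pool.Agent.HS37.CQ

namespace Pool.Agent.HS37.C3

noncomputable section

namespace OddB

lemma chr_mul (a b : ℤ) : chr (a * b) = chr a * chr b := by
  have h1 : a % 3 = 0 ∨ a % 3 = 1 ∨ a % 3 = 2 := by omega
  have h2 : b % 3 = 0 ∨ b % 3 = 1 ∨ b % 3 = 2 := by omega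
  rcases h1 with h1 | h1 | h1 <;> rcases h2 with h2 | h2 | h2 <;>
    simp [chr, Int.mul_emod, h1, h2]

lemma chr_add {a b : ℤ} (h : (3 : ℤ) ∣ a) : chr (a + b) = chr b := by
  have h1 : (a + b) % 3 = b % 3 := by omega
  unfold chr
  rw [h1]

lemma chr_one : chr 1 = 1 := by
  simp [chr]

lemma chr_neg_one : chr (-1) = -1 := by
  unfold chr
  norm_num

lemma fri3_coe (τ : ℍ) : ((fri3 τ : ℍ) : ℂ) = -1 / (3 * (τ : ℂ)) := by
  unfold fri3
  have h : 0 < (-1 / (3 * (τ : ℂ))).im := by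
    have h1 : -1 / (3 * (τ : ℂ)) = ((1 / 3 : ℝ) : ℂ) * (-(τ : ℂ)⁻¹) := by
      have := τ.ne_zero
      push_cast
      field_simp
    rw [h1, Complex.im_ofReal_mul, Complex.neg_im, Complex.inv_im]
    have h2 : 0 < Complex.normSq (τ : ℂ) := Complex.normSq_pos.2 τ.ne_zero
    have h3 := τ.im_pos
    have : 0 < (τ : ℂ).im / Complex.normSq (τ : ℂ) := by positivity
    rw [neg_div]
    linarith
  rw [ofComplex_apply_of_im_pos h]

lemma wf_mul (τ σ : ℍ) : wf τ * wf σ = -3 * ((τ : ℂ) * σ) := by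
  unfold wf
  have h1 : ((Real.sqrt 3 : ℝ) : ℂ) * ((Real.sqrt 3 : ℝ) : ℂ) = 3 := by
    rw [← Complex.ofReal_mul, Real.mul_self_sqrt (by norm_num)]
    norm_num
  have h2 : Complex.I * Complex.I = -1 := Complex.I_mul_I
  linear_combination ((τ : ℂ) * σ) * (((Real.sqrt 3 : ℝ) : ℂ) * ((Real.sqrt 3 : ℝ) : ℂ)) * h2 -
    ((τ : ℂ) * σ) * h1

lemma wf_fri3 (τ : ℍ) : wf (fri3 τ) * wf τ = 1 := by
  have := τ.ne_zero
  rw [wf_mul, fri3_coe]
  field_simp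

lemma wf_ne (τ : ℍ) : wf τ ≠ 0 := fun h => by
  have := wf_fri3 τ
  rw [h, mul_zero] at this
  exact zero_ne_one this

lemma fri3_fri3 (τ : ℍ) : fri3 (fri3 τ) = τ := by
  apply UpperHalfPlane.ext
  have := τ.ne_zero
  rw [fri3_coe, fri3_coe]
  field_simp

/-- The factor. -/
def J3 (γ : SL(2, ℤ)) (τ : ℍ) : ℂ := chr (γ 1 1) * ((γ 1 0 : ℂ) * τ + (γ 1 1 : ℂ))

/-- The law. -/
def Lw (g : ℍ → ℂ) (γ : SL(2, ℤ)) : Prop := ∀ τ : ℍ, g (γ • τ) = J3 γ τ ^ 3 * g τ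

lemma mul10 (γ₁ γ₂ : SL(2, ℤ)) : (γ₁ * γ₂ : SL(2, ℤ)) 1 0 = γ₁ 1 0 * γ₂ 0 0 + γ₁ 1 1 * γ₂ 1 0 := by
  have h := congrFun (congrFun (Matrix.SpecialLinearGroup.coe_mul γ₁ γ₂) 1) 0
  rw [Matrix.mul_apply, Fin.sum_univ_two] at h
  exact h

lemma mul11 (γ₁ γ₂ : SL(2, ℤ)) : (γ₁ * γ₂ : SL(2, ℤ)) 1 1 = γ₁ 1 0 * γ₂ 0 1 + γ₁ 1 1 * γ₂ 1 1 := by
  have h := congrFun (congrFun (Matrix.SpecialLinearGroup.coe_mul γ₁ γ₂) 1) 1
  rw [Matrix.mul_apply, Fin.sum_univ_two] at h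
  exact h

lemma cocycle {γ₁ γ₂ : SL(2, ℤ)} (h : (3 : ℤ) ∣ γ₁ 1 0) (τ : ℍ) :
    J3 (γ₁ * γ₂) τ = J3 γ₁ (γ₂ • τ) * J3 γ₂ τ := by
  have h1 := sl_den_ne γ₂ τ
  unfold J3
  rw [mul10, mul11, chr_add (h.mul_right _), chr_mul, sl_coe]
  push_cast
  field_simp
  ring

lemma law_div {g : ℍ → ℂ} {γ₁ γ₂ : SL(2, ℤ)} (h : (3 : ℤ) ∣ γ₁ 1 0) (h12 : Lw g (γ₁ * γ₂))
    (h2 : Lw g γ₂) : Lw g γ₁ := by
  intro τ
  have e1 := h12 (γ₂⁻¹ • τ)
  have e2 := h2 (γ₂⁻¹ • τ)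
  rw [cocycle h, mul_smul, smul_inv_smul] at e1
  rw [smul_inv_smul] at e2
  rw [e1, e2]
  ring

/-- Translations. -/
def Tk (k : ℤ) : SL(2, ℤ) := ⟨!![1, k; 0, 1], by rw [Matrix.det_fin_two_of]; ring⟩

/-- Lower triangular matrices. -/
def Vm (m : ℤ) : SL(2, ℤ) := ⟨!![1, 0; 3 * m, 1], by rw [Matrix.det_fin_two_of]; ring⟩

lemma Tk_coe (k : ℤ) (τ : ℍ) : ((Tk k • τ : ℍ) : ℂ) = τ + k := by
  rw [sl_coe]
  simp [Tk]

lemma Vm_coe (m : ℤ) (τ : ℍ) : ((Vm m • τ : ℍ) : ℂ) = τ / (3 * m * τ + 1) := by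
  rw [sl_coe]
  simp [Vm]

lemma J3_Tk (k : ℤ) (τ : ℍ) : J3 (Tk k) τ = 1 := by
  have h1 : (Tk k) 1 0 = 0 := rfl
  have h2 : (Tk k) 1 1 = 1 := rfl
  unfold J3
  rw [h1, h2, chr_one]
  simp

lemma J3_Vm (m : ℤ) (τ : ℍ) : J3 (Vm m) τ = 3 * m * τ + 1 := by
  have h1 : (Vm m) 1 0 = 3 * m := rfl
  have h2 : (Vm m) 1 1 = 1 := rfl
  unfold J3
  rw [h1, h2, chr_one]
  push_cast
  ring

lemma exists_k (c d : ℤ) (hc : c ≠ 0) : ∃ k : ℤ, 2 * (c * k + d).natAbs ≤ c.natAbs := by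
  have h1 := Int.emod_nonneg d hc
  have h2 := Int.emod_lt_abs d hc
  have h3 := Int.mul_ediv_add_emod d c
  have h4 : (|c| : ℤ) = c.natAbs := Int.abs_eq_natAbs c
  rw [h4] at h2
  by_cases h : 2 * (d % c) ≤ c.natAbs
  · refine ⟨-(d / c), ?_⟩
    have h5 : c * -(d / c) + d = d % c := by linarith
    rw [h5]
    omega
  · rcases lt_or_gt_of_ne hc with h0 | h0
    · refine ⟨-(d / c) + 1, ?_⟩
      have h5 : c * (-(d / c) + 1) + d = d % c + c := by linarith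
      rw [h5]
      omega
    · refine ⟨-(d / c) - 1, ?_⟩
      have h5 : c * (-(d / c) - 1) + d = d % c - c := by linarith
      rw [h5]
      omega

lemma exists_m (c d : ℤ) (hc : c ≠ 0) (hd : d ≠ 0) (h : 2 * d.natAbs ≤ c.natAbs) :
    ∃ m : ℤ, (c * 1 + d * (3 * m)).natAbs < c.natAbs := by
  rcases lt_or_gt_of_ne hc with h0 | h0 <;> rcases lt_or_gt_of_ne hd with h1 | h1
  · exact ⟨-1, by omega⟩
  · exact ⟨1, by omega⟩
  · exact ⟨1, by omega⟩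
  · exact ⟨-1, by omega⟩

lemma law_Vm {g g' : ℍ → ℂ}
    (hT' : ∀ (k : ℤ) (τ σ : ℍ), (σ : ℂ) = τ + k → g' σ = g' τ)
    (hf : ∀ τ, g (fri3 τ) = wf τ ^ 3 * g' τ) (hf' : ∀ τ, g' (fri3 τ) = wf τ ^ 3 * g τ) (m : ℤ) :
    Lw g (Vm m) := by
  intro τ
  obtain ⟨σ, hσ⟩ : ∃ σ : ℍ, σ = Tk (-m) • fri3 τ := ⟨_, rfl⟩
  have h1 : (σ : ℂ) = ((fri3 τ : ℍ) : ℂ) + ((-m : ℤ) : ℂ) := by rw [hσ, Tk_coe]
  have hτ := τ.ne_zero
  have hne := sl_den_ne (Vm m) τ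
  have h1' : (σ : ℂ) * (3 * τ) = -(3 * m * τ + 1) := by
    rw [h1, fri3_coe]
    push_cast
    field_simp
    ring
  have hV : (3 * (m : ℂ) * τ + 1) ≠ 0 := by
    intro h
    rw [h, neg_zero] at h1'
    rcases mul_eq_zero.1 h1' with h2 | h2
    · exact σ.ne_zero h2
    · exact hτ (by simpa using h2)
  have h2 : fri3 σ = Vm m • τ := by
    apply UpperHalfPlane.ext
    rw [fri3_coe, Vm_coe]
    have hs := σ.ne_zero
    rw [div_eq_div_iff (mul_ne_zero (by norm_num) hs) hV]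
    linear_combination (-1 : ℂ) * h1'
  have h3 : wf σ * wf τ = 3 * m * τ + 1 := by
    rw [wf_mul]
    linear_combination (-1 : ℂ) * h1'
  rw [← h2, hf, hT' _ _ _ h1, hf', J3_Vm, ← h3]
  ring

theorem law_all {g g' : ℍ → ℂ}
    (hT : ∀ (k : ℤ) (τ σ : ℍ), (σ : ℂ) = τ + k → g σ = g τ)
    (hT' : ∀ (k : ℤ) (τ σ : ℍ), (σ : ℂ) = τ + k → g' σ = g' τ)
    (hf : ∀ τ, g (fri3 τ) = wf τ ^ 3 * g' τ) (hf' : ∀ τ, g' (fri3 τ) = wf τ ^ 3 * g τ) :
    ∀ γ : SL(2, ℤ), (3 : ℤ) ∣ γ 1 0 → Lw g γ := by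
  have key : ∀ (n : ℕ) (γ : SL(2, ℤ)), (γ 1 0).natAbs = n → (3 : ℤ) ∣ γ 1 0 → Lw g γ := by
    intro n
    induction n using Nat.strong_induction_on with
    | _ n ih =>
      intro γ hn h3
      have hdet := γ.det_coe
      rw [Matrix.det_fin_two] at hdet
      by_cases hc : γ 1 0 = 0
      · rw [hc, mul_zero, sub_zero] at hdet
        intro τ
        rcases Int.eq_one_or_neg_one_of_mul_eq_one' hdet with ⟨ha, hd⟩ | ⟨ha, hd⟩
        · have h1 : ((γ • τ : ℍ) : ℂ) = τ + ((γ 0 1 : ℤ) : ℂ) := by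
            rw [sl_coe, hc, ha, hd]
            simp
          rw [hT _ _ _ h1]
          unfold J3
          rw [hc, hd, chr_one]
          simp
        · have h1 : ((γ • τ : ℍ) : ℂ) = τ + ((-γ 0 1 : ℤ) : ℂ) := by
            rw [sl_coe, hc, ha, hd]
            push_cast
            ring
          rw [hT _ _ _ h1]
          unfold J3
          rw [hc, hd, chr_neg_one]
          simp
      · obtain ⟨k, hk⟩ := exists_k (γ 1 0) (γ 1 1) hc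
        have e0 : (Tk k) 0 0 = 1 := rfl
        have e1 : (Tk k) 0 1 = k := rfl
        have e2 : (Tk k) 1 0 = 0 := rfl
        have e3 : (Tk k) 1 1 = 1 := rfl
        have a0 : (γ * Tk k : SL(2, ℤ)) 1 0 = γ 1 0 := by
          rw [mul10, e0, e2]
          ring
        have a1 : (γ * Tk k : SL(2, ℤ)) 1 1 = γ 1 0 * k + γ 1 1 := by
          rw [mul11, e1, e3]
          ring
        have hd : γ 1 0 * k + γ 1 1 ≠ 0 := by
          intro h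
          have h4 : γ 1 1 = -(γ 1 0 * k) := by linarith
          rw [h4] at hdet
          obtain ⟨r, hr⟩ := h3
          rw [hr] at hdet
          have h5 : 3 * (γ 0 0 * -(r * k) - γ 0 1 * r) = 1 := by linarith
          omega
        obtain ⟨m, hm⟩ := exists_m (γ 1 0) (γ 1 0 * k + γ 1 1) hc hd hk
        have f0 : (Vm m) 0 0 = 1 := rfl
        have f2 : (Vm m) 1 0 = 3 * m := rfl
        have b0 : (γ * Tk k * Vm m : SL(2, ℤ)) 1 0 = γ 1 0 * 1 + (γ 1 0 * k + γ 1 1) * (3 * m) := by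
          rw [mul10, a0, a1, f0, f2]
        have h6 : Lw g (γ * Tk k * Vm m) := by
          refine ih _ ?_ _ rfl ?_
          · rw [b0, ← hn]
            exact hm
          · rw [b0]
            exact dvd_add (h3.mul_right _) (Dvd.intro _ (by ring : (3 : ℤ) *
              (m * (γ 1 0 * k + γ 1 1)) = _))
        have h7 : Lw g (γ * Tk k) := by
          refine law_div ?_ h6 (law_Vm hT' hf hf' m)
          rw [a0]
          exact h3
        refine law_div h3 h7 ?_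
        intro τ
        rw [J3_Tk, hT k τ _ (Tk_coe k τ)]
        ring
  exact fun γ => key _ γ rfl

end OddB

end

end Pool.Agent.HS37.C3
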