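import Pool.Agent.HS37.C3.OddA
import Pool.Agent.HS37.C3.OddB

/-!
# Project C3, piece ODD3: the forms of weight `3` with character (helper70)
-/

set_option autoImplicit false

open Matrix MatrixGroups UpperHalfPlane
open Pool.Agent.HS37.SP Pool.Agent.HS37.CQ

namespace Pool.Agent.HS37.C3

noncomputable section

namespace OddC

open OddA OddB

lemma per {g : ℍ → ℂ} {c : PowerSeries ℂ} (h : QExp g 0 c) (k : ℤ) (τ σ : ℍ)
    (hs : (σ : ℂ) = τ + k) : g σ = g τ := by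
  have e : qq σ = qq τ := by
    unfold qq
    rw [hs, show 2 * (Real.pi : ℂ) * Complex.I * ((τ : ℂ) + k) =
      2 * (Real.pi : ℂ) * Complex.I * τ + k * (2 * Real.pi * Complex.I) by ring]
    exact Complex.exp_periodic.int_mul k _
  have h1 := h σ
  have h2 := h τ
  rw [e] at h1
  rw [pow_zero, one_mul] at h1 h2
  exact h1.unique h2

lemma im_fri {z : ℂ} (hz : 0 < z.im) : 0 < (-1 / (3 * z)).im := by
  have h0 : z ≠ 0 := fun h => by simp [h] at hz
  have h1 : -1 / (3 * z) = ((1 / 3 : ℝ) : ℂ) * (-z⁻¹) := by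
    push_cast
    field_simp
  rw [h1, Complex.im_ofReal_mul, Complex.neg_im, Complex.inv_im]
  have h2 : 0 < Complex.normSq z := Complex.normSq_pos.2 h0
  have : 0 < z.im / Complex.normSq z := by positivity
  rw [neg_div]
  linarith

/-- The sign. -/
lemma sign {β γ₃ : ℍ → ℂ} (hβ : DifferentiableOn ℂ (β ∘ ofComplex) {z | 0 < z.im})
    (hγ : DifferentiableOn ℂ (γ₃ ∘ ofComplex) {z | 0 < z.im}) (hne : ∀ τ, γ₃ τ ≠ 0)
    (hsq : ∀ τ, β (fri3 τ) ^ 2 = (27 * wf τ ^ 3 * γ₃ τ) ^ 2) :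
    ∃ ε : ℂ, (ε = 1 ∨ ε = -1) ∧ ∀ τ, β (fri3 τ) = wf τ ^ 3 * (27 * ε * γ₃ τ) := by
  obtain ⟨f, hf⟩ : ∃ f : ℂ → ℂ, ∀ z, f z = (β ∘ ofComplex) (-1 / (3 * z)) := ⟨_, fun _ => rfl⟩
  obtain ⟨g, hg⟩ : ∃ g : ℂ → ℂ, ∀ z, g z =
      27 * (-Complex.I * ((Real.sqrt 3 : ℝ) : ℂ) * z) ^ 3 * (γ₃ ∘ ofComplex) z :=
    ⟨_, fun _ => rfl⟩
  have hfv : ∀ τ : ℍ, f τ = β (fri3 τ) := fun τ => by
    rw [hf]
    rfl
  have hgv : ∀ τ : ℍ, g τ = 27 * wf τ ^ 3 * γ₃ τ := fun τ => by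
    rw [hg, Function.comp_apply, ofComplex_apply]
    rfl
  have hS : IsPreconnected {z : ℂ | 0 < z.im} := (convex_halfSpace_im_gt 0).isPreconnected
  have cf : ContinuousOn f {z : ℂ | 0 < z.im} := by
    have h1 : ContinuousOn (fun z : ℂ => -1 / (3 * z)) {z : ℂ | 0 < z.im} := by
      refine ContinuousOn.div continuousOn_const (continuousOn_const.mul continuousOn_id) ?_
      intro z hz h
      have h0 : z = 0 := by simpa using h
      have hz' : 0 < z.im := hz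
      rw [h0, Complex.zero_im] at hz'
      exact lt_irrefl _ hz'
    have h2 := ContinuousOn.comp (g := β ∘ ofComplex) hβ.continuousOn h1
      (fun z hz => im_fri hz : Set.MapsTo (fun z : ℂ => -1 / (3 * z)) {z : ℂ | 0 < z.im}
        {z : ℂ | 0 < z.im})
    exact h2.congr fun z _ => hf z
  have cg : ContinuousOn g {z : ℂ | 0 < z.im} := by
    have h1 : ContinuousOn (fun z : ℂ => 27 * (-Complex.I * ((Real.sqrt 3 : ℝ) : ℂ) * z) ^ 3 *
        (γ₃ ∘ ofComplex) z) {z : ℂ | 0 < z.im} :=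
      (continuousOn_const.mul ((continuousOn_const.mul continuousOn_id).pow 3)).mul hγ.continuousOn
    exact h1.congr fun z _ => hg z
  have hsq' : Set.EqOn (f ^ 2) (g ^ 2) {z : ℂ | 0 < z.im} := by
    intro z hz
    have h1 := hsq ⟨z, hz⟩
    rw [← hfv, ← hgv] at h1
    exact h1
  have hgne : ∀ {z : ℂ}, z ∈ {z : ℂ | 0 < z.im} → g z ≠ 0 := by
    intro z hz
    have h1 := hgv ⟨z, hz⟩
    have h2 : g z = 27 * wf ⟨z, hz⟩ ^ 3 * γ₃ ⟨z, hz⟩ := h1
    rw [h2]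
    exact mul_ne_zero (mul_ne_zero (by norm_num) (pow_ne_zero _ (wf_ne _))) (hne _)
  rcases hS.eq_or_eq_neg_of_sq_eq cf cg hsq' hgne with h | h
  · refine ⟨1, Or.inl rfl, fun τ => ?_⟩
    have h1 := h (x := (τ : ℂ)) τ.im_pos
    rw [hfv, hgv] at h1
    rw [h1]
    ring
  · refine ⟨-1, Or.inr rfl, fun τ => ?_⟩
    have h1 := h (x := (τ : ℂ)) τ.im_pos
    rw [hfv, Pi.neg_apply, hgv] at h1
    rw [h1]
    ring

lemma coeff_zero_mul' (a b : PowerSeries ℂ) :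
    PowerSeries.coeff 0 (a * b) = PowerSeries.coeff 0 a * PowerSeries.coeff 0 b := by
  simp only [PowerSeries.coeff_zero_eq_constantCoeff, map_mul]

lemma C_mul_ofNat {z w : ℂ} : PowerSeries.C z * PowerSeries.C w = PowerSeries.C (z * w) := by
  rw [map_mul]

/-- Integrality of the series of `β`. -/
lemma int_beta {a b : PowerSeries ℂ} (hab : a * b = 1) (a0 : PowerSeries.coeff 0 a = 1)
    (ha : a ^ 2 = dG) (h : ds ^ 2 = dP * dG) (is : IsInt ds)
    (iP : IsInt (PowerSeries.C (1 / 12 : ℂ) * (dP - 1))) (s0 : PowerSeries.coeff 0 ds = 1) :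
    IsInt a ∧ IsInt b := by
  obtain ⟨α, hα⟩ : ∃ α, α = ds * b := ⟨_, rfl⟩
  have b0 : PowerSeries.coeff 0 b = 1 := by
    have h1 := congrArg (PowerSeries.coeff 0) hab
    rw [coeff_zero_mul', a0, one_mul] at h1
    rw [h1]
    simp
  have α0 : PowerSeries.coeff 0 α = 1 := by
    rw [hα, coeff_zero_mul', s0, b0, mul_one]
  have hα2 : α ^ 2 = dP := by
    have h1 : (a * b) ^ 2 = 1 := by rw [hab, one_pow]
    calc α ^ 2 = ds ^ 2 * b ^ 2 := by rw [hα]; ring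
      _ = dP * (a * b) ^ 2 := by rw [h, ← ha]; ring
      _ = dP := by rw [h1, mul_one]
  have haα : α * a = ds := by
    calc α * a = ds * (a * b) := by rw [hα]; ring
      _ = ds := by rw [hab, mul_one]
  obtain ⟨x, hx⟩ : ∃ x, x = PowerSeries.C (1 / 2 : ℂ) * (α - 1) := ⟨_, rfl⟩
  have c2 : PowerSeries.C (1 / 2 : ℂ) * 2 = 1 := by
    rw [show (2 : PowerSeries ℂ) = PowerSeries.C (2 : ℂ) by rw [map_ofNat], ← map_mul]
    norm_num
  have c12 : PowerSeries.C (1 / 12 : ℂ) * 12 = 1 := by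
    rw [show (12 : PowerSeries ℂ) = PowerSeries.C (12 : ℂ) by rw [map_ofNat], ← map_mul]
    norm_num
  have hx2 : 2 * x = α - 1 := by
    rw [hx]
    linear_combination (α - 1) * c2
  have x0 : PowerSeries.coeff 0 x = 0 := by
    rw [hx, coeff_zero_mul', map_sub, α0]
    simp
  obtain ⟨u, hu⟩ : ∃ u, u = PowerSeries.C (1 / 12 : ℂ) * (dP - 1) := ⟨_, rfl⟩
  rw [← hu] at iP
  have hu2 : 12 * u = dP - 1 := by
    rw [hu]
    linear_combination (dP - 1) * c12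
  have hxv : x + x ^ 2 = 3 * u := by
    have h4 : (4 : PowerSeries ℂ) ≠ 0 := by
      rw [← map_ofNat PowerSeries.C 4]
      intro h
      have := PowerSeries.C_injective (h.trans (map_zero PowerSeries.C).symm)
      norm_num at this
    apply mul_left_cancel₀ h4
    linear_combination (2 + 2 * x + α - 1) * hx2 + hα2 - hu2
  have i3 : IsInt (3 * u) := by
    intro n
    obtain ⟨z, hz⟩ := iP n
    refine ⟨3 * z, ?_⟩
    rw [show (3 : PowerSeries ℂ) = PowerSeries.C (3 : ℂ) by rw [map_ofNat],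
      PowerSeries.coeff_C_mul, hz]
    push_cast
    rfl
  have ix := int_half i3 hxv x0
  have iα : α ∈ intR := by
    have e : α = 1 + 2 * x := by rw [hx2]; ring
    rw [e]
    rw [isInt_iff] at ix
    exact add_mem (one_mem _) (mul_mem (by
      have := isInt_C 2
      rwa [show (((2 : ℤ) : ℂ)) = 2 by norm_num, map_ofNat] at this) ix)
  rw [PowerSeries.coeff_zero_eq_constantCoeff_apply] at α0 a0
  have iαi := inv_mem iα α0
  have e1 : a = ds * α⁻¹ := by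
    have h1 : α * α⁻¹ = 1 := PowerSeries.mul_inv_cancel α (by rw [α0]; exact one_ne_zero)
    calc a = a * (α * α⁻¹) := by rw [h1, mul_one]
      _ = (α * a) * α⁻¹ := by ring
      _ = ds * α⁻¹ := by rw [haα]
  have ia : a ∈ intR := by
    rw [e1]
    exact mul_mem (isInt_iff.1 is) iαi
  have iai := inv_mem ia a0
  have e2 : b = a⁻¹ := by
    have h1 : a * a⁻¹ = 1 := PowerSeries.mul_inv_cancel a (by rw [a0]; exact one_ne_zero)
    calc b = b * (a * a⁻¹) := by rw [h1, mul_one]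
      _ = (a * b) * a⁻¹ := by ring
      _ = a⁻¹ := by rw [hab, one_mul]
  refine ⟨isInt_iff.2 ia, isInt_iff.2 ?_⟩
  rw [e2]
  exact iai

end OddC

open OddA OddB OddC in
theorem t_ODD3 (hR : S_REL3) (hPR : S_PRE3) (hE : S_EXP3) : S_ODD3 := by
  obtain ⟨r1, -, -, -, -, -, r7, r8, r9, -, -, -, nD, nF, nG⟩ := hR
  obtain ⟨-, -, -, pG, pD, -, -, -, iD, ⟨cD, qDi, iDi, hDi, -⟩, -, -⟩ := hPR
  obtain ⟨-, xs, xP, -, xG, xD, -, is, -, iP12, -, -, -, s0, -, -, -, -, -, -, G0, D0, D1⟩ := hE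
  obtain ⟨β, a, b, hβ, qa, qb, hab, a0, holoβ⟩ := sqrt_fun xG G0 nG
  have nβ : ∀ τ, β τ ≠ 0 := fun τ h => nG τ (by rw [← hβ, h]; ring)
  obtain ⟨qm, -, -, -, -, -⟩ := t_QMUL
  have ha : a ^ 2 = dG := by
    rw [pow_two]
    exact ser_eq (qm _ _ 0 0 _ _ qa qa) xG fun τ => by rw [← hβ]; ring
  have hs : ds ^ 2 = dP * dG := by
    rw [pow_two]
    refine ser_eq (qm _ _ 0 0 _ _ xs xs) (qm _ _ 0 0 _ _ xP xG) fun τ => ?_
    linear_combination gP τ * r9 τ - gs τ * r1 τ - 27 * r8 τ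
  obtain ⟨ia, ib⟩ := int_beta hab a0 ha hs is iP12 s0
  obtain ⟨γ₃, hγ⟩ : ∃ γ₃ : ℍ → ℂ, γ₃ = fun τ => gD τ * (β τ)⁻¹ := ⟨_, rfl⟩
  have hβγ : ∀ τ, β τ * γ₃ τ = gD τ := fun τ => by
    have := nβ τ
    rw [hγ]
    field_simp
  have hγ2 : ∀ τ, γ₃ τ ^ 2 = gF τ := fun τ => by
    have h1 := nG τ
    have h2 : gG τ * γ₃ τ ^ 2 = gG τ * gF τ := by
      rw [← hβ]
      calc β τ ^ 2 * γ₃ τ ^ 2 = (β τ * γ₃ τ) ^ 2 := by ring
        _ = gG τ * gF τ := by rw [hβγ, r7]; ring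
        _ = β τ ^ 2 * gF τ := by rw [hβ]
    exact mul_left_cancel₀ h1 h2
  have nγ : ∀ τ, γ₃ τ ≠ 0 := fun τ h => nF τ (by rw [← hγ2, h]; ring)
  have holoγ : DifferentiableOn ℂ (γ₃ ∘ ofComplex) {z | 0 < z.im} := by
    rw [hγ]
    exact pD.holo.mul (holoβ.inv fun z _ => nβ _)
  have qγ : QExp γ₃ 0 (dD * b) := by
    rw [hγ]
    exact qm _ _ 0 0 _ _ xD qb
  have hsq : ∀ τ, β (fri3 τ) ^ 2 = (27 * wf τ ^ 3 * γ₃ τ) ^ 2 := fun τ => by
    have h1 := pG.fr τ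
    have h2 : wf τ ^ (6 : ℤ) = wf τ ^ 6 := rfl
    rw [h2] at h1
    rw [hβ, h1, ← hγ2]
    ring
  obtain ⟨ε, hε, hf⟩ := sign holoβ holoγ nγ hsq
  have hε2 : ε * ε = 1 := by
    rcases hε with h | h <;> rw [h] <;> norm_num
  have hf' : ∀ τ, (fun τ => 27 * ε * γ₃ τ) (fri3 τ) = wf τ ^ 3 * β τ := fun τ => by
    have h1 := hf (fri3 τ)
    rw [fri3_fri3] at h1
    have h2 := wf_fri3 τ
    show 27 * ε * γ₃ (fri3 τ) = _
    rw [h1, ← mul_assoc, ← mul_pow, mul_comm (wf τ), h2, one_pow, one_mul]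
  have qg' : QExp (fun τ => 27 * ε * γ₃ τ) 0 (PowerSeries.C (27 * ε) * (dD * b)) :=
    t_QMUL.2.2.2.1 _ 0 _ (27 * ε) qγ
  have L1 := law_all (per qa) (per qg') hf hf'
  have L2 := law_all (per qg') (per qa) hf' hf
  have z3 : ∀ x : ℂ, x ^ (3 : ℤ) = x ^ 3 := fun x => rfl
  have h27 : (27 * ε : ℂ) ≠ 0 := by
    intro h
    have : (27 : ℂ) * (ε * ε) = 0 := by linear_combination ε * h
    rw [hε2] at this
    norm_num at this
  refine ⟨β, γ₃, ε, a, dD * b, hε, ?_, ?_, hβ, hβγ, hγ2, qa, qγ, ia, ?_, a0, ?_, ?_, ?_, ?_, ?_⟩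
  · refine ⟨fun γ τ h => ?_, fun γ τ h => ?_, fun τ => ?_, fun τ => ?_, holoβ, ?_⟩
    · rw [z3]
      exact L1 γ h τ
    · rw [z3]
      exact L2 γ h τ
    · rw [z3]
      exact hf τ
    · rw [z3]
      exact hf' τ
    · exact holoγ.const_mul _
  · refine ⟨fun γ τ h => ?_, fun γ τ h => ?_, fun τ => ?_, fun τ => ?_, holoγ, ?_⟩
    · rw [z3]
      have h1 : 27 * ε * γ₃ (γ • τ) = J3 γ τ ^ 3 * (27 * ε * γ₃ τ) := L2 γ h τ
      apply mul_left_cancel₀ h27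
      rw [h1]
      unfold J3
      ring
    · rw [z3]
      have h1 : β (γ • τ) = J3 γ τ ^ 3 * β τ := L1 γ h τ
      rw [h1]
      unfold J3
      ring
    · rw [z3]
      have h1 : 27 * ε * γ₃ (fri3 τ) = wf τ ^ 3 * β τ := hf' τ
      linear_combination (ε / 27) * h1 - γ₃ (fri3 τ) * hε2
    · rw [z3]
      rw [hf]
      linear_combination (wf τ ^ 3 * γ₃ τ) * hε2
    · exact (holoβ.const_mul ε).div_const 27
  · exact isInt_iff.2 (mul_mem (isInt_iff.1 iD) (isInt_iff.1 ib))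
  · rw [coeff_zero_mul', D0, zero_mul]
  · have b0 : PowerSeries.coeff 0 b = 1 := by
      have h1 := congrArg (PowerSeries.coeff 0) hab
      rw [coeff_zero_mul', a0, one_mul] at h1
      rw [h1]
      simp
    rw [PowerSeries.coeff_mul, Finset.Nat.antidiagonal_succ]
    simp [D0, D1, b0]
  · calc a * (dD * b) = dD * (a * b) := by ring
      _ = dD := by rw [hab, mul_one]
  · exact ⟨b, qb, ib, hab⟩
  · refine ⟨a * cD, ?_, isInt_iff.2 (mul_mem (isInt_iff.1 ia) (isInt_iff.1 iDi)), ?_⟩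
    · have h1 := qm _ _ 0 1 _ _ qa qDi
      have e : (fun τ => (γ₃ τ)⁻¹) = fun τ => β τ * (gD τ)⁻¹ := by
        funext τ
        have := nβ τ
        have := nD τ
        rw [hγ]
        field_simp
      rw [e]
      exact h1
    · calc dD * b * (a * cD) = (a * b) * (dD * cD) := by ring
        _ = PowerSeries.X := by rw [hab, hDi, one_mul]

end

end Pool.Agent.HS37.C3
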