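import Pool.Agent.HS37.C3.Stm
import Pool.Agent.HS37.SP.Lem
import Pool.Agent.HS37.SP.Qmul

/-!
# Project C3, piece ODD3, part 1: functions on the unit disc (helper70)
-/

set_option autoImplicit false

open UpperHalfPlane MatrixGroups
open Pool.Agent.HS37.SP Pool.Agent.HS37.CQ

namespace Pool.Agent.HS37.C3

noncomputable section

namespace OddA

lemma norm_qq (w : ℂ) : ‖qq w‖ = Real.exp (-(2 * Real.pi * w.im)) := by
  unfold qq
  rw [Complex.norm_exp]
  congr 1
  simp

lemma hasDerivAt_qq (w : ℂ) : HasDerivAt qq (qq w * (2 * Real.pi * Complex.I)) w := by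
  have h1 : HasDerivAt (fun τ : ℂ => 2 * Real.pi * Complex.I * τ) (2 * Real.pi * Complex.I) w := by
    simpa using (hasDerivAt_id w).const_mul (2 * Real.pi * Complex.I)
  exact h1.cexp

lemma qq_ball {w : ℂ} (hw : 0 < w.im) : qq w ∈ Metric.ball (0 : ℂ) 1 := by
  rw [mem_ball_zero_iff, norm_qq]
  have h1 := Real.pi_pos
  have h2 : -(2 * Real.pi * w.im) < 0 := by
    have : 0 < 2 * Real.pi * w.im := by positivity
    linarith
  rw [← Real.exp_zero]
  exact Real.exp_lt_exp.2 h2

/-- The function on the disc. -/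
lemma disc_fun {c : PowerSeries ℂ} {g : ℍ → ℂ} (h : QExp g 0 c) :
    ∃ G : ℂ → ℂ, DifferentiableOn ℂ G (Metric.ball 0 1) ∧ G 0 = PowerSeries.coeff 0 c ∧
      ∀ τ : ℍ, G (qq τ) = g τ := by
  refine ⟨fun z => ∑' n : ℕ, PowerSeries.coeff n c * z ^ n, ?_, ?_, fun τ => ?_⟩
  · intro z hz
    rw [mem_ball_zero_iff] at hz
    obtain ⟨r, hr1, hr2⟩ := exists_between hz
    have hr0 : 0 < r := (norm_nonneg z).trans_lt hr1
    obtain ⟨τ', hτ'⟩ := QMULP.exists_tau (z := (r : ℂ)) (by
      rw [Ne, Complex.ofReal_eq_zero]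
      exact hr0.ne') (by
      rw [Complex.norm_real, Real.norm_of_nonneg hr0.le]
      exact hr2)
    have hs := (h τ').summable.norm
    have h1 := Complex.differentiableOn_tsum_of_summable_norm (U := Metric.ball (0 : ℂ) r) hs
      (F := fun n (z : ℂ) => PowerSeries.coeff n c * z ^ n)
      (fun n => ((differentiable_id.pow n).const_mul _).differentiableOn) Metric.isOpen_ball
      (fun n w hw => by
        rw [mem_ball_zero_iff] at hw
        rw [norm_mul, norm_mul, norm_pow, norm_pow, hτ', Complex.norm_real,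
          Real.norm_of_nonneg hr0.le]
        gcongr)
    have hz' : z ∈ Metric.ball (0 : ℂ) r := by
      rw [mem_ball_zero_iff]
      exact hr1
    exact ((h1 z hz').differentiableAt (Metric.isOpen_ball.mem_nhds hz')).differentiableWithinAt
  · show ∑' n : ℕ, PowerSeries.coeff n c * (0 : ℂ) ^ n = _
    rw [tsum_eq_single 0 fun n hn => by rw [zero_pow hn, mul_zero], pow_zero, mul_one]
  · have h1 := (h τ).tsum_eq
    rw [pow_zero, one_mul] at h1
    exact h1

/-- Existence of the logarithm. -/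
lemma log_fun {G : ℂ → ℂ} (hG : DifferentiableOn ℂ G (Metric.ball 0 1)) (h0 : G 0 = 1)
    (hne : ∀ z ∈ Metric.ball (0 : ℂ) 1, G z ≠ 0) :
    ∃ L : ℂ → ℂ, DifferentiableOn ℂ L (Metric.ball 0 1) ∧ L 0 = 0 ∧
      ∀ z ∈ Metric.ball (0 : ℂ) 1, Complex.exp (L z) = G z := by
  have h1 : DifferentiableOn ℂ (fun z => deriv G z / G z) (Metric.ball 0 1) :=
    (hG.deriv Metric.isOpen_ball).div hG hne
  obtain ⟨L, hL0, hL⟩ := h1.isExactOn_ball.with_val_at 0 0
  have hLd : DifferentiableOn ℂ L (Metric.ball 0 1) := fun z hz =>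
    (hL z hz).differentiableAt.differentiableWithinAt
  refine ⟨L, hLd, hL0, ?_⟩
  have h0m : (0 : ℂ) ∈ Metric.ball (0 : ℂ) 1 := Metric.mem_ball_self one_pos
  have hd : ∀ z ∈ Metric.ball (0 : ℂ) 1, HasDerivAt (fun z => G z * Complex.exp (-(L z))) 0 z := by
    intro z hz
    have e1 : HasDerivAt G (deriv G z) z :=
      ((hG z hz).differentiableAt (Metric.isOpen_ball.mem_nhds hz)).hasDerivAt
    have e2 := e1.mul ((hL z hz).neg.cexp)
    refine e2.congr_deriv ?_
    have := hne z hz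
    simp only [Pi.neg_apply]
    field_simp
    ring
  have hc : ∀ z ∈ Metric.ball (0 : ℂ) 1, G z * Complex.exp (-(L z)) =
      G 0 * Complex.exp (-(L 0)) := by
    intro z hz
    exact IsOpen.is_const_of_deriv_eq_zero (f := fun z => G z * Complex.exp (-(L z)))
      Metric.isOpen_ball (convex_ball (0 : ℂ) 1).isPreconnected
      (fun w hw => (hd w hw).differentiableAt.differentiableWithinAt)
      (fun w hw => (hd w hw).deriv) hz h0m
  intro z hz
  have h2 := hc z hz
  rw [hL0, h0, neg_zero, Complex.exp_zero, mul_one, Complex.exp_neg] at h2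
  have h3 := Complex.exp_ne_zero (L z)
  field_simp at h2
  exact h2.symm

/-- The expansion of a function on the disc. -/
lemma qexp_of_disc {f : ℂ → ℂ} (hf : DifferentiableOn ℂ f (Metric.ball 0 1)) :
    QExp (fun τ => f (qq τ)) 0
      (PowerSeries.mk fun n => ((n.factorial : ℂ))⁻¹ * iteratedDeriv n f 0) := by
  intro τ
  have h1 := Complex.hasSum_taylorSeries_on_ball hf (qq_ball τ.im_pos)
  rw [pow_zero, one_mul]
  refine QMULP.hs_congr h1 (fun n => ?_) rfl
  rw [PowerSeries.coeff_mk, sub_zero, smul_eq_mul, smul_eq_mul]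
  ring

lemma ser_eq {g h : ℍ → ℂ} {a b : PowerSeries ℂ} (hg : QExp g 0 a) (hh : QExp h 0 b)
    (e : ∀ τ, g τ = h τ) : a = b := by
  have h1 : g = h := funext e
  rw [h1] at hg
  exact t_QMUL.2.2.1 h 0 a b hg hh

/-- The square root of a function without zeros on the disc. -/
lemma sqrt_fun {g : ℍ → ℂ} {c : PowerSeries ℂ} (h : QExp g 0 c) (h0 : PowerSeries.coeff 0 c = 1)
    (hg : ∀ τ, g τ ≠ 0) :
    ∃ (β : ℍ → ℂ) (a b : PowerSeries ℂ), (∀ τ, β τ ^ 2 = g τ) ∧ QExp β 0 a ∧
      QExp (fun τ => (β τ)⁻¹) 0 b ∧ a * b = 1 ∧ PowerSeries.coeff 0 a = 1 ∧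
      DifferentiableOn ℂ (β ∘ ofComplex) {z | 0 < z.im} := by
  obtain ⟨G, hG, hG0, hGg⟩ := disc_fun h
  rw [h0] at hG0
  have hne : ∀ z ∈ Metric.ball (0 : ℂ) 1, G z ≠ 0 := by
    intro z hz
    by_cases hz0 : z = 0
    · rw [hz0, hG0]
      exact one_ne_zero
    · rw [mem_ball_zero_iff] at hz
      obtain ⟨τ, hτ⟩ := QMULP.exists_tau hz0 hz
      rw [← hτ, hGg]
      exact hg τ
  obtain ⟨L, hL, hL0, hLG⟩ := log_fun hG hG0 hne
  have d1 : DifferentiableOn ℂ (fun z => Complex.exp (L z / 2)) (Metric.ball 0 1) :=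
    (hL.div_const 2).cexp
  have d2 : DifferentiableOn ℂ (fun z => Complex.exp (-(L z / 2))) (Metric.ball 0 1) :=
    (hL.div_const 2).neg.cexp
  have q1 := qexp_of_disc d1
  have q2 := qexp_of_disc d2
  have q2' : QExp (fun τ : ℍ => (Complex.exp (L (qq τ) / 2))⁻¹) 0
      (PowerSeries.mk fun n => ((n.factorial : ℂ))⁻¹ *
        iteratedDeriv n (fun z => Complex.exp (-(L z / 2))) 0) := by
    have e : (fun τ : ℍ => (Complex.exp (L (qq τ) / 2))⁻¹) =
        fun τ : ℍ => Complex.exp (-(L (qq τ) / 2)) := by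
      funext τ
      rw [Complex.exp_neg]
    rw [e]
    exact q2
  refine ⟨fun τ => Complex.exp (L (qq τ) / 2), _, _, fun τ => ?_, q1, q2', ?_, ?_, ?_⟩
  · rw [← Complex.exp_nat_mul, ← hGg τ, ← hLG _ (qq_ball τ.im_pos)]
    congr 1
    push_cast
    ring
  · have q3 := t_QMUL.1 _ _ 0 0 _ _ q1 q2'
    refine ser_eq q3 qexp_one fun τ => ?_
    exact mul_inv_cancel₀ (Complex.exp_ne_zero _)
  · rw [PowerSeries.coeff_mk, iteratedDeriv_zero, hL0]
    simp
  · have h1 : DifferentiableOn ℂ (fun z : ℂ => Complex.exp (L (qq z) / 2)) {z | 0 < z.im} := by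
      have h2 : DifferentiableOn ℂ (fun z : ℂ => qq z) {z | 0 < z.im} := fun z _ =>
        (hasDerivAt_qq z).differentiableAt.differentiableWithinAt
      exact DifferentiableOn.comp (g := fun z => Complex.exp (L z / 2)) d1 h2
        fun z hz => qq_ball hz
    refine h1.congr fun z hz => ?_
    show Complex.exp (L (qq ((ofComplex z : ℍ) : ℂ)) / 2) = _
    rw [ofComplex_apply_of_im_pos hz]

/-- Integrality of a square root. -/
lemma int_half {x v : PowerSeries ℂ} (hv : IsInt v) (h : x + x ^ 2 = v)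
    (h0 : PowerSeries.coeff 0 x = 0) : IsInt x := by
  intro n
  induction n using Nat.strong_induction_on with
  | _ n ih =>
    rcases Nat.eq_zero_or_pos n with hn | hn
    · subst hn
      exact ⟨0, by rw [h0]; simp⟩
    · have h1 := congrArg (PowerSeries.coeff n) h
      rw [map_add, pow_two, PowerSeries.coeff_mul] at h1
      have h2 : ∃ z : ℤ, ∑ p ∈ Finset.HasAntidiagonal.antidiagonal n,
          PowerSeries.coeff p.1 x * PowerSeries.coeff p.2 x = z := by
        have h3 : ∀ p ∈ Finset.HasAntidiagonal.antidiagonal n, ∃ z : ℤ,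
            PowerSeries.coeff p.1 x * PowerSeries.coeff p.2 x = z := by
          intro p hp
          rw [Finset.HasAntidiagonal.mem_antidiagonal] at hp
          by_cases hp1 : p.1 = 0
          · exact ⟨0, by rw [hp1, h0]; simp⟩
          by_cases hp2 : p.2 = 0
          · exact ⟨0, by rw [hp2, h0]; simp⟩
          obtain ⟨a, ha⟩ := ih p.1 (by omega)
          obtain ⟨b, hb⟩ := ih p.2 (by omega)
          exact ⟨a * b, by rw [ha, hb]; push_cast; rfl⟩
        choose! z hz using h3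
        refine ⟨∑ p ∈ Finset.HasAntidiagonal.antidiagonal n, z p, ?_⟩
        rw [Finset.sum_congr rfl hz]
        push_cast
        rfl
      obtain ⟨z, hz⟩ := h2
      obtain ⟨w, hw⟩ := hv n
      refine ⟨w - z, ?_⟩
      rw [hz, hw] at h1
      push_cast
      linear_combination h1

end OddA

end

end Pool.Agent.HS37.C3
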