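import Pool.Agent.HS37.C3.Stm
import Pool.Agent.HS37.CQ.Gex

/-!
# Project C3, piece PR23: the `q`-expansion principle (port of `CQ/Gex.lean`)
-/

set_option autoImplicit false

open UpperHalfPlane
open Pool.Agent.HS37.SP Pool.Agent.HS37.CQ

namespace Pool.Agent.HS37.C3

noncomputable section

open Pool.Agent.HS37.CQ.GEX

theorem pr23_aeval (hCLO : S_CLO3) {a a' : ℍ → ℂ} (h : Pt 0 a a') (G : Polynomial ℤ) :
    Pt 0 (fun τ => Polynomial.aeval (a τ) G) (fun τ => Polynomial.aeval (a' τ) G) := by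
  obtain ⟨-, cadd, csm, -, cpow, -, -⟩ := hCLO
  induction G using Polynomial.induction_on' with
  | add p q hp hq =>
    have := cadd 0 _ _ _ _ hp hq
    simpa only [map_add] using this
  | monomial n z =>
    have h1 := cpow 0 _ _ n h
    rw [mul_zero] at h1
    have h2 := csm 0 _ _ (z : ℂ) h1
    simpa [Polynomial.aeval_monomial] using h2

/-- prescribed polar parts -/
theorem pr23_gex (hPRE : S_PRE3) : ∀ (M R : ℕ) (z z' : ℕ → ℤ), ∃ (G₁ G₂ : Polynomial ℤ) (g g' : PowerSeries ℂ),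
    QExp (fun τ => Polynomial.aeval (gh τ) G₁ + Polynomial.aeval (729 / gh τ) G₂) M g ∧
    QExp (fun τ => Polynomial.aeval (729 / gh τ) G₁ + Polynomial.aeval (gh τ) G₂) R g' ∧
    (∀ i < M, PowerSeries.coeff i g = z i) ∧ (∀ i ≤ R, PowerSeries.coeff i g' = z' i) := by
  intro M R z z'
  obtain ⟨-, -, -, -, -, -, -, -, -, -, ⟨c, hc1, hc2, hc3⟩, ⟨d, hd1, hd2, hd3⟩⟩ := hPRE
  obtain ⟨G₁, g₁, a1, a2, a3, a4⟩ := presc hc1 hc2 hc3 M z M (by omega)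
  obtain ⟨G₂, g₂, b1, b2, b3, b4⟩ := presc hc1 hc2 hc3 R z' (R + 1) le_rfl
  obtain ⟨k₁, c1, c2, c3⟩ := poly_exp hd1 hd2 hd3 G₁
  obtain ⟨k₂, d1, d2, -⟩ := poly_exp hd1 hd2 hd3 G₂
  refine ⟨G₁, G₂, g₁ + PowerSeries.X ^ M * k₂, PowerSeries.X ^ R * k₁ + g₂, ?_, ?_, ?_, ?_⟩
  · have h := t_QMUL.2.2.2.2.1 _ _ M _ d1
    rw [zero_add] at h
    exact t_QMUL.2.1 _ _ _ _ _ a2 h
  · have h := t_QMUL.2.2.2.2.1 _ _ R _ c1
    rw [zero_add] at h
    exact t_QMUL.2.1 _ _ _ _ _ h b2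
  · intro i hi
    rw [map_add, a4 i hi, PowerSeries.coeff_X_pow_mul', if_neg (by omega), add_zero]
  · intro i hi
    rw [map_add, b4 i (by omega), PowerSeries.coeff_X_pow_mul']
    split_ifs with h
    · have : i = R := by omega
      subst this
      rw [Nat.sub_self, c3, a1 0 (by omega)]
      simp
    · rw [zero_add]

theorem t_PR23 (hCON : S_CON3) (hPRE : S_PRE3) (hCLO : S_CLO3) : S_PR23 := by
  intro F F' m m' c c' hF hc hc' h1 h2
  have hz : ∀ i, ∃ z : ℤ, i < m → PowerSeries.coeff i c = z := by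
    intro i
    by_cases hi : i < m
    · obtain ⟨z, hz⟩ := h1 i hi
      exact ⟨z, fun _ => hz⟩
    · exact ⟨0, fun h => absurd h hi⟩
  have hz' : ∀ i, ∃ z : ℤ, i ≤ m' → PowerSeries.coeff i c' = z := by
    intro i
    by_cases hi : i ≤ m'
    · obtain ⟨z, hz⟩ := h2 i hi
      exact ⟨z, fun _ => hz⟩
    · exact ⟨0, fun h => absurd h hi⟩
  choose z hz using hz
  choose z' hz' using hz'
  obtain ⟨G₁, G₂, g, g', e1, e2, e3, e4⟩ := pr23_gex hPRE m m' z z'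
  have hh : Pt 0 gh (fun τ => 729 / gh τ) := hPRE.2.2.2.2.2.1
  have hh' := hCLO.2.2.2.2.2.2 0 _ _ hh
  have hG : Pt 0 (fun τ => Polynomial.aeval (gh τ) G₁ + Polynomial.aeval (729 / gh τ) G₂)
      (fun τ => Polynomial.aeval (729 / gh τ) G₁ + Polynomial.aeval (gh τ) G₂) :=
    hCLO.2.1 0 _ _ _ _ (pr23_aeval hCLO hh G₁) (pr23_aeval hCLO hh' G₂)
  have hD := hCLO.2.1 0 _ _ _ _ hF (hCLO.2.2.1 0 _ _ (-1) hG)
  have hq := t_QMUL.2.1 _ _ _ _ _ hc (t_QMUL.2.2.2.1 _ _ _ (-1) e1)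
  have hq' := t_QMUL.2.1 _ _ _ _ _ hc' (t_QMUL.2.2.2.1 _ _ _ (-1) e2)
  obtain ⟨r, hr⟩ : PowerSeries.X ^ m ∣ c + PowerSeries.C (-1 : ℂ) * g := by
    rw [PowerSeries.X_pow_dvd_iff]
    intro i hi
    rw [map_add, PowerSeries.coeff_C_mul, hz i hi, e3 i hi]
    ring
  obtain ⟨r', hr'⟩ : PowerSeries.X ^ m' ∣ c' + PowerSeries.C (-1 : ℂ) * g' := by
    rw [PowerSeries.X_pow_dvd_iff]
    intro i hi
    rw [map_add, PowerSeries.coeff_C_mul, hz' i hi.le, e4 i hi.le]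
    ring
  have hr0 : PowerSeries.coeff 0 r' = 0 := by
    have h := congrArg (PowerSeries.coeff m') hr'
    rw [map_add, PowerSeries.coeff_C_mul, hz' m' le_rfl, e4 m' le_rfl,
      PowerSeries.coeff_X_pow_mul', if_pos le_rfl, Nat.sub_self] at h
    rw [← h]
    ring
  rw [hr] at hq
  rw [hr'] at hq'
  have hq0 := t_QMUL.2.2.2.2.2 _ 0 m r (by rw [zero_add]; exact hq)
  have hq0' := t_QMUL.2.2.2.2.2 _ 0 m' r' (by rw [zero_add]; exact hq')
  have k1 := hCON _ _ _ _ hD hq0 hq0'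
  have k2 := hCON _ _ _ _ (hCLO.2.2.2.2.2.2 0 _ _ hD) hq0' hq0
  refine ⟨G₁, G₂, fun τ => ?_⟩
  have k3 := hD.fr τ
  rw [k1 (fri3 τ), k2 τ, hr0, mul_zero] at k3
  have k4 := k1 τ
  rw [k3] at k4
  linear_combination k4

end

end Pool.Agent.HS37.C3
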