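import Pool.Agent.HS37.C3.Stm

set_option autoImplicit false

/-! Piece PRE3 of project C3 (helper78). -/

open UpperHalfPlane ModularForm ModularFormClass MatrixGroups EisensteinSeries Complex
open Pool.Agent.HS37.SP Pool.Agent.HS37.CQ

namespace Pool.Agent.HS37.C3

namespace PRE3

lemma isInt_iff (c : PowerSeries ℂ) :
    IsInt c ↔ c ∈ (PowerSeries.map (Int.castRingHom ℂ)).range := by
  constructor
  · intro h
    choose z hz using h
    refine ⟨PowerSeries.mk z, ?_⟩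
    ext n
    rw [PowerSeries.coeff_map, PowerSeries.coeff_mk, hz]
    rfl
  · rintro ⟨D, rfl⟩ n
    exact ⟨PowerSeries.coeff n D, by rw [PowerSeries.coeff_map]; rfl⟩

lemma inv_int {c : PowerSeries ℂ} (hc : IsInt c) (h0 : PowerSeries.coeff 0 c = 1) :
    IsInt c⁻¹ ∧ c * c⁻¹ = 1 ∧ PowerSeries.coeff 0 c⁻¹ = 1 := by
  have h0' : PowerSeries.constantCoeff c ≠ 0 := by
    rw [← PowerSeries.coeff_zero_eq_constantCoeff_apply, h0]
    exact one_ne_zero
  have hm : c * c⁻¹ = 1 := PowerSeries.mul_inv_cancel c h0'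
  refine ⟨?_, hm, ?_⟩
  · rw [isInt_iff] at hc ⊢
    obtain ⟨D, rfl⟩ := hc
    have h1 : PowerSeries.constantCoeff D = 1 := by
      rw [PowerSeries.coeff_map] at h0
      rw [← PowerSeries.coeff_zero_eq_constantCoeff_apply]
      exact_mod_cast (show ((PowerSeries.coeff 0 D : ℤ) : ℂ) = 1 from h0)
    have h2 : D * PowerSeries.invOfUnit D 1 = 1 := PowerSeries.mul_invOfUnit D 1 (by simp [h1])
    refine ⟨PowerSeries.invOfUnit D 1, ?_⟩
    have h3 : PowerSeries.map (Int.castRingHom ℂ) D *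
        PowerSeries.map (Int.castRingHom ℂ) (PowerSeries.invOfUnit D 1) = 1 := by
      rw [← map_mul, h2, map_one]
    rw [PowerSeries.eq_inv_iff_mul_eq_one h0', mul_comm]
    exact h3
  · rw [PowerSeries.coeff_zero_eq_constantCoeff_apply, PowerSeries.constantCoeff_inv,
      ← PowerSeries.coeff_zero_eq_constantCoeff_apply, h0, inv_one]

lemma coeff0_mul (c d : PowerSeries ℂ) : PowerSeries.coeff 0 (c * d) =
    PowerSeries.coeff 0 c * PowerSeries.coeff 0 d := by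
  simp

lemma congr {g h : ℍ → ℂ} {c d : PowerSeries ℂ} {e f : ℕ} (hg : QExp g e c)
    (h1 : ∀ τ, g τ = h τ) (h2 : c = d) (h3 : e = f) : QExp h f d := by
  have : g = h := funext h1
  rw [← this, ← h2, ← h3]
  exact hg

lemma ptc {g g' h h' : ℍ → ℂ} {k l : ℤ} (hg : Pt k g g') (h1 : ∀ τ, g τ = h τ)
    (h2 : ∀ τ, g' τ = h' τ) (h3 : k = l) : Pt l h h' := by
  have e1 : g = h := funext h1
  have e2 : g' = h' := funext h2
  rw [← e1, ← e2, ← h3]
  exact hg

lemma shift {c : PowerSeries ℂ} (h0 : PowerSeries.coeff 0 c = 0) :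
    c = PowerSeries.X * PowerSeries.mk fun n => PowerSeries.coeff (n + 1) c := by
  ext n
  cases n with
  | zero => rw [h0, coeff0_mul]; simp
  | succ n => rw [PowerSeries.coeff_succ_X_mul, PowerSeries.coeff_mk]

lemma shift_int {c : PowerSeries ℂ} (h : IsInt c) :
    IsInt (PowerSeries.mk fun n => PowerSeries.coeff (n + 1) c) := by
  intro n
  obtain ⟨z, hz⟩ := h (n + 1)
  exact ⟨z, by rw [PowerSeries.coeff_mk, hz]⟩

lemma natInt (n : ℕ) : IsInt (n : PowerSeries ℂ) := by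
  rw [isInt_iff]
  exact natCast_mem _ n

end PRE3

open PRE3

theorem t_PRE3 (hr : S_REL3) (hb : S_BAS3) (hx : S_EXP3) (hc : S_CLO3) (he : S_EIS)
    (hq : S_QMUL) : S_PRE3 := by
  obtain ⟨r1, -, -, -, r5, r6, r7, -, r9, -, rD, rD3, nD, nF, nG⟩ := hr
  obtain ⟨hbas, hP, hexp⟩ := hb
  obtain ⟨qe, qs, qP, qF, qG, qD, ie, is, iP, -, -, -, -, -, cP0, -, -, cF0, cF1, -, cG0,
    cD0, cD1⟩ := hx
  obtain ⟨hmul, hadd, hsc, hconst, hpow, hinv, hsym⟩ := hc
  obtain ⟨⟨w4, -, -⟩, ⟨w6, -, -⟩, -, -, ⟨c, -, qDi, -, -⟩⟩ := he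
  obtain ⟨qmul, -, quni, qsc, qup, qsh⟩ := hq
  have p4 : Pt 4 (fun τ => E₄ τ) (fun τ => 9 * E₄ (trp τ)) := by
    refine ptc (hbas 2 (fun τ => E₄ τ) (by exact_mod_cast w4)) (fun τ => rfl) ?_ (by norm_num)
    intro τ
    norm_num
  have p6 : Pt 6 (fun τ => E₆ τ) (fun τ => -27 * E₆ (trp τ)) := by
    refine ptc (hbas 3 (fun τ => E₆ τ) (by exact_mod_cast w6)) (fun τ => rfl) ?_ (by norm_num)
    intro τ
    norm_num
  have pe : Pt 4 ge (fun τ => gs τ / 27) := by
    refine ptc (hsc 4 _ _ (1 / 240) (hadd 4 _ _ _ _ p4 (hsc 4 _ _ (-1 / 9) (hsym 4 _ _ p4))))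
      ?_ ?_ rfl
    · intro τ
      rw [ge]
      ring
    · intro τ
      rw [gs]
      ring
  have ps : Pt 4 gs (fun τ => 27 * ge τ) := by
    refine ptc (hsc 4 _ _ 27 (hsym 4 _ _ pe)) ?_ ?_ rfl
    · intro τ
      ring
    · intro τ
      rfl
  have peP := hmul 4 2 _ _ _ _ pe hP
  have pP3 : Pt 6 (fun τ => gP τ ^ 3) (fun τ => gP τ ^ 3) :=
    ptc (hpow 2 _ _ 3 hP) (fun τ => rfl) (fun τ => rfl) (by norm_num)
  have pF : Pt 6 gF (fun τ => gG τ / 729) := by
    refine ptc (hsc 6 _ _ (1 / 5832) (hadd 6 _ _ _ _ pP3 (hadd 6 _ _ _ _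
      (hsc 6 _ _ (-540) (ptc peP (fun τ => rfl) (fun τ => rfl) (by norm_num)))
      (hsc 6 _ _ (-1) p6)))) ?_ ?_ rfl
    · intro τ
      rw [gF]
      ring
    · intro τ
      have h1 := r1 τ
      have h5 := r5 τ
      have hs : gs τ = gP τ ^ 2 - 27 * ge τ := by rw [h1]; ring
      rw [gG, h5, hs]
      ring
  have pG : Pt 6 gG (fun τ => 729 * gF τ) := by
    refine ptc (hsc 6 _ _ 729 (hsym 6 _ _ pF)) ?_ ?_ rfl
    · intro τ
      ring
    · intro τ
      rfl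
  have pD : Pt 6 gD gD := by
    refine ptc (hadd 6 _ _ _ _ (ptc peP (fun τ => rfl) (fun τ => rfl) (by norm_num))
      (hsc 6 _ _ (-27) pF)) ?_ ?_ rfl
    · intro τ
      rw [gD]
      ring
    · intro τ
      have h9 := r9 τ
      have : gG τ = gP τ * gs τ - 27 * gD τ := by rw [h9]; ring
      rw [this]
      ring
  have ph : Pt 0 gh (fun τ => 729 / gh τ) := by
    refine ptc (hmul 6 (-6) _ _ _ _ pG (hinv 6 _ _ pD nD nD)) ?_ ?_ (by norm_num)
    · intro τ
      rw [gh]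
      rfl
    · intro τ
      rw [gh]
      have h1 := nD τ
      have h2 := nG τ
      have h7 := r7 τ
      field_simp
      rw [h7]
  -- integrality
  have hePF : de ^ 2 = dP * dF := by
    refine quni (fun τ => gP τ * gF τ) 0 _ _ ?_ (qmul _ _ 0 0 _ _ qP qF)
    refine congr (qmul _ _ 0 0 _ _ qe qe) ?_ (by ring) rfl
    intro τ
    rw [← r6 τ]
    ring
  obtain ⟨iPi, hPi, -⟩ := inv_int iP cP0
  have iF : IsInt dF := by
    have h1 : dF = de ^ 2 * dP⁻¹ := by
      rw [hePF]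
      calc dF = dF * (dP * dP⁻¹) := by rw [hPi, mul_one]
        _ = dP * dF * dP⁻¹ := by ring
    rw [h1]
    rw [isInt_iff] at *
    exact mul_mem (pow_mem ie 2) iPi
  have iG : IsInt dG := by
    unfold dG
    have h54 := natInt 54
    have h729 := natInt 729
    rw [isInt_iff] at *
    exact add_mem (sub_mem (pow_mem iP 3) (mul_mem (mul_mem (by exact_mod_cast h54) ie) iP))
      (mul_mem (by exact_mod_cast h729) iF)
  have iD : IsInt dD := by
    unfold dD
    have h27 := natInt 27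
    rw [isInt_iff] at *
    exact sub_mem (mul_mem ie iP) (mul_mem (by exact_mod_cast h27) iF)
  -- the inverse of D
  obtain ⟨u, hu⟩ : ∃ u, u = PowerSeries.mk fun n => PowerSeries.coeff (n + 1) dD := ⟨_, rfl⟩
  have hDu : dD = PowerSeries.X * u := by rw [hu]; exact shift cD0
  have iu : IsInt u := by rw [hu]; exact shift_int iD
  have cu0 : PowerSeries.coeff 0 u = 1 := by rw [hu, PowerSeries.coeff_mk]; exact cD1
  obtain ⟨iui, hui, cui0⟩ := inv_int iu cu0
  have hDne : dD ≠ 0 := by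
    intro h
    rw [h, map_zero] at cD1
    exact zero_ne_one cD1
  have qw : QExp (fun τ => (gD τ)⁻¹) 4 (dD * dD * dD * (c * vps 3 c)) := by
    refine congr (qmul _ _ _ _ _ _ (qmul _ _ _ _ _ _ (qmul _ _ _ _ _ _ qD qD) qD)
      (qmul _ _ _ _ _ _ qDi (hexp _ 1 _ qDi))) ?_ rfl (by norm_num)
    intro τ
    rw [rD τ, rD3 τ]
    have h1 := nD τ
    have h2 := nF τ
    have h3 := nG τ
    have h7 := r7 τ
    have h4 : (gD τ * gG τ)⁻¹ * (gD τ * gF τ)⁻¹ = (gD τ ^ 4)⁻¹ := by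
      rw [← mul_inv]
      congr 1
      calc gD τ * gG τ * (gD τ * gF τ) = gD τ ^ 2 * (gF τ * gG τ) := by ring
        _ = gD τ ^ 4 := by rw [← h7]; ring
    rw [h4]
    field_simp
  obtain ⟨w, hw⟩ : ∃ w, w = dD * dD * dD * (c * vps 3 c) := ⟨_, rfl⟩
  rw [← hw] at qw
  have hw1 : dD * w = PowerSeries.X ^ 4 := by
    have h1 : dD * (dD * w) = dD * PowerSeries.X ^ 4 := by
      refine quni gD 4 _ _ ?_ ?_
      · refine congr (qmul _ _ 0 4 _ _ qD (qmul _ _ 0 4 _ _ qD qw)) ?_ rfl rfl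
        intro τ
        have h1 := nD τ
        field_simp
      · exact congr (qup _ 0 4 _ qD) (fun τ => rfl) (by ring) rfl
    exact mul_left_cancel₀ hDne h1
  have hw2 : w = PowerSeries.X ^ 3 * u⁻¹ := by
    have h1 : (PowerSeries.X : PowerSeries ℂ) * (u * w) = PowerSeries.X * PowerSeries.X ^ 3 := by
      calc (PowerSeries.X : PowerSeries ℂ) * (u * w) = PowerSeries.X * u * w := by ring
        _ = dD * w := by rw [← hDu]
        _ = PowerSeries.X ^ 4 := hw1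
        _ = _ := by ring
    have h2 : u * w = PowerSeries.X ^ 3 := mul_left_cancel₀ PowerSeries.X_ne_zero h1
    calc w = w * (u * u⁻¹) := by rw [hui, mul_one]
      _ = (u * w) * u⁻¹ := by ring
      _ = _ := by rw [h2]
  have qDinv : QExp (fun τ => (gD τ)⁻¹) 1 u⁻¹ := by
    refine qsh _ 1 3 _ ?_
    rw [← hw2]
    exact qw
  obtain ⟨v, hv⟩ : ∃ v, v = PowerSeries.mk fun n => PowerSeries.coeff (n + 1) dF := ⟨_, rfl⟩
  have hFv : dF = PowerSeries.X * v := by rw [hv]; exact shift cF0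
  have iv : IsInt v := by rw [hv]; exact shift_int iF
  have cv0 : PowerSeries.coeff 0 v = 0 := by rw [hv, PowerSeries.coeff_mk]; exact cF1
  refine ⟨pe, ps, pF, pG, pD, ph, iF, iG, iD, ⟨u⁻¹, qDinv, iui, ?_, cui0⟩, ?_, ?_⟩
  · rw [hDu, mul_assoc, hui, mul_one]
  · refine ⟨dG * u⁻¹, ?_, ?_, ?_⟩
    · exact congr (qmul _ _ 0 1 _ _ qG qDinv) (fun τ => rfl) rfl rfl
    · rw [isInt_iff] at *
      exact mul_mem iG iui
    · rw [coeff0_mul, cG0, cui0, one_mul]
  · have q1 : QExp (fun τ => gF τ * (gD τ)⁻¹) 0 (v * u⁻¹) := by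
      refine qsh _ 0 1 _ ?_
      refine congr (qmul _ _ 0 1 _ _ qF qDinv) (fun τ => rfl) ?_ rfl
      rw [hFv]
      ring
    refine ⟨PowerSeries.C 729 * (v * u⁻¹), ?_, ?_, ?_⟩
    · refine congr (qsc _ 0 _ 729 q1) ?_ rfl rfl
      intro τ
      rw [gh]
      have h1 := nD τ
      have h2 := nG τ
      have h7 := r7 τ
      field_simp
      rw [h7]
    · rw [isInt_iff] at *
      refine mul_mem ⟨PowerSeries.C 729, ?_⟩ (mul_mem iv iui)
      rw [PowerSeries.map_C]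
      norm_num
    · rw [coeff0_mul, coeff0_mul, cv0, zero_mul, mul_zero]

end Pool.Agent.HS37.C3
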