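import Pool.Agent.HS37.C3.Stm
import Pool.Agent.HS37.CQ.Ram

/-!
# Project C3: piece RAM3 (helper82)
-/

set_option autoImplicit false

open UpperHalfPlane ModularForm ModularFormClass MatrixGroups EisensteinSeries Derivative
open Pool.Agent.HS37.SP Pool.Agent.HS37.CQ

namespace Pool.Agent.HS37.C3

noncomputable section

namespace R82

open Pool.Agent.HS37.CQ.HK70R

lemma tht_vps3 (c : PowerSeries ℂ) : tht (vps 3 c) = 3 * vps 3 (tht c) := by
  ext n
  rw [show (3 : PowerSeries ℂ) = PowerSeries.C (3 : ℂ) by rw [map_ofNat], PowerSeries.coeff_C_mul]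
  simp only [tht, vps, PowerSeries.coeff_mk]
  by_cases h : 3 ∣ n
  · obtain ⟨m, rfl⟩ := h
    rw [if_pos (dvd_mul_right 3 m), if_pos (dvd_mul_right 3 m), Nat.mul_div_cancel_left _ three_pos]
    push_cast
    ring
  · rw [if_neg h, if_neg h]
    ring

lemma tht_mul' (a b : PowerSeries ℂ) : tht (a * b) = tht a * b + a * tht b := by
  ext n
  rw [map_add, PowerSeries.coeff_mul, PowerSeries.coeff_mul, ← Finset.sum_add_distrib]
  simp only [tht, PowerSeries.coeff_mk]
  rw [PowerSeries.coeff_mul, Finset.mul_sum]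
  refine Finset.sum_congr rfl fun x hx => ?_
  rw [← Finset.HasAntidiagonal.mem_antidiagonal.1 hx]
  push_cast
  ring

end R82

open R82 Pool.Agent.HS37.CQ.HK70R in
theorem t_RAM3 (hR : S_REL3) (hE : S_EXP3) (hB : S_BAS3) : S_RAM3 := by
  obtain ⟨r1, r2, r3, r4, r5, r6, r7, r8, r9, -⟩ := hR
  obtain ⟨xe, xs, xP, xF, xG, xD, -, -, -, -, -, -, -, -, cP0, -⟩ := hE
  obtain ⟨-, -, bd⟩ := hB
  obtain ⟨-, -, -, b2⟩ := t_BAS
  obtain ⟨⟨-, x4, -⟩, ⟨-, x6, -⟩, -⟩ := t_EIS
  obtain ⟨qm, qa, -, qs, -⟩ := t_QMUL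
  have qm' : ∀ (g h : ℍ → ℂ) (c c' : PowerSeries ℂ), QExp g 0 c → QExp h 0 c' →
    QExp (fun τ => g τ * h τ) 0 (c * c') := fun g h c c' h1 h2 => qm g h 0 0 c c' h1 h2
  have y2 := bd _ _ _ b2
  have y4 := bd _ _ _ x4
  have d2 := qexp_D b2
  have d4 := qexp_D x4
  have e2 := bd _ _ _ d2
  have e4 := bd _ _ _ d4
  have y6 := bd _ _ _ x6
  simp only [mul_zero] at y2 y4 y6 e2 e4
  -- series identities
  have s1 : dP * dP = ds + PowerSeries.C 27 * de :=
    ser_eq (qm' _ _ _ _ xP xP) (qa _ _ _ _ _ xs (qs _ _ _ 27 xe)) fun τ => by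
      rw [← pow_two, r1]
  have s4 : eis 4 = dP * dP + PowerSeries.C 216 * de :=
    ser_eq x4 (qa _ _ _ _ _ (qm' _ _ _ _ xP xP) (qs _ _ _ 216 xe)) fun τ => by
      show E₄ τ = _
      rw [← pow_two, r2]
  have s4' : vps 3 (eis 4) + PowerSeries.C 24 * de = dP * dP :=
    ser_eq (qa _ _ _ _ _ y4 (qs _ _ _ 24 xe)) (qm' _ _ _ _ xP xP) fun τ => by
      show E₄ (trp τ) + _ = _
      rw [r3]
      ring
  have s6 : eis 6 + (PowerSeries.C 540 * (de * dP) + PowerSeries.C 5832 * dF) = dP * (dP * dP) :=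
    ser_eq (qa _ _ _ _ _ x6 (qa _ _ _ _ _ (qs _ _ _ 540 (qm' _ _ _ _ xe xP)) (qs _ _ _ 5832 xF)))
      (qm' _ _ _ _ xP (qm' _ _ _ _ xP xP)) fun τ => by
      show E₆ τ + _ = _
      rw [r4]
      ring
  have s6' : vps 3 (eis 6) + PowerSeries.C 36 * (de * dP) = dP * (dP * dP) + PowerSeries.C 216 * dF :=
    ser_eq (qa _ _ _ _ _ y6 (qs _ _ _ 36 (qm' _ _ _ _ xe xP)))
      (qa _ _ _ _ _ (qm' _ _ _ _ xP (qm' _ _ _ _ xP xP)) (qs _ _ _ 216 xF)) fun τ => by
      show E₆ (trp τ) + _ = _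
      rw [r5]
      ring
  have u6 : de * de = dP * dF := ser_eq (qm' _ _ _ _ xe xe) (qm' _ _ _ _ xP xF) fun τ => by
    rw [← pow_two, r6]
  have u7 : dD * dD = dF * dG := ser_eq (qm' _ _ _ _ xD xD) (qm' _ _ _ _ xF xG) fun τ => by
    rw [← pow_two, r7]
  have u8 : de * ds = dP * dD := ser_eq (qm' _ _ _ _ xe xs) (qm' _ _ _ _ xP xD) fun τ => by
    rw [r8]
  have u9 : dP * ds = dG + PowerSeries.C 27 * dD :=
    ser_eq (qm' _ _ _ _ xP xs) (qa _ _ _ _ _ xG (qs _ _ _ 27 xD)) fun τ => by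
      rw [r9]
  have t2 : PowerSeries.C 12 * tht (eis 2) + eis 4 = eis 2 * eis 2 :=
    ser_eq (qa _ _ _ _ _ (qs _ _ _ 12 d2) x4) (qm' _ _ _ _ b2 b2) fun τ => by
      rw [Pool.Agent.Y949.J.ram2]
      ring
  have t2' : PowerSeries.C 12 * vps 3 (tht (eis 2)) + vps 3 (eis 4) = vps 3 (eis 2) * vps 3 (eis 2) :=
    ser_eq (qa _ _ _ _ _ (qs _ _ _ 12 e2) y4) (qm' _ _ _ _ y2 y2) fun τ => by
      rw [Pool.Agent.Y949.J.ram2]
      ring
  have t4 : PowerSeries.C 3 * tht (eis 4) + eis 6 = eis 2 * eis 4 :=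
    ser_eq (qa _ _ _ _ _ (qs _ _ _ 3 d4) x6) (qm' _ _ _ _ b2 x4) fun τ => by
      rw [Pool.Agent.Y949.J.ram4]
      ring
  have t4' : PowerSeries.C 3 * vps 3 (tht (eis 4)) + vps 3 (eis 6) = vps 3 (eis 2) * vps 3 (eis 4) :=
    ser_eq (qa _ _ _ _ _ (qs _ _ _ 3 e4) y6) (qm' _ _ _ _ y2 y4) fun τ => by
      rw [Pool.Agent.Y949.J.ram4]
      ring
  have c2 := tht_vps3 (eis 2)
  have c4 := tht_vps3 (eis 4)
  simp only [map_ofNat] at s1 s4 s4' s6 s6' u9 t2 t2' t4 t4'
  -- inverses of integers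
  have i240 : PowerSeries.C (1 / 240 : ℂ) * 240 = 1 := by
    rw [show (240 : PowerSeries ℂ) = PowerSeries.C (240 : ℂ) by rw [map_ofNat], ← map_mul]
    norm_num
  have i2 : PowerSeries.C (1 / 2 : ℂ) * 2 = 1 := by
    rw [show (2 : PowerSeries ℂ) = PowerSeries.C (2 : ℂ) by rw [map_ofNat], ← map_mul]
    norm_num
  have i4 : PowerSeries.C (1 / 4 : ℂ) * 4 = 1 := by
    rw [show (4 : PowerSeries ℂ) = PowerSeries.C (4 : ℂ) by rw [map_ofNat], ← map_mul]
    norm_num
  have tde : 240 * de = eis 4 - vps 3 (eis 4) := by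
    unfold de
    linear_combination (eis 4 - vps 3 (eis 4)) * i240
  have tdP : 2 * dP = 3 * vps 3 (eis 2) - eis 2 := by
    unfold dP
    linear_combination (3 * vps 3 (eis 2) - eis 2) * i2
  have tdA : 4 * dA = eis 2 + 3 * vps 3 (eis 2) := by
    unfold dA
    linear_combination (eis 2 + 3 * vps 3 (eis 2)) * i4
  have n2 : ∀ a : PowerSeries ℂ, tht (2 * a) = 2 * tht a := fun a => by
    have := tht_C 2 a
    rwa [map_ofNat] at this
  have n3 : ∀ a : PowerSeries ℂ, tht (3 * a) = 3 * tht a := fun a => by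
    have := tht_C 3 a
    rwa [map_ofNat] at this
  have n4 : ∀ a : PowerSeries ℂ, tht (4 * a) = 4 * tht a := fun a => by
    have := tht_C 4 a
    rwa [map_ofNat] at this
  have n27 : ∀ a : PowerSeries ℂ, tht (27 * a) = 27 * tht a := fun a => by
    have := tht_C 27 a
    rwa [map_ofNat] at this
  have n240 : ∀ a : PowerSeries ℂ, tht (240 * a) = 240 * tht a := fun a => by
    have := tht_C 240 a
    rwa [map_ofNat] at this
  have dde := congrArg tht tde
  rw [n240, tht_sub, c4] at dde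
  have ddA := congrArg tht tdA
  rw [n4, tht_add, n3, c2] at ddA
  have ddP := congrArg tht tdP
  rw [n2, tht_sub, n3, c2] at ddP
  have h2ne : (2 : PowerSeries ℂ) ≠ 0 := by
    rw [← map_ofNat PowerSeries.C 2]
    exact C_ne (by norm_num)
  have e2' : eis 2 = 2 * dA - dP := by
    apply mul_left_cancel₀ h2ne
    linear_combination tdP - tdA
  have v2' : 3 * vps 3 (eis 2) = dP + 2 * dA := by
    apply mul_left_cancel₀ h2ne
    linear_combination -tdP - tdA
  have v4' : vps 3 (eis 4) = dP * dP - 24 * de := by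
    linear_combination s4'
  have e6' : eis 6 = dP * (dP * dP) - 540 * (de * dP) - 5832 * dF := by
    linear_combination s6
  have v6' : vps 3 (eis 6) = dP * (dP * dP) - 36 * (de * dP) + 216 * dF := by
    linear_combination s6'
  have T4 : 3 * tht (eis 4) + (dP * (dP * dP) - 540 * (de * dP) - 5832 * dF) =
      (2 * dA - dP) * (dP * dP + 216 * de) := by
    rw [← e2', ← s4, ← e6']
    exact t4
  have T4' : 9 * vps 3 (tht (eis 4)) + 3 * (dP * (dP * dP) - 36 * (de * dP) + 216 * dF) =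
      (dP + 2 * dA) * (dP * dP - 24 * de) := by
    rw [← v2', ← v4', ← v6']
    linear_combination 3 * t4'
  have T2 : 12 * tht (eis 2) + (dP * dP + 216 * de) = (2 * dA - dP) * (2 * dA - dP) := by
    rw [← e2', ← s4]
    exact t2
  have T2' : 108 * vps 3 (tht (eis 2)) + 9 * (dP * dP - 24 * de) = (dP + 2 * dA) * (dP + 2 * dA) := by
    rw [← v2', ← v4']
    linear_combination 9 * t2'
  have f3 : 3 * tht dP = dP * dA - dP ^ 2 + 54 * de := by
    have h8 : (8 : PowerSeries ℂ) ≠ 0 := by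
      rw [← map_ofNat PowerSeries.C 8]
      exact C_ne (by norm_num)
    apply mul_left_cancel₀ h8
    linear_combination 12 * ddP - T2 + T2'
  have h3ne : (3 : PowerSeries ℂ) ≠ 0 := by
    rw [← map_ofNat PowerSeries.C 3]
    exact C_ne (by norm_num)
  have h3 : 3 * tht de = 2 * dA * de + de * dP + 27 * dF := by
    have h240 : (240 : PowerSeries ℂ) ≠ 0 := by
      rw [← map_ofNat PowerSeries.C 240]
      exact C_ne (by norm_num)
    apply mul_left_cancel₀ h240
    linear_combination 3 * dde + T4 - T4'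
  have hPne : dP ≠ 0 := by
    intro h
    rw [h, map_zero] at cP0
    exact zero_ne_one cP0
  have hF : tht dF = dF * (dA + dP) := by
    have h1 := congrArg tht u6
    rw [tht_mul', tht_mul'] at h1
    apply mul_left_cancel₀ (mul_ne_zero h3ne hPne)
    linear_combination -3 * h1 + 2 * de * h3 - dF * f3 + (4 * dA + 2 * dP) * u6
  refine ⟨by rw [pow_two]; exact s1, by rw [pow_two]; exact u6, u9, u8, by rw [pow_two]; exact u7, f3, ?_, h3, hF, ?_⟩
  · have h1 : tht dD = tht de * dP + de * tht dP - 27 * tht dF := by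
      unfold dD
      rw [tht_sub, tht_mul', n27]
    apply mul_left_cancel₀ h3ne
    have h2 : dD = de * dP - 27 * dF := rfl
    rw [h1, h2]
    linear_combination dP * h3 + de * f3 - 81 * hF + 54 * u6
  · have h8 : (8 : PowerSeries ℂ) ≠ 0 := by
      rw [← map_ofNat PowerSeries.C 8]
      exact C_ne (by norm_num)
    apply mul_left_cancel₀ h8
    linear_combination 12 * ddA + T2 + T2'

end

end Pool.Agent.HS37.C3
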