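import Pool.Agent.HS37.CQ.Stm

/-!
# Project C3: supercongruences modulo `p²` for `∑ C(2k,k)² C(3k,k) / c^k` (level 3)

Targets: MP_d8ed36_nt Q1 (frozen statement S18649, `c = 64`, `D = -11`), MP_096b72_nt Q2 (`c = -192`, `D = -27`), and
others (MP_cf6277_nt, MP_d4325e_nt, MP_5c57f5_nt, MP_18afd0_nt, MP_ccf7f2_nt).

The same method as in project CQ (level 2; `Pool/Agent/HS37/CQ`, complete), with two changes: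
* odd weights occur (`β = b³` of weight `3` with the character modulo `3`), so the structure `Pt` has a
  character: `g(γ τ) = (χ(d) (c τ + d))^k g(τ)`, and `g(-1/(3τ)) = (-i √3 τ)^k g'(τ)`;
* the terms have weight `-1` only, so instead of all power sums of `X(Λ')` one uses the sums
  `∑ X(Λ') x(Λ')^M`, `x(Λ') = p^12 Δ(Λ') / Δ(Λ)`, as in project SP (the recurrence is run backwards, `t_BACK`).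

Functions: `e = (E₄(τ) - E₄(3τ)) / 240`, `s = (81 E₄(3τ) - E₄(τ)) / 80`, `P = (3 E₂(3τ) - E₂(τ)) / 2`,
`F = (P³ - 540 e P - E₆) / 5832`, `G = P³ - 54 e P + 729 F`, `D = e P - 27 F`, `h = G / D`, `y = P³ / D = 1 / t`.
(`P = a²`, `e = a c³ / 27`, `s = a b³`, `F = c⁶ / 729`, `G = b⁶`, `D = (η(τ) η(3τ))⁶ = b³ c³ / 27`.)
Relations: `P² = s + 27 e`, `e² = P F`, `D² = F G`, `e s = P D`, `P s = D (h + 27)`, `Δ(τ) = D G`, `Δ(3τ) = D F`,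
`y = (h + 27)² / h`; partners under Fricke: `P' = P`, `e' = s / 27`, `F' = G / 729`, `D' = D`, `h' = 729 / h`.
All identities of this file were checked numerically on `q`-expansions.

Every piece: file `Pool/Agent/HS37/C3/XXX.lean`, theorem `t_XXX` (hypotheses `(h : S_YYY)` as indicated). Most are
ports of the file of the same name (without the `3`) of `Pool/Agent/HS37/CQ`.
-/

set_option autoImplicit false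

open UpperHalfPlane ModularForm ModularFormClass MatrixGroups EisensteinSeries Complex
open Pool.Agent.HS37.SP Pool.Agent.HS37.CQ

namespace Pool.Agent.HS37.C3

noncomputable section

/-- `C(2n, n)² C(3n, n)` -/
def vv (n : ℕ) : ℕ := (2 * n).choose n ^ 2 * (3 * n).choose n

/-- `3 τ` -/
def trp (τ : ℍ) : ℍ := ofComplex (3 * (τ : ℂ))

/-- the Fricke involution `-1 / (3 τ)` -/
def fri3 (τ : ℍ) : ℍ := ofComplex (-1 / (3 * (τ : ℂ)))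

/-- the factor `-i √3 τ` of weight one -/
def wf (τ : ℍ) : ℂ := -Complex.I * ((Real.sqrt 3 : ℝ) : ℂ) * (τ : ℂ)

/-- the character modulo `3` -/
def chr (d : ℤ) : ℂ := if d % 3 = 0 then 0 else if d % 3 = 1 then 1 else -1

/-- `e` -/
def ge (τ : ℍ) : ℂ := (E₄ τ - E₄ (trp τ)) / 240

/-- `s` -/
def gs (τ : ℍ) : ℂ := (81 * E₄ (trp τ) - E₄ τ) / 80

/-- `P` -/
def gP (τ : ℍ) : ℂ := (3 * E2 (trp τ) - E2 τ) / 2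

/-- `F` -/
def gF (τ : ℍ) : ℂ := (gP τ ^ 3 - 540 * ge τ * gP τ - E₆ τ) / 5832

/-- `G` -/
def gG (τ : ℍ) : ℂ := gP τ ^ 3 - 54 * ge τ * gP τ + 729 * gF τ

/-- `D` -/
def gD (τ : ℍ) : ℂ := ge τ * gP τ - 27 * gF τ

/-- `h` -/
def gh (τ : ℍ) : ℂ := gG τ / gD τ

/-- the expansions -/
def de : PowerSeries ℂ := PowerSeries.C (1 / 240 : ℂ) * (eis 4 - vps 3 (eis 4))

def ds : PowerSeries ℂ := PowerSeries.C (1 / 80 : ℂ) * (81 * vps 3 (eis 4) - eis 4)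

def dP : PowerSeries ℂ := PowerSeries.C (1 / 2 : ℂ) * (3 * vps 3 (eis 2) - eis 2)

def dF : PowerSeries ℂ := PowerSeries.C (1 / 5832 : ℂ) * (dP ^ 3 - 540 * de * dP - eis 6)

def dG : PowerSeries ℂ := dP ^ 3 - 54 * de * dP + 729 * dF

def dD : PowerSeries ℂ := de * dP - 27 * dF

/-- `A = (E₂(τ) + 3 E₂(3τ)) / 4` -/
def dA : PowerSeries ℂ := PowerSeries.C (1 / 4 : ℂ) * (eis 2 + 3 * vps 3 (eis 2))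

/-- `t = D / P³` -/
def dt : PowerSeries ℂ := dD * (dP ^ 3)⁻¹

/-- Forms of integral weight `k` for `Γ₀(3)` with the character `χ^k`, with partner. -/
structure Pt (k : ℤ) (g g' : ℍ → ℂ) : Prop where
  sl : ∀ (γ : SL(2, ℤ)) (τ : ℍ), (3 : ℤ) ∣ γ 1 0 →
    g (γ • τ) = (chr (γ 1 1) * ((γ 1 0 : ℂ) * τ + (γ 1 1 : ℂ))) ^ k * g τ
  sl' : ∀ (γ : SL(2, ℤ)) (τ : ℍ), (3 : ℤ) ∣ γ 1 0 →
    g' (γ • τ) = (chr (γ 1 1) * ((γ 1 0 : ℂ) * τ + (γ 1 1 : ℂ))) ^ k * g' τ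
  fr : ∀ τ : ℍ, g (fri3 τ) = wf τ ^ k * g' τ
  fr' : ∀ τ : ℍ, g' (fri3 τ) = wf τ ^ k * g τ
  holo : DifferentiableOn ℂ (g ∘ ofComplex) {z | 0 < z.im}
  holo' : DifferentiableOn ℂ (g' ∘ ofComplex) {z | 0 < z.im}

/-- The value at the lattice of `A`, `3 ∣ A 1 0`, with the character. -/
def val3 (k : ℤ) (g : ℍ → ℂ) (A : Matrix (Fin 2) (Fin 2) ℤ) (τ : ℍ) : ℂ :=
  (chr (A 1 1) * ((A 1 0 : ℂ) * τ + (A 1 1 : ℂ))) ^ (-k) *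
    g (ofComplex (((A 0 0 : ℂ) * τ + (A 0 1 : ℂ)) / ((A 1 0 : ℂ) * τ + (A 1 1 : ℂ))))

/-- The Hecke sum with the character. -/
def hsum3 (k : ℤ) (N : ℕ) (g : ℍ → ℂ) (τ : ℍ) : ℂ := ∑ t ∈ reps N, val3 k g (mat t) τ

/-! ### Foundations -/

/-- **CLO3** (as `CQ/Clo`). `wf τ ≠ 0`; `wf (fri3 τ) * wf τ = 1`. -/
def S_CLO3 : Prop :=
  (∀ (k l : ℤ) (g g' f f' : ℍ → ℂ), Pt k g g' → Pt l f f' →
    Pt (k + l) (fun τ => g τ * f τ) (fun τ => g' τ * f' τ)) ∧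
  (∀ (k : ℤ) (g g' f f' : ℍ → ℂ), Pt k g g' → Pt k f f' →
    Pt k (fun τ => g τ + f τ) (fun τ => g' τ + f' τ)) ∧
  (∀ (k : ℤ) (g g' : ℍ → ℂ) (z : ℂ), Pt k g g' → Pt k (fun τ => z * g τ) (fun τ => z * g' τ)) ∧
  (∀ z : ℂ, Pt 0 (fun _ => z) (fun _ => z)) ∧
  (∀ (k : ℤ) (g g' : ℍ → ℂ) (n : ℕ), Pt k g g' → Pt (n * k) (fun τ => g τ ^ n) (fun τ => g' τ ^ n)) ∧
  (∀ (k : ℤ) (g g' : ℍ → ℂ), Pt k g g' → (∀ τ, g τ ≠ 0) → (∀ τ, g' τ ≠ 0) →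
    Pt (-k) (fun τ => (g τ)⁻¹) (fun τ => (g' τ)⁻¹)) ∧
  (∀ (k : ℤ) (g g' : ℍ → ℂ), Pt k g g' → Pt k g' g)

/-- **BAS3** (as `CQ/Bas`). (1) a level one form `g` of even weight `2 j` has the partner `(-3)^j g(3τ)`
(`g(-1/(3τ)) = (3τ)^(2j) g(3τ)`, `(-i √3 τ)² = -3 τ²`; `chr^2 = 1`); (2) `P(-1/(3τ)) = -3 τ² P(τ)`, weight `2`;
(3) expansions of `g(3τ)`. -/
def S_BAS3 : Prop :=
  (∀ (j : ℤ) (g : ℍ → ℂ), IsWeak (2 * j) g → Pt (2 * j) g (fun τ => (-3) ^ j * g (trp τ))) ∧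
  Pt 2 gP gP ∧
  (∀ (g : ℍ → ℂ) (e : ℕ) (c : PowerSeries ℂ), QExp g e c → QExp (fun τ => g (trp τ)) (3 * e) (vps 3 c))

/-- **EXP3** (from `S_BAS3`, `CQ.S_BAS` (expansion of `E₂`), `S_EIS`, `S_QMUL`; as `CQ/EXP`). -/
def S_EXP3 : Prop :=
  QExp ge 0 de ∧ QExp gs 0 ds ∧ QExp gP 0 dP ∧ QExp gF 0 dF ∧ QExp gG 0 dG ∧ QExp gD 0 dD ∧
  IsInt de ∧ IsInt ds ∧ IsInt dP ∧ IsInt (PowerSeries.C (1 / 12 : ℂ) * (dP - 1)) ∧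
  PowerSeries.coeff 0 de = 0 ∧ PowerSeries.coeff 1 de = 1 ∧ PowerSeries.coeff 2 de = 9 ∧
  PowerSeries.coeff 0 ds = 1 ∧
  PowerSeries.coeff 0 dP = 1 ∧ PowerSeries.coeff 1 dP = 12 ∧ PowerSeries.coeff 2 dP = 36 ∧
  PowerSeries.coeff 0 dF = 0 ∧ PowerSeries.coeff 1 dF = 0 ∧ PowerSeries.coeff 2 dF = 1 ∧
  PowerSeries.coeff 0 dG = 1 ∧ PowerSeries.coeff 0 dD = 0 ∧ PowerSeries.coeff 1 dD = 1

/-- **CON3** (as `CQ/Conn`; four cosets `F(τ)`, `F(-1/(τ + i)) = F'((τ + i) / 3)`, `i = 0, 1, 2`). -/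
def S_CON3 : Prop :=
  ∀ (F F' : ℍ → ℂ) (c c' : PowerSeries ℂ), Pt 0 F F' → QExp F 0 c → QExp F' 0 c' →
    ∀ τ, F τ = PowerSeries.coeff 0 c

/-- **REL3** (from `S_CON3`, `S_BAS3`, `S_EXP3`, `S_CLO3`, `S_EIS`, `S_QMUL`; as `CQ/Rel`).
Proof: (i) `R = 10 P² - E₄ - 9 E₄(3τ)` (weight 4, `R' = R`, no constant term): `R³ / Δ` is `O(q²)` at `i ∞` and
`R³ / (729 Δ(3τ))` is `O(1)`, so `R³ / Δ = 0` (CON3). With `E₄ = s·(…)`: by definition of `e`, `s`: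
`E₄ = s + 243 e`, `E₄(3τ) = s + 3 e`, so `P² = s + 27 e`. (ii) `R = 27 E₆(3τ) + E₆ - 28 P³ + 1512 e P` (weight 6, `R' = -R`:
`E₆' = -27 E₆(3τ)`, `E₆(3τ)' = -E₆ / 27`, `P' = P`, `e' = s / 27 = (P² - 27 e) / 27`), coefficients of `q⁰`, `q¹` are `0`;
`R² / Δ = O(q³)`, partner `R² / (729 Δ(3τ)) = O(q)`, so `R = 0`: `E₆(3τ) = P³ - 36 e P + 216 F`. (iii) `F' = G / 729` (compute from the
definition with (i), (ii)), `R = e² - P F` (weight 8, `R' = R / 1`: `R' = s² / 729 - P G / 729` and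
`s² - P G = 729 (e² - P F)`), coefficients of `q⁰, q¹, q²` are `0`, `R³ / Δ² = O(q⁷)`, partner `O(q³)`: `R = 0`.
(iv) `1728 Δ = E₄³ - E₆²` with `E₄ = P² + 216 e`, `E₆ = P³ - 540 e P - 5832 F`, `e² = P F` gives `Δ = D G`, and at `3τ`,
`E₄(3τ) = P² - 24 e`, gives `Δ(3τ) = D F`. -/
def S_REL3 : Prop :=
  (∀ τ, gP τ ^ 2 = gs τ + 27 * ge τ) ∧ (∀ τ, E₄ τ = gP τ ^ 2 + 216 * ge τ) ∧
  (∀ τ, E₄ (trp τ) = gP τ ^ 2 - 24 * ge τ) ∧ (∀ τ, E₆ τ = gP τ ^ 3 - 540 * ge τ * gP τ - 5832 * gF τ) ∧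
  (∀ τ, E₆ (trp τ) = gP τ ^ 3 - 36 * ge τ * gP τ + 216 * gF τ) ∧
  (∀ τ, ge τ ^ 2 = gP τ * gF τ) ∧ (∀ τ, gD τ ^ 2 = gF τ * gG τ) ∧ (∀ τ, ge τ * gs τ = gP τ * gD τ) ∧
  (∀ τ, gP τ * gs τ = gG τ + 27 * gD τ) ∧ (∀ τ, ge τ * gP τ = gD τ + 27 * gF τ) ∧
  (∀ τ, discriminant τ = gD τ * gG τ) ∧ (∀ τ, discriminant (trp τ) = gD τ * gF τ) ∧
  (∀ τ, gD τ ≠ 0) ∧ (∀ τ, gF τ ≠ 0) ∧ (∀ τ, gG τ ≠ 0)

/-- **PRE3** (from `S_REL3`, `S_BAS3`, `S_EXP3`, `S_CLO3`, `S_EIS`, `S_QMUL`; as `CQ/PRE`). `1 / D = D³ / (Δ(τ) Δ(3τ))`,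
`h = G / D`, `729 / h = 729 F / D`; `dF` is integral as `e² = P F`. -/
def S_PRE3 : Prop :=
  Pt 4 ge (fun τ => gs τ / 27) ∧ Pt 4 gs (fun τ => 27 * ge τ) ∧ Pt 6 gF (fun τ => gG τ / 729) ∧
  Pt 6 gG (fun τ => 729 * gF τ) ∧ Pt 6 gD gD ∧ Pt 0 gh (fun τ => 729 / gh τ) ∧
  IsInt dF ∧ IsInt dG ∧ IsInt dD ∧
  (∃ c, QExp (fun τ => (gD τ)⁻¹) 1 c ∧ IsInt c ∧ dD * c = PowerSeries.X ∧ PowerSeries.coeff 0 c = 1) ∧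
  (∃ c, QExp gh 1 c ∧ IsInt c ∧ PowerSeries.coeff 0 c = 1) ∧
  (∃ c, QExp (fun τ => 729 / gh τ) 0 c ∧ IsInt c ∧ PowerSeries.coeff 0 c = 0)

/-- **PR23** (from `S_CON3`, `S_PRE3`, `S_CLO3`; as `CQ/Gex`, `CQ.S_PR2`). The `q`-expansion principle. (Port `CQ/Gex`.)-/
def S_PR23 : Prop :=
  ∀ (F F' : ℍ → ℂ) (m m' : ℕ) (c c' : PowerSeries ℂ), Pt 0 F F' → QExp F m c → QExp F' m' c' →
    (∀ i < m, ∃ z : ℤ, PowerSeries.coeff i c = z) → (∀ i ≤ m', ∃ z : ℤ, PowerSeries.coeff i c' = z) →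
    ∃ Q₁ Q₂ : Polynomial ℤ, ∀ τ, F τ = Polynomial.aeval (gh τ) Q₁ + Polynomial.aeval (729 / gh τ) Q₂

/-! ### Hecke operators -/

/-- **VR3** (from `S_RED`; as `CQ/Vr2`). `chr` is multiplicative and `±1` on integers prime to `3`; for `3 ∣ γ 1 0`:
`(γ A) 1 1 ≡ γ 1 1 * A 1 1 mod 3`. (3): `M (τ, 1) = l (τ, 1)`; (4): `M (τ, 1) = l (-1, 3 τ)`, here
`val3 k g M τ = (± 3 l τ)^(-k) g(-1/(3τ)) = (± 3 l τ / wf τ)^(-k) g'(τ)` and `3 τ / wf τ = i √3`. -/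
def S_VR3 : Prop :=
  (∀ (k : ℤ) (g g' : ℍ → ℂ), Pt k g g' → ∀ (A : Matrix (Fin 2) (Fin 2) ℤ) (γ : SL(2, ℤ)) (τ : ℍ),
    0 < A.det → ¬ (3 : ℤ) ∣ A.det → (3 : ℤ) ∣ A 1 0 → (3 : ℤ) ∣ γ 1 0 →
    val3 k g ((γ : Matrix (Fin 2) (Fin 2) ℤ) * A) τ = val3 k g A τ) ∧
  (∀ (N : ℕ), 0 < N → ¬ 3 ∣ N → ∀ B : Matrix (Fin 2) (Fin 2) ℤ, B.det = N → (3 : ℤ) ∣ B 1 0 →
    ∃ t ∈ reps N, ∃ γ : SL(2, ℤ), (3 : ℤ) ∣ γ 1 0 ∧ B = (γ : Matrix (Fin 2) (Fin 2) ℤ) * mat t) ∧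
  (∀ (N : ℕ), 0 < N → ¬ 3 ∣ N → ∀ (M : Matrix (Fin 2) (Fin 2) ℤ) (τ : ℍ) (l : ℂ), M.det = N →
    (3 : ℤ) ∣ M 1 0 → (M 0 0 : ℂ) * τ + (M 0 1 : ℂ) = l * τ → (M 1 0 : ℂ) * τ + (M 1 1 : ℂ) = l →
    ∃ t ∈ reps N, ∃ ε : ℂ, (ε = 1 ∨ ε = -1) ∧ ∀ (k : ℤ) (g g' : ℍ → ℂ), Pt k g g' →
      val3 k g (mat t) τ = (ε * l) ^ (-k) * g τ) ∧
  (∀ (N : ℕ), 0 < N → ¬ 3 ∣ N → ∀ (M : Matrix (Fin 2) (Fin 2) ℤ) (τ : ℍ) (l : ℂ), M.det = N →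
    (3 : ℤ) ∣ M 1 0 → (M 0 0 : ℂ) * τ + (M 0 1 : ℂ) = - l → (M 1 0 : ℂ) * τ + (M 1 1 : ℂ) = 3 * l * τ →
    ∃ t ∈ reps N, ∃ ε : ℂ, (ε = 1 ∨ ε = -1) ∧ ∀ (k : ℤ) (g g' : ℍ → ℂ), Pt k g g' →
      val3 k g (mat t) τ = (ε * (Complex.I * ((Real.sqrt 3 : ℝ) : ℂ) * l)) ^ (-k) * g' τ)

/-- **HK3** (from `S_VR3`, `S_MAP`, `S_RED`; as `CQ/Hk2`). Fricke: `mat (a, b, d) * W = W * M'`, `W = (0, -1; 3, 0)`,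
`M' = (d, 0; -3 b, a)`, `wf((M' τ)) = wf τ * d / (a - 3 b τ)`,
`val3 k g (mat t) (fri3 τ) = wf(τ)^k chr(d)^(-k) chr(a)^k val3 k g' M' τ`, `chr(d)^(-k) chr(a)^k = chr(N)^k`. -/
def S_HK3 : Prop :=
  ∀ (k : ℤ) (g g' : ℍ → ℂ) (N : ℕ), 0 < N → ¬ 3 ∣ N → Pt k g g' →
    Pt k (hsum3 k N g) (fun τ => chr N ^ k * hsum3 k N g' τ)

/-- **TRC3** (from `S_HK3`, `S_CLO3`; as `CQ/TRC`; the sum over `b` as in `SP/Hq`). -/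
def S_TRC3 : Prop :=
  ∀ (p : ℕ), p.Prime → p ≠ 3 → ∀ (k : ℤ) (A A' B B' : ℍ → ℂ), Pt (-k) A A' → Pt k B B' →
    Pt 0 (fun τ => A τ * hsum3 k p B τ) (fun τ => chr p ^ k * (A' τ * hsum3 k p B' τ)) ∧
    ∀ (f f' : ℍ → ℂ) (x y : ℕ) (a b : PowerSeries ℂ), QExp f x a → QExp f' y b → IsInt a → IsInt b →
      ∃ r : PowerSeries ℂ, IsInt r ∧ QExp (fun τ => f τ * hsum3 k p f' τ) (x + p * y)
        (a * vps p b + PowerSeries.C ((p : ℂ) ^ (1 - k)) * r)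

/-- **ODD3** (from `S_REL3`, `S_PRE3`, `S_EXP3`, `S_CLO3`, `S_BAS3`, `S_QMUL`). The form `β = b³` of weight `3`, `β² = G`,
and `γ₃ = D / β` (`= c³ / 27`).
Proof: `G(τ) = g(q(τ))` with `g` holomorphic in the unit disc, `g(0) = 1`, without zeros (`gG ≠ 0`); so `g = f²`, `f(0) = 1`
(primitive of `g' / g` in the disc, e.g. `DifferentiableOn.isExactOn_ball`), `β(τ) = f(q)`. Series: `cβ² = dG`; as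
`dP = 1 + 12 (integral)`, `dP = α²` with `α` integral, `α = 1 + ...` (`C(1/2, n) 4^n ∈ ℤ`, or the recursion
`α = 1 + 2 x`, `x + x² = (dP - 1) / 4`, i.e. `x = (dP-1)/4 - x²`), and `ds² = dP dG` (from `s² = P G`: `s² = (P² - 27 e) s`,
`P s = G + 27 D`, `e s = P D`) gives `α cβ = ds`, so `cβ = ds / α` is integral. `γ₃ = D / β` has the series `dD / cβ`, integral.
Transformation: `β(τ + 1) = β(τ)`, `γ₃(τ + 1) = γ₃(τ)` by the expansions. `β(-1/(3τ))² = wf(τ)^6 · 729 F(τ) = (wf(τ)³ 27 γ₃(τ))²`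
(`γ₃² = D² / G = F`), so `β(-1/(3τ)) = ε wf(τ)³ 27 γ₃(τ)` with a constant sign `ε` (continuity), and
`γ₃(-1/(3τ)) = ε wf(τ)³ β(τ) / 27`. At `τ = i / √3`: `fri3 τ = τ`, `wf τ = 1`, `β = 27 ε γ₃`, `β, γ₃` have real
expansions in `q > 0`...; to avoid the sign: replace the partner of `β` by `27 ε γ₃` (this is why `ε` is in the statement).
So `β` satisfies the law for `T = (1, 1; 0, 1)`, for `V = (1, 0; 3, 1)` (`V = W T⁻¹ W⁻¹`) and `-1`, and these generate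
`Γ₀(3)`: for `(a, b; c, d)`, `3 ∣ c`, right multiplication by `T^n` gives `|d| ≤ |c| / 2` and by `V^m` then `|c| ≤ 3 |d| / 2`. -/
def S_ODD3 : Prop :=
  ∃ (β γ₃ : ℍ → ℂ) (ε : ℂ) (cβ cγ : PowerSeries ℂ), (ε = 1 ∨ ε = -1) ∧
    Pt 3 β (fun τ => 27 * ε * γ₃ τ) ∧ Pt 3 γ₃ (fun τ => ε * β τ / 27) ∧
    (∀ τ, β τ ^ 2 = gG τ) ∧ (∀ τ, β τ * γ₃ τ = gD τ) ∧ (∀ τ, γ₃ τ ^ 2 = gF τ) ∧
    QExp β 0 cβ ∧ QExp γ₃ 0 cγ ∧ IsInt cβ ∧ IsInt cγ ∧ PowerSeries.coeff 0 cβ = 1 ∧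
    PowerSeries.coeff 0 cγ = 0 ∧ PowerSeries.coeff 1 cγ = 1 ∧ cβ * cγ = dD ∧
    (∃ c, QExp (fun τ => (β τ)⁻¹) 0 c ∧ IsInt c ∧ cβ * c = 1) ∧
    (∃ c, QExp (fun τ => (γ₃ τ)⁻¹) 1 c ∧ IsInt c ∧ cγ * c = PowerSeries.X)

/-- `x(Λ') = p^12 Δ(Λ') / Δ(Λ)` -/
def xx (p : ℕ) (t : ℕ × ℕ × ℕ) (τ : ℍ) : ℂ :=
  (p : ℂ) ^ 12 * val 12 discriminant (mat t) τ / discriminant τ

/-- **XIN3** (from `S_TRC3`, `S_PR23`, `CQ.S_PSM`, `S_BAS3`, `S_REL3`, `S_EIS`). The `x(Λ')` are algebraic integers: the power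
sum `∑_t x_t^M = p^(12 M) Δ^(-M) hsum (12 M) p (Δ^M)` (for even `k`, `val3 k = val k` on `mat t`, `3 ∤ p`) has integral
expansions at both cusps (`Δ' = 729 Δ(3τ)`, the powers of `729` cancel), so it is in `ℤ[h] + ℤ[729/h]` by PR23; then PSM. -/
def S_XIN3 : Prop :=
  ∀ p : ℕ, p.Prime → p ≠ 3 → ∀ τ : ℍ, IsIntegral ℤ (gh τ) → IsIntegral ℤ (729 / gh τ) →
    ∀ t ∈ reps p, IsIntegral ℤ (xx p t τ)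

/-- **LIN3** (from `S_TRC3`, `S_PR23`, `S_CLO3`, `S_PRE3`, `S_BAS3`, `S_REL3`, `S_EIS`, `S_QMUL`). Linear sums.
`X_t = ∑_i A_i(τ) val3 k_i B_i (mat t) τ`. For `M = 0` the expansion of `∑_t X_t` is `∑ a_i V(b_i)` plus
`p^(1 - k_i) (...)`, `1 - k_i ≥ 2`; the polar parts at both cusps (at the second cusp with the sign `chr(p)^k_i`, the same
for both `i` as the `k_i` are odd) are divisible by `p²`. For `m ≥ 1`: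
`∑_t X_t x_t^m = p^(12 m) ∑_i A_i Δ^(-m) hsum3 (k_i + 12 m) p (B_i Δ^m)`, of expansion
`p^(12 m) (...) + p^(12 m + 1 - k_i - 12 m) (...)`; for the partner use `Δ' = 729 Δ(3τ)`, the powers of `729` cancel (write the
partner with `Δ(3τ)`, `1 / Δ(3τ)` integral expansions with pole `3`). Then PR23 for `p⁻² ∑_t X_t x_t^m`. -/
def S_LIN3 : Prop :=
  ∀ (p : ℕ), p.Prime → p ≠ 3 → ∀ (k : Fin 2 → ℤ) (A A' B B' : Fin 2 → ℍ → ℂ)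
    (a a' b b' : Fin 2 → PowerSeries ℂ) (M : ℕ),
    (∀ i, k i ≤ -1) → (∀ i, Odd (k i)) → (∀ i, Pt (-(k i)) (A i) (A' i)) → (∀ i, Pt (k i) (B i) (B' i)) →
    (∀ i, QExp (A i) M (a i)) → (∀ i, QExp (A' i) 0 (a' i)) → (∀ i, QExp (B i) 0 (b i)) →
    (∀ i, QExp (B' i) 1 (b' i)) → (∀ i, IsInt (a i)) → (∀ i, IsInt (a' i)) → (∀ i, IsInt (b i)) →
    (∀ i, IsInt (b' i)) →
    (∀ n < M, ∃ z : ℤ, PowerSeries.coeff n (∑ i, a i * vps p (b i)) = (p : ℂ) ^ 2 * z) →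
    (∀ n ≤ p, ∃ z : ℤ, PowerSeries.coeff n (∑ i, a' i * vps p (b' i)) = (p : ℂ) ^ 2 * z) →
    ∀ m : ℕ, ∃ Q₁ Q₂ : Polynomial ℤ, ∀ τ : ℍ,
      ∑ t ∈ reps p, (∑ i, A i τ * val3 (k i) (B i) (mat t) τ) * xx p t τ ^ m =
        (p : ℂ) ^ 2 * (Polynomial.aeval (gh τ) Q₁ + Polynomial.aeval (729 / gh τ) Q₂)

/-! ### Series -/

/-- **RAM3** (from `S_REL3`, `S_EXP3`; as `CQ/Ram`). With `E₂ = 2 A - P`, `E₂(3τ) = (P + 2 A) / 3`, `θ V₃ = 3 V₃ θ`. -/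
def S_RAM3 : Prop :=
  dP ^ 2 = ds + 27 * de ∧ de ^ 2 = dP * dF ∧ dP * ds = dG + 27 * dD ∧ de * ds = dP * dD ∧
  dD ^ 2 = dF * dG ∧
  3 * tht dP = dP * dA - dP ^ 2 + 54 * de ∧
  tht dD = dD * dA ∧
  3 * tht de = 2 * dA * de + de * dP + 27 * dF ∧
  tht dF = dF * (dA + dP) ∧
  6 * tht dA = dA ^ 2 - dP ^ 2

/-- **PAR3** (from `S_RAM3`, `S_EXP3`; as `CQ/PAR`). `P = ∑ v_n t^n`. `Q = P² - 54 e`, `θ t = t Q / P`, `D f = (P / Q) θ f`,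
`n₁ = P θ P`, `n₂ = P ((θ n₁) Q - n₁ θ Q)`, `n₃ = P ((θ n₂) Q - 3 n₂ θ Q)`, `Q² = P⁴ - 108 P D₆` (`D₆ = dD = e P - 27 F`), and
`n₃ = 108 P D₆ ((3/2) n₂ + (13/18) n₁ Q² + (1/9) P Q³)` modulo `e² = P F`; `L = D³ - 108 t (D + 1/2)(D + 1/3)(D + 2/3)`,
`(n + 1)³ v_(n+1) = 6 (2 n + 1) (3 n + 1) (3 n + 2) v_n`. -/
def S_PAR3 : Prop :=
  ∀ N : ℕ, PowerSeries.X ^ N ∣
    dP - ∑ n ∈ Finset.range N, PowerSeries.C (vv n : ℂ) * dt ^ n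

/-- **UDV3** (as `CQ/Udv`). -/
def S_UDV3 : Prop :=
  (∀ p n : ℕ, p.Prime → p ≠ 2 → n < p → p < 2 * n → p ^ 2 ∣ vv n) ∧
  (∀ p n : ℕ, p.Prime → 3 < p → n < p → p < 3 * n → p ∣ vv n) ∧
  (∀ p a b : ℕ, p.Prime → 3 < p → a < p → vv (a + p * b) ≡ vv a * vv b [MOD p]) ∧
  (∀ n : ℕ, vv n * n.factorial ^ 5 = (2 * n).factorial * (3 * n).factorial) ∧
  (∀ n : ℕ, (n + 1) ^ 3 * vv (n + 1) = 6 * (2 * n + 1) * (3 * n + 1) * (3 * n + 2) * vv n)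

/-- `∑_{n ≤ δ} v_n c^(δ - n)` -/
def MM (δ : ℕ) (c : ℤ) : ℤ := ∑ n ∈ Finset.range (δ + 1), (vv n : ℤ) * c ^ (δ - n)

/-- **HYP3** (from `S_PAR3`, `S_UDV3`, `S_EXP3`, `S_PRE3`; as `CQ/Hyp`). -/
def S_HYP3 : Prop :=
  ∀ (p δ : ℕ), p.Prime → p = 2 * δ + 1 → ∃ r₁ r₂ : PowerSeries ℂ, IsInt r₁ ∧ IsInt r₂ ∧
    (∑ n ∈ Finset.range (δ + 1), PowerSeries.C (vv n : ℂ) * dt ^ n) * vps p dP - dP =
      PowerSeries.C ((p : ℂ) ^ 2) * r₁ + PowerSeries.X ^ p * r₂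

/-- **LUC3** (from `S_PAR3`, `S_UDV3`, `S_EXP3`, `S_PRE3`; as `CQ/Luc`). -/
def S_LUC3 : Prop :=
  ∀ p : ℕ, p.Prime → 3 < p → ∃ W : PowerSeries ℂ, IsInt W ∧
    ∑ n ∈ Finset.range (p / 3 + 1), PowerSeries.C (vv n : ℂ) * dD ^ n * dP ^ (p - 1 - 3 * n) =
      1 + PowerSeries.C (p : ℂ) * W

/-! ### Split primes -/

/-- **BK3** (from `S_LIN3`, `S_XIN3`, `S_ODD3`, `S_HYP3`, `S_VR3`, `S_REL3`, `S_RAM3`, `S_PRE3`, `S_CLO3`, and `t_PROD`, `t_BACK` of SP).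
`y(τ) = c`, i.e. `P³ = c D`, `M (τ, 1) = l (τ, 1)`, `l l̄ = p`.
Proof (compare `CQ/Inty`): `Φ(h) = ∑_{n ≤ δ} v_n h^n (h + 27)^(2 (δ - n))`, `k₀ = -1`, `A₀ = Φ(h) s / γ₃`, `B₀ = 27 P / β`,
`k₁ = -3`, `A₁ = - β (h + 27)^p`, `B₁ = 27 / β`, `M = p`; partners (up to the sign `ε`, which occurs in all terms alike:
`γ₃' = ε β / 27`, `β' = 27 ε γ₃`) `A₀' = ε 729 Φ(729/h) e / β`, `B₀' = ε P / γ₃`, `A₁' = - ε 27 γ₃ (729/h + 27)^p`, `B₁' = ε / γ₃`.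
Series: `β (h + 27) = s P / γ₃` and `27 γ₃ (729/h + 27) = 729 e P / β` (`S_REL3`), so
`∑ a_i V(b_i) = 27 (h + 27)^(2δ) (s / γ₃) V(1/β) · Br`, `∑ a'_i V(b'_i) = 729 (729/h + 27)^(2δ) (e / β) V(1/γ₃) · Br`, `Br` the
bracket of HYP3. At the point: `X_t* = 27 ε' l (h + 27) h^δ (N - c^δ l²)` for the `t*`, `ε'` of VR3 (`(h + 27)² = c h`:
`P² s² = (G + 27 D)² = D² (h+27)²` and `P² s² = P² · P G` (`s² = P G`), `P³ = c D`, `G = h D`); `x_t* = l̄^12` (`p = l l̄`). `h`, `729 / h` are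
integral (`h² + (54 - c) h + 729 = 0`). With `T = reps p \ {t*}`, `u_t = K X_t`, `K = (h + 27) (729 / h)^(δ + 1)`: for `m ≥ 1`
`∑_T u_t x_t^m = K ∑ - K X_t* l̄^(12 m) ∈ l̄² 𝔬` (`p² = l² l̄²`; `K X_t* = 27 c 729^(δ+1) ε' l (N - c^δ l²)` is integral), so by `t_BACK`
with `M₀ = 1`: `(∏_T x_t) ∑_T u_t ∈ l̄² 𝔬`, and `∏_T x_t = ± p^12 / l̄^12 = ± l^12` (`t_PROD` for `N = p`, `x_t* = l̄^12`).
Finally `K X_t* = K ∑_t X_t - ∑_T u_t`. -/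
def S_BK3 : Prop :=
  ∀ (p δ : ℕ) (τ : ℍ) (c : ℤ) (M : Matrix (Fin 2) (Fin 2) ℤ) (l : ℂ), p.Prime → p = 2 * δ + 1 → p ≠ 3 →
    gP τ ^ 3 = c * gD τ → M.det = p → (3 : ℤ) ∣ M 1 0 → l * (starRingEnd ℂ) l = p → IsIntegral ℤ l →
    (M 0 0 : ℂ) * τ + (M 0 1 : ℂ) = l * τ → (M 1 0 : ℂ) * τ + (M 1 1 : ℂ) = l →
      ∃ w : ℂ, IsIntegral ℤ w ∧
        27 * c * 729 ^ (δ + 1) * l ^ 13 * ((MM δ c : ℂ) - c ^ δ * l ^ 2) = (starRingEnd ℂ) l ^ 2 * w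

/-- **EXT3**. Extraction. Proof: `z = K (N - c' T)`, `T = l² + l̄²`: `l^m z = l̄² (w - K c' l^m)`; `T^n = (l² + l̄²)^n ∈ l^m 𝔬 + l̄² 𝔬` for
`2 n ≥ m` (binomial theorem), so `T^n z = l̄² w'`; multiply by `l²` and add the conjugate: `T^(n+1) z = p² (w'' )`, `w''` integral and
rational, so `p² ∣ T^(n+1) z`. -/
def S_EXT3 : Prop :=
  ∀ (p m : ℕ) (N T K c' : ℤ) (l w : ℂ), p.Prime → IsIntegral ℤ w → IsIntegral ℤ l →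
    ¬ (p : ℤ) ∣ T → ¬ (p : ℤ) ∣ K → l ^ 2 + (starRingEnd ℂ) l ^ 2 = T → l * (starRingEnd ℂ) l = p →
    K * l ^ m * (N - c' * l ^ 2) = (starRingEnd ℂ) l ^ 2 * w → (p : ℤ) ^ 2 ∣ N - c' * T

/-! ### Inert primes -/

/-- **INR23** (from `CQ.S_CLA`, `S_UDV3`; as `CQ/Inr2`). With `3 a + 1 ≡ 0 mod p²`: `27^k b_k C(2k, k) ≡ v_k`, `z = f (m + n √d)`,
`2 m f ≡ 1`, `c z (1 - z) ≡ 27`. -/
def S_INR23 : Prop :=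
  ∀ (p : ℕ) (c m n d : ℤ), p.Prime → 3 < p → c * (m ^ 2 - n ^ 2 * d) = 108 * m ^ 2 →
    ¬ (p : ℤ) ∣ c → ¬ (p : ℤ) ∣ m → ¬ (p : ℤ) ∣ d →
    (p : ℤ) ∣ ∑ k ∈ Finset.range p, (vv k : ℤ) * c ^ (p - 1 - k) →
    (p : ℤ) ^ 2 ∣ ∑ k ∈ Finset.range p, (vv k : ℤ) * c ^ (p - 1 - k)

/-- **INL3** (from `S_LUC3`, `S_HK3`, `S_TRC3`, `S_VR3`, `S_PR23`, `CQ.S_PSM`, `S_PRE3`, `S_EXP3`, `S_CLO3`, `S_BAS3`, `S_REL3`, `S_QMUL`; compare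
`CQ/INR1`, `CQ/Intl`). `ℓ` a prime, `l l' = ℓ`.
Proof: `K = ∑_{n ≤ p/3} v_n D^n P^(p-1-3n)` (`Pt (2 (p-1)) K K`), `K ≡ 1 mod p` (LUC3), `Q = K³`, weight `κ = 6 (p - 1)`. For the
sublattices of index `ℓ`: `W_t = (ℓ^κ val3 κ Q (mat t) τ - ℓ^κ Q(τ)) / D(τ)^(p-1)`, of weight `0`. Power sums:
`∑_t W_t^m = D^(-m(p-1)) ∑_j C(m, j) (- ℓ^κ Q)^(m-j) ℓ^(κ j) hsum3 (j κ) ℓ (Q^j)`; with `V = V_ℓ`, `U = U_ℓ` its expansion times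
`D^(m (p-1))` is `ℓ^(κ m) (V Q - Q)^m + ℓ U((Q - ℓ^κ V Q)^m)` (as `hsum3 (jκ) ℓ g = V g + ℓ^(1 - jκ) U g`,
`Q^i U(g) = U(V(Q)^i g)`; `κ` is even, no character), and `V Q - Q`, `Q - ℓ^κ V Q` are `≡ 0 mod p` (`Q ≡ 1`, `ℓ^κ ≡ 1`). So
`p^(-m) ∑_t W_t^m` is in `ℤ[h] + ℤ[729/h]` (PR23, it is its own partner), and `W_t / p` is an algebraic integer (PSM) if `h`, `729/h` are
(`h² + (54 - c) h + 729 = 0`, see BK3). For the `t*` of `M (τ, 1) = l (τ, 1)`: `val3 κ Q (mat t*) τ = l^(-κ) Q(τ)`, so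
`W_t* = (l'^κ - ℓ^κ) Q(τ) / D(τ)^(p-1)`, and `K³ / D^(p-1) = c^r MM(p/3, c)³` with `p - 1 = 3 (p / 3) + r`, as
`K = P^r D^(p/3) MM` (`P³ = c D`), `P^(3 r) = c^r D^r`. -/
def S_INL3 : Prop :=
  ∀ (p ℓ : ℕ) (τ : ℍ) (c : ℤ) (M : Matrix (Fin 2) (Fin 2) ℤ) (l l' : ℂ), p.Prime → 3 < p → ℓ.Prime →
    ℓ ≠ p → ℓ ≠ 3 → gP τ ^ 3 = c * gD τ → M.det = ℓ → (3 : ℤ) ∣ M 1 0 → l * l' = ℓ →
    (M 0 0 : ℂ) * τ + (M 0 1 : ℂ) = l * τ → (M 1 0 : ℂ) * τ + (M 1 1 : ℂ) = l →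
      ∃ w : ℂ, IsIntegral ℤ w ∧ (l' ^ (6 * (p - 1)) - (ℓ : ℂ) ^ (6 * (p - 1))) *
        ((c : ℂ) ^ ((p - 1) % 3) * (MM (p / 3) c : ℂ) ^ 3) = p * w

/-- **INE3** (elementary). `λ² - a λ + ℓ = 0`, `a² - 4 ℓ` not a square modulo `p`.
Proof: `s = 2 λ - a`, `s² = D = a² - 4 ℓ`, `s^p = D^((p-1)/2) s ≡ -s mod p`, `(2 λ)^p = (a + s)^p ≡ a - s mod p`, so
`λ^p ≡ λ̄ = a - λ` modulo `p 𝔬`. So `λ^6 (λ^(6(p-1)) - ℓ^(6(p-1))) ≡ λ̄^6 - λ^6` (`ℓ^(p-1) ≡ 1`; `ℓ ≠ p` as otherwise the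
discriminant is a square), and `λ̄⁶ - λ⁶ = - s a (a² - ℓ) (a² - 3 ℓ)`. So `s n Z ∈ p 𝔬`, `n = a (a² - ℓ)(a² - 3ℓ)`, `D n Z ∈ p ℤ`. -/
def S_INE3 : Prop :=
  ∀ (p : ℕ) (a ℓ Z : ℤ) (l w : ℂ), p.Prime → p ≠ 2 → l ^ 2 - a * l + ℓ = 0 → IsIntegral ℤ w →
    (¬ ∃ z : ℤ, (p : ℤ) ∣ a ^ 2 - 4 * ℓ - z ^ 2) → ¬ (p : ℤ) ∣ ℓ →
    ¬ (p : ℤ) ∣ a * (a ^ 2 - ℓ) * (a ^ 2 - 3 * ℓ) →
    (l ^ (6 * (p - 1)) - (ℓ : ℂ) ^ (6 * (p - 1))) * (Z : ℂ) = p * w → (p : ℤ) ∣ Z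

/-! ### Evaluations -/

/-- **EVR3** (from `S_REL3`, `S_EXP3`). `y(ρ) = -192` for `ρ = (-1 + √-3) / 2`.
Proof: `E₄(ρ) = 0` (slash rule for `(0, -1; 1, 1)`, fixed point; `ρ + 1 = e^(πi/3)`, `E₄(ρ) = (ρ+1)^4 E₄(ρ)`), so `P² = -216 e`, `s = P² - 27 e = -243 e`,
`P D = e s = -243 e² = -243 P⁴ / 216²`, and `P ≠ 0` at `ρ`, so `P³ = -192 D`. `P(ρ) ≠ 0`: the coefficients of `dP` are bounded by
`12 n²` (`|σ(n) - 3 σ(n/3)| ≤ σ(n) ≤ n²`; `≤ 12 · 4^n` suffices), `|q(ρ)| = e^(-π √3) < 1/100`, so `|P - 1| ≤ 12 ∑ (4/100)^n < 1`. -/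
def S_EVR3 : Prop :=
  gP (ofComplex ((-1 + Complex.I * ((Real.sqrt 3 : ℝ) : ℂ)) / 2)) ^ 3 =
    -192 * gD (ofComplex ((-1 + Complex.I * ((Real.sqrt 3 : ℝ) : ℂ)) / 2))

/-- **NEG3** (elementary estimates; Mathlib only with `S_EIS`). For `z = (1 + √-11) / 2`: `E₄(z)` is real and positive and `Δ(z)` is real and
negative. Proof: `q = - e^(-π √11)`, real, `|q| < 1/10000`; `|E₄ - 1| ≤ 240 ∑ n⁴ |q|^n ≤ 240 ∑ (16 |q|)^n < 1`, real coefficients;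
`Δ = q ∏ (1 - q^n)^24` (Mathlib, `discriminant` as an eta product), real, and the product of even powers of positive numbers is `≥ 0`, and
`Δ ≠ 0`. -/
def S_NEG3 : Prop :=
  ∃ u v : ℝ, 0 < u ∧ v < 0 ∧
    E₄ (ofComplex ((1 + Complex.I * ((Real.sqrt 11 : ℝ) : ℂ)) / 2)) = u ∧
    discriminant (ofComplex ((1 + Complex.I * ((Real.sqrt 11 : ℝ) : ℂ)) / 2)) = v

/-- **EVE3** (from `S_REL3`, `S_NEG3`, `S_EIS`). `y(τ) = 64` for `τ = (1 + √-11) / 6`.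
Proof: `z = 3 τ = (1 + √-11) / 2 = trp τ`, `-1 / τ = 3 τ - 1`, so `j(τ) = j(-1/τ) = j(3τ)`: `E₄(τ)³ Δ(3τ) = E₄(3τ)³ Δ(τ)`, i.e. with
`P² = e (h + 27)`-type relations (`e ≠ 0`, since `E₄(3τ) = P² - 24 e ≠ 0` excludes `P = e = 0`, and `e² = P F`, `F ≠ 0` gives
`e = 0 ↔ P = 0`; `h = s / e`): `(h + 243)³ = h² (h + 3)³`, i.e. `(h - 27) (h² + 46 h + 729) (h² - 10 h + 729) = 0`. The value
`j(3τ) = E₄(3τ)³ / Δ(3τ) = (h + 27) (h + 3)³ / h` is negative by NEG3; it is `54000` for `h = 27`, `8000` for a root of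
`h² + 46 h + 729`, so `h² - 10 h + 729 = 0`, `(h + 27)² = 64 h`, and `P³ / D = (h + 27)² / h`. -/
def S_EVE3 : Prop :=
  gP (ofComplex ((1 + Complex.I * ((Real.sqrt 11 : ℝ) : ℂ)) / 6)) ^ 3 =
    64 * gD (ofComplex ((1 + Complex.I * ((Real.sqrt 11 : ℝ) : ℂ)) / 6))

end

end Pool.Agent.HS37.C3
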