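import Pool.Agent.HS37.C3.Stm
import Pool.Agent.HS37.CQ.TRC

/-!
# Project C3, piece TRC3 (helper36): port of CQ/TRC with the character
-/

set_option autoImplicit false

open UpperHalfPlane ModularForm ModularFormClass MatrixGroups EisensteinSeries Complex
open Pool.Agent.HS37.SP Pool.Agent.HS37.CQ

namespace Pool.Agent.HS37.C3

lemma chr_pm {p : ℤ} (hp : ¬ (3 : ℤ) ∣ p) : chr p = 1 ∨ chr p = -1 := by
  unfold chr
  rw [if_neg (by omega)]
  split_ifs
  · left; rfl
  · right; rfl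

lemma chr_one : chr 1 = 1 := by
  unfold chr
  norm_num

lemma chr_zpow_int {p : ℤ} (hp : ¬ (3 : ℤ) ∣ p) (k : ℤ) : ∃ z : ℤ, chr p ^ k = z := by
  rcases chr_pm hp with h | h
  · exact ⟨1, by rw [h]; simp⟩
  · rcases Int.even_or_odd k with hk | hk
    · exact ⟨1, by rw [h, hk.neg_one_zpow]; simp⟩
    · exact ⟨-1, by rw [h, hk.neg_one_zpow]; simp⟩

lemma val3_eq (k : ℤ) (g : ℍ → ℂ) (A : Matrix (Fin 2) (Fin 2) ℤ) (τ : ℍ) :
    val3 k g A τ = chr (A 1 1) ^ (-k) * val k g A τ := by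
  unfold val3 val
  rw [mul_zpow, mul_assoc]

/-- The expansion of the Hecke sum of prime index, with the character. -/
lemma hq3_prime {p : ℕ} (hp : p.Prime) (hp3 : p ≠ 3) (κ : ℤ) (B : ℍ → ℂ) (y : ℕ)
    (b : PowerSeries ℂ) (hB : QExp B y b) (hb : IsInt b) : ∃ r : PowerSeries ℂ, IsInt r ∧
      QExp (hsum3 κ p B) (p * y) (vps p b + PowerSeries.C ((p : ℂ) ^ (1 - κ)) * r) := by
  have hp0 : (p : ℤ) ≠ 0 := by exact_mod_cast hp.ne_zero
  have hpc : (p : ℂ) ≠ 0 := by exact_mod_cast hp.ne_zero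
  have hnd : ¬ (3 : ℤ) ∣ (p : ℤ) := by
    intro h
    have h1 : 3 ∣ p := by exact_mod_cast h
    exact hp3 ((Nat.prime_dvd_prime_iff_eq Nat.prime_three hp).mp h1).symm
  obtain ⟨ε, hε⟩ := chr_zpow_int hnd (-κ)
  refine ⟨PowerSeries.mk fun n : ℕ => (ε : ℂ) * (if 0 ≤ (y : ℤ) + p * ((n : ℤ) - p * y) then
    PowerSeries.coeff ((y : ℤ) + p * ((n : ℤ) - p * y)).toNat b else 0), ?_, ?_⟩
  · intro n
    rw [PowerSeries.coeff_mk]
    split_ifs with h
    · obtain ⟨z, hz⟩ := hb ((y : ℤ) + p * ((n : ℤ) - p * y)).toNat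
      exact ⟨ε * z, by rw [hz]; push_cast; ring⟩
    · exact ⟨0, by simp⟩
  · intro τ
    have h1 : hsum3 κ p B τ =
        (∑ b' ∈ Finset.range 1, B (ofComplex (((p : ℂ) * τ + (b' : ℕ)) / (1 : ℕ)))) +
        (ε : ℂ) * ((p : ℂ) ^ (-κ) *
          ∑ b' ∈ Finset.range p, B (ofComplex ((((1 : ℕ) : ℂ) * τ + (b' : ℕ)) / p))) := by
      unfold hsum3
      rw [sum_reps hp.pos, prime_antidiag hp, Finset.sum_pair (by
        intro h
        exact hp.one_lt.ne (congrArg Prod.fst h))]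
      rw [add_comm]
      congr 1
      · refine Finset.sum_congr rfl fun b' _ => ?_
        rw [val3_eq, val_mat]
        have h2 : mat (p, b', 1) 1 1 = 1 := by simp [mat]
        rw [h2, chr_one]
        simp
      · rw [Finset.mul_sum, Finset.mul_sum]
        refine Finset.sum_congr rfl fun b' _ => ?_
        rw [val3_eq, val_mat]
        have h2 : mat (1, b', p) 1 1 = (p : ℤ) := by simp [mat]
        rw [h2, hε]
    have h2 := hq_one hB hp.pos (a := p) (d := 1) (mul_one p) τ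
    have h3 := ((hq_one hB hp.pos (a := 1) (d := p) (one_mul p) τ).mul_left ((p : ℂ) ^ (-κ))).mul_left
      (ε : ℂ)
    refine hs_congr (h2.add h3) (fun n => ?_) ?_
    · rw [map_add, PowerSeries.coeff_C_mul, PowerSeries.coeff_mk, add_mul]
      congr 1
      · rw [vps, PowerSeries.coeff_mk]
        have h4 : (p : ℤ) ∣ (n : ℤ) - p * y ↔ p ∣ n := by
          rw [dvd_sub_left (dvd_mul_right _ _)]
          exact Int.natCast_dvd_natCast
        by_cases h5 : p ∣ n
        · obtain ⟨m, rfl⟩ := h5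
          have h6 : (((p * m : ℕ) : ℤ) - p * y) / p = (m : ℤ) - y := by
            rw [Nat.cast_mul, ← mul_sub]
            exact Int.mul_ediv_cancel_left _ hp0
          have h7 : (y : ℤ) + (1 : ℕ) * ((m : ℤ) - y) = (m : ℤ) := by push_cast; ring
          rw [h6, h7, if_pos (dvd_mul_right _ _), Nat.mul_div_cancel_left _ hp.pos,
            if_pos ⟨h4.2 (dvd_mul_right _ _), by omega⟩, Int.toNat_natCast]
          simp
        · rw [if_neg h5, if_neg fun h => h5 (h4.1 h.1)]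
      · simp only [Nat.cast_one, one_dvd, true_and, Int.ediv_one]
        split_ifs
        · rw [sub_eq_add_neg, zpow_add₀ hpc, zpow_one]
          ring
        · simp
    · rw [h1]
      ring

theorem t_TRC3 (hHK : S_HK3) (hCLO : S_CLO3) : S_TRC3 := by
  intro p hp hp3 k A A' B B' hA hB
  refine ⟨?_, ?_⟩
  · have hnd : ¬ 3 ∣ p := fun h1 => hp3 ((Nat.prime_dvd_prime_iff_eq Nat.prime_three hp).mp h1).symm
    have h1 := hHK k B B' p hp.pos hnd hB
    have h2 := hCLO.1 _ _ _ _ _ _ hA h1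
    rw [neg_add_cancel] at h2
    convert h2 using 1
    funext τ
    ring
  · intro f f' x y a b hAx hBy ha hb
    obtain ⟨r, hr, h1⟩ := hq3_prime hp hp3 k f' y b hBy hb
    refine ⟨a * r, isInt_iff.2 (mul_mem (isInt_iff.1 ha) (isInt_iff.1 hr)), ?_⟩
    have h2 := t_QMUL.1 _ _ _ _ _ _ hAx h1
    convert h2 using 1
    ring

end Pool.Agent.HS37.C3
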