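import Pool.Agent.HS37.C3.Stm

/-!
# Project C3, piece UDV3 (helper72), port of `CQ/Udv`
-/

set_option autoImplicit false

open Pool.Agent.HS37.SP

namespace Pool.Agent.HS37.C3

namespace UDVP

theorem fac2 (n : ℕ) : (2 * n).factorial = (2 * n).choose n * n.factorial ^ 2 := by
  have h := Nat.choose_mul_factorial_mul_factorial (n := 2 * n) (k := n) (by omega)
  have e : 2 * n - n = n := by omega
  rw [e] at h
  rw [← h]
  ring

theorem fac3 (n : ℕ) : (3 * n).factorial = (3 * n).choose n * n.factorial * (2 * n).factorial := by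
  have h := Nat.choose_mul_factorial_mul_factorial (n := 3 * n) (k := n) (by omega)
  have e : 3 * n - n = 2 * n := by omega
  rw [e] at h
  rw [← h]

theorem vv_mul (n : ℕ) : vv n * n.factorial ^ 5 = (2 * n).factorial * (3 * n).factorial := by
  rw [fac3, fac2, vv]
  ring

theorem cop {p n : ℕ} (hp : p.Prime) (hn : n < p) : p.Coprime (n.factorial ^ 5) := by
  apply Nat.Coprime.pow_right
  rw [hp.coprime_iff_not_dvd, hp.dvd_factorial]
  omega

theorem one {p n : ℕ} (hp : p.Prime) (hn : n < p) (h : p < 2 * n) : p ^ 2 ∣ vv n := by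
  have h1 : p ^ 2 ∣ vv n * n.factorial ^ 5 := by
    rw [vv_mul, sq]
    exact mul_dvd_mul (Nat.dvd_factorial hp.pos (by omega)) (Nat.dvd_factorial hp.pos (by omega))
  exact (Nat.Coprime.pow_left 2 (cop hp hn)).dvd_of_dvd_mul_right h1

theorem two {p n : ℕ} (hp : p.Prime) (hn : n < p) (h : p < 3 * n) : p ∣ vv n := by
  have h1 : p ∣ vv n * n.factorial ^ 5 := by
    rw [vv_mul]
    exact (Nat.dvd_factorial hp.pos h.le).mul_left _
  exact (cop hp hn).dvd_of_dvd_mul_right h1

theorem four (n : ℕ) :
    (n + 1) ^ 3 * vv (n + 1) = 6 * (2 * n + 1) * (3 * n + 1) * (3 * n + 2) * vv n := by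
  have h1 := vv_mul (n + 1)
  have h2 := vv_mul n
  have e : 3 * (n + 1) = 3 * n + 2 + 1 := by ring
  have e' : 2 * (n + 1) = 2 * n + 1 + 1 := by ring
  rw [e, e', Nat.factorial_succ (3 * n + 2), Nat.factorial_succ (3 * n + 1),
    Nat.factorial_succ (3 * n), Nat.factorial_succ (2 * n + 1), Nat.factorial_succ (2 * n),
    Nat.factorial_succ] at h1
  have h0 : 0 < (n + 1) ^ 2 * n.factorial ^ 5 := by
    have := n.factorial_pos
    positivity
  apply Nat.eq_of_mul_eq_mul_left h0
  linear_combination h1 - (2 * n + 1 + 1) * (2 * n + 1) * (3 * n + 2 + 1) * (3 * n + 1 + 1) * (3 * n + 1) * h2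

theorem lucas (p : ℕ) [Fact p.Prime] (n k : ℕ) : n.choose k ≡
    (n % p).choose (k % p) * (n / p).choose (k / p) [MOD p] :=
  Choose.choose_modEq_choose_mod_mul_choose_div_nat

theorem three {p a b : ℕ} (hp : p.Prime) (hp3 : 3 < p) (ha : a < p) :
    vv (a + p * b) ≡ vv a * vv b [MOD p] := by
  have : Fact p.Prime := ⟨hp⟩
  have hp0 := hp.pos
  have hodd : p % 2 = 1 := by
    rcases hp.eq_two_or_odd with h | h
    · omega
    · exact h
  have hp3' : 3 * a ≠ p := by
    intro h
    have h3 : 3 ∣ p := ⟨a, h.symm⟩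
    rcases (Nat.dvd_prime hp).1 h3 with h | h <;> omega
  have e1 : (a + p * b) % p = a ∧ (a + p * b) / p = b :=
    ⟨by rw [Nat.add_mul_mod_self_left, Nat.mod_eq_of_lt ha],
      by rw [Nat.add_mul_div_left _ _ hp0, Nat.div_eq_of_lt ha, zero_add]⟩
  by_cases h3 : 3 * a < p
  · -- no carries
    have e3 : (3 * (a + p * b)) % p = 3 * a ∧ (3 * (a + p * b)) / p = 3 * b := by
      have e : 3 * (a + p * b) = 3 * a + p * (3 * b) := by ring
      rw [e]
      exact ⟨by rw [Nat.add_mul_mod_self_left, Nat.mod_eq_of_lt h3],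
        by rw [Nat.add_mul_div_left _ _ hp0, Nat.div_eq_of_lt h3, zero_add]⟩
    have e2 : (2 * (a + p * b)) % p = 2 * a ∧ (2 * (a + p * b)) / p = 2 * b := by
      have e : 2 * (a + p * b) = 2 * a + p * (2 * b) := by ring
      rw [e]
      exact ⟨by rw [Nat.add_mul_mod_self_left, Nat.mod_eq_of_lt (by omega)],
        by rw [Nat.add_mul_div_left _ _ hp0, Nat.div_eq_of_lt (by omega), zero_add]⟩
    have l1 := lucas p (3 * (a + p * b)) (a + p * b)
    have l2 := lucas p (2 * (a + p * b)) (a + p * b)
    rw [e3.1, e3.2, e1.1, e1.2] at l1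
    rw [e2.1, e2.2, e1.1, e1.2] at l2
    rw [vv, vv, vv]
    have l3 := (l2.pow 2).mul l1
    convert l3 using 1
    ring
  · have h3' : p < 3 * a := by omega
    have hr : p ∣ vv a * vv b := (two hp ha h3').mul_right _
    have hl : p ∣ vv (a + p * b) := by
      rw [vv]
      by_cases h2 : 2 * a < p
      · apply Dvd.dvd.mul_left
        have e3 : (3 * (a + p * b)) % p = 3 * a - p := by
          have e : 3 * (a + p * b) = (3 * a - p) + p * (3 * b + 1) := by
            have : 3 * a = (3 * a - p) + p := by omega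
            calc 3 * (a + p * b) = 3 * a + p * (3 * b) := by ring
              _ = (3 * a - p) + p + p * (3 * b) := by rw [← this]
              _ = _ := by ring
          rw [e, Nat.add_mul_mod_self_left, Nat.mod_eq_of_lt (by omega)]
        have l1 := lucas p (3 * (a + p * b)) (a + p * b)
        rw [e3, e1.1, Nat.choose_eq_zero_of_lt (by omega : 3 * a - p < a), zero_mul] at l1
        exact (Nat.modEq_zero_iff_dvd).1 l1
      · have h2' : p < 2 * a := by omega
        apply Dvd.dvd.mul_right
        apply Dvd.dvd.pow _ two_ne_zero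
        have e2 : (2 * (a + p * b)) % p = 2 * a - p := by
          have e : 2 * (a + p * b) = (2 * a - p) + p * (2 * b + 1) := by
            have : 2 * a = (2 * a - p) + p := by omega
            calc 2 * (a + p * b) = 2 * a + p * (2 * b) := by ring
              _ = (2 * a - p) + p + p * (2 * b) := by rw [← this]
              _ = _ := by ring
          rw [e, Nat.add_mul_mod_self_left, Nat.mod_eq_of_lt (by omega)]
        have l1 := lucas p (2 * (a + p * b)) (a + p * b)
        rw [e2, e1.1, Nat.choose_eq_zero_of_lt (by omega : 2 * a - p < a), zero_mul] at l1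
        exact (Nat.modEq_zero_iff_dvd).1 l1
    exact ((Nat.modEq_zero_iff_dvd).2 hl).trans ((Nat.modEq_zero_iff_dvd).2 hr).symm

end UDVP

open UDVP in
theorem t_UDV3 : S_UDV3 :=
  ⟨fun _ _ hp _ hn h => one hp hn h, fun _ _ hp _ hn h => two hp hn h,
    fun _ _ _ hp hp3 ha => three hp hp3 ha, vv_mul, four⟩

end Pool.Agent.HS37.C3
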