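import Pool.Agent.HS37.C3.Stm
import Pool.Agent.HS37.SP.Val
import Pool.Agent.HS37.SP.Red

/-!
# Project C3, piece VR3: matrices and values for `Γ₀(3)` with the character (port of `CQ/Vr2.lean`)
-/

set_option autoImplicit false

open UpperHalfPlane MatrixGroups Complex
open Pool.Agent.HS37.SP Pool.Agent.HS37.CQ

namespace Pool.Agent.HS37.C3

lemma chr_pm {d : ℤ} (h : ¬ (3 : ℤ) ∣ d) : chr d = 1 ∨ chr d = -1 := by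
  have h0 : d % 3 ≠ 0 := fun h' => h (Int.dvd_of_emod_eq_zero h')
  unfold chr
  rw [if_neg h0]
  by_cases h1 : d % 3 = 1
  · rw [if_pos h1]; exact Or.inl rfl
  · rw [if_neg h1]; exact Or.inr rfl

lemma chr_ne {d : ℤ} (h : ¬ (3 : ℤ) ∣ d) : chr d ≠ 0 := by
  rcases chr_pm h with h | h <;> rw [h] <;> norm_num

lemma chr_mod {a b : ℤ} (h : (3 : ℤ) ∣ a - b) : chr a = chr b := by
  have h1 : a % 3 = b % 3 := by omega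
  unfold chr
  rw [h1]

lemma chr_mul (a b : ℤ) : chr (a * b) = chr a * chr b := by
  have ha : a % 3 = 0 ∨ a % 3 = 1 ∨ a % 3 = 2 := by omega
  have hb : b % 3 = 0 ∨ b % 3 = 1 ∨ b % 3 = 2 := by omega
  unfold chr
  rw [Int.mul_emod]
  rcases ha with ha | ha | ha <;> rcases hb with hb | hb | hb <;> rw [ha, hb] <;> norm_num

lemma chr_lin {x y z w : ℤ} (h : (3 : ℤ) ∣ x) : chr (x * y + z * w) = chr z * chr w := by
  rw [← chr_mul]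
  apply chr_mod
  obtain ⟨u, rfl⟩ := h
  exact ⟨u * y, by ring⟩

lemma vr3_pair {κ : ℤ} {g : ℍ → ℂ} (γ : SL(2, ℤ)) (z : ℍ) {χ ψ : ℂ} (hχ : χ ≠ 0)
    (hs : g (γ • z) = (χ * ((γ 1 0 : ℂ) * z + (γ 1 1 : ℂ))) ^ κ * g z) {u v : ℂ}
    (hv : v ≠ 0) (hz : (z : ℂ) = u / v) :
    (χ * ψ * ((γ 1 0 : ℂ) * u + (γ 1 1 : ℂ) * v)) ^ (-κ) *
      g (ofComplex (((γ 0 0 : ℂ) * u + (γ 0 1 : ℂ) * v) / ((γ 1 0 : ℂ) * u + (γ 1 1 : ℂ) * v))) =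
    (ψ * v) ^ (-κ) * g z := by
  have hu : u = z * v := by rw [hz, div_mul_cancel₀ _ hv]
  have h1 : (γ 1 0 : ℂ) * u + (γ 1 1 : ℂ) * v = v * ((γ 1 0 : ℂ) * z + (γ 1 1 : ℂ)) := by
    rw [hu]
    ring
  have h2 : (γ 0 0 : ℂ) * u + (γ 0 1 : ℂ) * v = v * ((γ 0 0 : ℂ) * z + (γ 0 1 : ℂ)) := by
    rw [hu]
    ring
  have h3 : ((γ 0 0 : ℂ) * u + (γ 0 1 : ℂ) * v) / ((γ 1 0 : ℂ) * u + (γ 1 1 : ℂ) * v) =
      ((γ • z : ℍ) : ℂ) := by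
    rw [h1, h2, mul_div_mul_left _ _ hv, sl_coe]
  have h4 : χ * ((γ 1 0 : ℂ) * z + (γ 1 1 : ℂ)) ≠ 0 := mul_ne_zero hχ (sl_den_ne γ z)
  have h5 : (χ * ((γ 1 0 : ℂ) * z + (γ 1 1 : ℂ))) ^ (-κ) *
      (χ * ((γ 1 0 : ℂ) * z + (γ 1 1 : ℂ))) ^ κ = 1 := by
    rw [← zpow_add₀ h4, neg_add_cancel, zpow_zero]
  have h6 : χ * ψ * (v * ((γ 1 0 : ℂ) * z + (γ 1 1 : ℂ))) =
      (ψ * v) * (χ * ((γ 1 0 : ℂ) * z + (γ 1 1 : ℂ))) := by ring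
  rw [h3, ofComplex_apply, hs, h1, h6, mul_zpow (ψ * v)]
  linear_combination ((ψ * v) ^ (-κ) * g z) * h5

lemma vr3_unit {B : Matrix (Fin 2) (Fin 2) ℤ} (hB : ¬ (3 : ℤ) ∣ B.det) (h : (3 : ℤ) ∣ B 1 0) :
    ¬ (3 : ℤ) ∣ B 1 1 := by
  intro h1
  apply hB
  rw [Matrix.det_fin_two]
  exact dvd_sub (h1.mul_left _) (h.mul_left _)

theorem vr3_left {k : ℤ} {g g' : ℍ → ℂ} (hg : Pt k g g') (A : Matrix (Fin 2) (Fin 2) ℤ)
    (γ : SL(2, ℤ)) (τ : ℍ) (hA : 0 < A.det) (hγ : (3 : ℤ) ∣ γ 1 0) :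
    val3 k g ((γ : Matrix (Fin 2) (Fin 2) ℤ) * A) τ = val3 k g A τ := by
  obtain ⟨z, hz⟩ : ∃ z : ℍ, (z : ℂ) =
      ((A 0 0 : ℂ) * τ + (A 0 1 : ℂ)) / ((A 1 0 : ℂ) * τ + (A 1 1 : ℂ)) :=
    ⟨⟨_, vim_pos hA τ⟩, rfl⟩
  have hγ1 : ¬ (3 : ℤ) ∣ γ 1 1 := by
    refine vr3_unit (B := (γ : Matrix (Fin 2) (Fin 2) ℤ)) ?_ hγ
    rw [γ.det_coe]
    norm_num
  have h := vr3_pair (ψ := chr (A 1 1)) γ z (chr_ne hγ1) (hg.sl γ z hγ) (vden_ne hA τ) hz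
  unfold val3
  rw [← hz, ofComplex_apply, ← h]
  have e1 : ((((γ : Matrix (Fin 2) (Fin 2) ℤ) * A) 1 0 : ℤ) : ℂ) * τ +
      ((((γ : Matrix (Fin 2) (Fin 2) ℤ) * A) 1 1 : ℤ) : ℂ) =
      (γ 1 0 : ℂ) * ((A 0 0 : ℂ) * τ + (A 0 1 : ℂ)) +
        (γ 1 1 : ℂ) * ((A 1 0 : ℂ) * τ + (A 1 1 : ℂ)) := by
    simp [Matrix.mul_apply, Fin.sum_univ_two]
    ring
  have e2 : ((((γ : Matrix (Fin 2) (Fin 2) ℤ) * A) 0 0 : ℤ) : ℂ) * τ +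
      ((((γ : Matrix (Fin 2) (Fin 2) ℤ) * A) 0 1 : ℤ) : ℂ) =
      (γ 0 0 : ℂ) * ((A 0 0 : ℂ) * τ + (A 0 1 : ℂ)) +
        (γ 0 1 : ℂ) * ((A 1 0 : ℂ) * τ + (A 1 1 : ℂ)) := by
    simp [Matrix.mul_apply, Fin.sum_univ_two]
    ring
  have e3 : chr (((γ : Matrix (Fin 2) (Fin 2) ℤ) * A) 1 1) = chr (γ 1 1) * chr (A 1 1) := by
    have e4 : ((γ : Matrix (Fin 2) (Fin 2) ℤ) * A) 1 1 = γ 1 0 * A 0 1 + γ 1 1 * A 1 1 := by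
      simp [Matrix.mul_apply, Fin.sum_univ_two]
    rw [e4]
    exact chr_lin hγ
  rw [e1, e2, e3]

theorem vr3_ex (N : ℕ) (hN : 0 < N) (h3 : ¬ 3 ∣ N) (B : Matrix (Fin 2) (Fin 2) ℤ) (hB : B.det = N)
    (h2 : (3 : ℤ) ∣ B 1 0) : ∃ t ∈ reps N, ∃ γ : SL(2, ℤ), (3 : ℤ) ∣ γ 1 0 ∧
      B = (γ : Matrix (Fin 2) (Fin 2) ℤ) * mat t := by
  obtain ⟨t, ⟨ht, γ, hγ⟩, -⟩ := t_RED N hN B hB
  refine ⟨t, ht, γ, ?_, hγ⟩
  have h10 := congrFun (congrFun hγ 1) 0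
  simp [mat, Matrix.mul_apply, Fin.sum_univ_two] at h10
  rw [h10] at h2
  have hat : (3 : ℤ) ∣ (t.1 : ℤ) → False := by
    intro h
    have h4 := ((mem_reps hN).1 ht).1
    have h5 : (3 : ℕ) ∣ t.1 := by exact_mod_cast h
    exact h3 (by rw [← h4]; exact h5.mul_right _)
  rcases Int.prime_three.dvd_or_dvd h2 with h | h
  · exact h
  · exact (hat h).elim

theorem t_VR3 : S_VR3 := by
  refine ⟨fun k g g' hg A γ τ hA _ _ hγ => vr3_left hg A γ τ hA hγ, vr3_ex, ?_, ?_⟩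
  · intro N hN h3 M τ l hM h2 e0 e1
    obtain ⟨t, ht, γ, hγ, hMt⟩ := vr3_ex N hN h3 M hM h2
    have hMdet3 : ¬ (3 : ℤ) ∣ M.det := by
      rw [hM]; exact_mod_cast h3
    refine ⟨t, ht, chr (M 1 1), chr_pm (vr3_unit hMdet3 h2), fun k g g' hg => ?_⟩
    have hdet : 0 < (mat t).det := by
      rw [det_mat_of_mem hN ht]; exact_mod_cast hN
    have hMdet : 0 < M.det := by rw [hM]; exact_mod_cast hN
    have hl : l ≠ 0 := by rw [← e1]; exact vden_ne hMdet τ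
    rw [← vr3_left hg (mat t) γ τ hdet hγ, ← hMt]
    unfold val3
    rw [e0, e1, mul_comm l, mul_div_assoc, div_self hl, mul_one, ofComplex_apply]
  · intro N hN h3 M τ l hM h2 e0 e1
    obtain ⟨t, ht, γ, hγ, hMt⟩ := vr3_ex N hN h3 M hM h2
    have hMdet3 : ¬ (3 : ℤ) ∣ M.det := by
      rw [hM]; exact_mod_cast h3
    refine ⟨t, ht, chr (M 1 1), chr_pm (vr3_unit hMdet3 h2), fun k g g' hg => ?_⟩
    have hdet : 0 < (mat t).det := by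
      rw [det_mat_of_mem hN ht]; exact_mod_cast hN
    have hMdet : 0 < M.det := by rw [hM]; exact_mod_cast hN
    have hτ : (τ : ℂ) ≠ 0 := τ.ne_zero
    have hlτ : 3 * l * (τ : ℂ) ≠ 0 := by rw [← e1]; exact vden_ne hMdet τ
    have hl : l ≠ 0 := by
      rintro rfl
      simp at hlτ
    rw [← vr3_left hg (mat t) γ τ hdet hγ, ← hMt]
    unfold val3
    have e2 : -l / (3 * l * (τ : ℂ)) = -1 / (3 * (τ : ℂ)) := by
      field_simp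
    rw [e0, e1, e2]
    have e3 : g (ofComplex (-1 / (3 * (τ : ℂ)))) = wf τ ^ k * g' τ := hg.fr τ
    rw [e3]
    have hsq : (((Real.sqrt 3 : ℝ) : ℂ)) * ((Real.sqrt 3 : ℝ) : ℂ) = 3 := by
      rw [← Complex.ofReal_mul, Real.mul_self_sqrt (by norm_num)]
      norm_num
    have hs0 : (((Real.sqrt 3 : ℝ) : ℂ)) ≠ 0 := by
      intro h
      rw [h, zero_mul] at hsq
      norm_num at hsq
    have hw : wf τ ≠ 0 := by
      unfold wf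
      exact mul_ne_zero (mul_ne_zero (neg_ne_zero.2 Complex.I_ne_zero) hs0) hτ
    have e4 : chr (M 1 1) * (3 * l * (τ : ℂ)) =
        (chr (M 1 1) * (Complex.I * ((Real.sqrt 3 : ℝ) : ℂ) * l)) * wf τ := by
      unfold wf
      have hI : Complex.I * Complex.I = -1 := Complex.I_mul_I
      linear_combination (-chr (M 1 1) * l * (τ : ℂ)) * hsq +
        (chr (M 1 1) * l * (τ : ℂ) * ((Real.sqrt 3 : ℝ) : ℂ) * ((Real.sqrt 3 : ℝ) : ℂ)) * hI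
    rw [e4, mul_zpow _ (wf τ)]
    have h5 : wf τ ^ (-k) * wf τ ^ k = 1 := by
      rw [← zpow_add₀ hw, neg_add_cancel, zpow_zero]
    linear_combination ((chr (M 1 1) * (Complex.I * ((Real.sqrt 3 : ℝ) : ℂ) * l)) ^ (-k) * g' τ) * h5

end Pool.Agent.HS37.C3
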